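import Pool.Agent.Lib.MP_640417_ag.Orth.Defs

/-!
# MP_640417_ag, Orth, module Bc: extension of scalars for multilinear forms
-/

set_option autoImplicit false

namespace Pool.Agent.Lib.MP_640417_ag.Orth

open Module TensorProduct

variable {F V : Type} [Field F] [AddCommGroup V] [Module F V] [FiniteDimensional F V]
  (K : Type) [Field K] [Algebra F K] {k : ℕ}

/-- The restriction of a form on `K ⊗ V` to `V`. -/
private noncomputable def rs (g : Mf K (K ⊗[F] V) k) : MultilinearMap F (fun _ : Fin k => V) K :=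
  (g.restrictScalars F).compLinearMap (fun _ => TensorProduct.mk F K V 1)

omit [FiniteDimensional F V] in
private lemma rs_apply (g : Mf K (K ⊗[F] V) k) (v : Fin k → V) :
    rs K g v = g (fun i => (1 : K) ⊗ₜ[F] v i) := rfl

/-- Every multilinear form extends to `K ⊗ V`. -/
theorem exists_bcM (f : Mf F V k) :
    ∃ g : Mf K (K ⊗[F] V) k, ∀ v : Fin k → V,
      g (fun i => (1 : K) ⊗ₜ[F] v i) = algebraMap F K (f v) := by
  classical
  let b := Module.finBasis F V
  let bK := Algebra.TensorProduct.basis K b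
  have hbK : ∀ i, bK i = (1 : K) ⊗ₜ[F] b i := fun i => Algebra.TensorProduct.basis_apply ..
  let g : Mf K (K ⊗[F] V) k := ∑ w : Fin k → Fin (finrank F V),
    algebraMap F K (f (fun i => b (w i))) •
      (MultilinearMap.mkPiAlgebra K (Fin k) K).compLinearMap (fun i => bK.coord (w i))
  have hg : ∀ x, g x = ∑ w : Fin k → Fin (finrank F V),
      algebraMap F K (f (fun i => b (w i))) * ∏ i, bK.coord (w i) (x i) := by
    intro x
    simp only [g, MultilinearMap.sum_apply, MultilinearMap.smul_apply,
      MultilinearMap.compLinearMap_apply, MultilinearMap.mkPiAlgebra_apply, smul_eq_mul]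
  refine ⟨g, ?_⟩
  have key : rs K g = (Algebra.linearMap F K).compMultilinearMap f := by
    refine Module.Basis.ext_multilinear (fun _ => b) fun u => ?_
    rw [rs_apply, hg, LinearMap.compMultilinearMap_apply, Algebra.linearMap_apply]
    rw [Finset.sum_eq_single u]
    · have : ∀ i, bK.coord (u i) ((1 : K) ⊗ₜ[F] b (u i)) = 1 := by
        intro i
        rw [← hbK, Basis.coord_apply, Basis.repr_self, Finsupp.single_eq_same]
      simp only [this, Finset.prod_const_one, mul_one]
    · intro w _ hw
      obtain ⟨i, hi⟩ := Function.ne_iff.1 hw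
      rw [Finset.prod_eq_zero (Finset.mem_univ i), mul_zero]
      rw [← hbK, Basis.coord_apply, Basis.repr_self, Finsupp.single_eq_of_ne]
      exact hi
    · intro h
      exact absurd (Finset.mem_univ _) h
  intro v
  have := congrArg (fun h => h v) key
  exact this

theorem tate_bc {Γ : Type} [Group Γ] [TopologicalSpace Γ] (T : Γ →* Module.End F V)
    (T' : Γ →* Module.End K (K ⊗[F] V)) (hT : ∀ γ, T' γ = (T γ).baseChange K) (f : Mf F V k)
    (hf : TateForm T f) (g : Mf K (K ⊗[F] V) k)
    (hg : ∀ v : Fin k → V, g (fun i => (1 : K) ⊗ₜ[F] v i) = algebraMap F K (f v)) :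
    TateForm T' g := by
  obtain ⟨U, hU⟩ := hf
  refine ⟨U, fun γ hγ => ?_⟩
  let b := Module.finBasis F V
  let bK := Algebra.TensorProduct.basis K b
  have hbK : ∀ i, bK i = (1 : K) ⊗ₜ[F] b i := fun i => Algebra.TensorProduct.basis_apply ..
  have key : g.compLinearMap (fun _ => T' γ) = g := by
    refine Module.Basis.ext_multilinear (fun _ => bK) fun u => ?_
    rw [MultilinearMap.compLinearMap_apply]
    simp only [hbK, hT, LinearMap.baseChange_tmul]
    rw [hg (fun i => T γ (b (u i))), hg (fun i => b (u i)), hU γ hγ (fun i => b (u i))]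
  intro v
  have := congrArg (fun h => h v) key
  exact this

omit [FiniteDimensional F V] in
private theorem pairing_descent_aux (form : LinearMap.BilinForm F V) {ℓ : K →ₗ[F] F} (hℓ : ℓ 1 = 1)
    {g : Mf K (K ⊗[F] V) k} (h : g ∈ PairingSpan (form.baseChange K) k) :
    ∀ c : K, ∃ m ∈ PairingSpan form k, ∀ v : Fin k → V,
      m v = ℓ (c * g (fun i => (1 : K) ⊗ₜ[F] v i)) := by
  have hℓa : ∀ (c : K) (x : F), ℓ (c * algebraMap F K x) = ℓ c * x := by
    intro c x
    rw [mul_comm, ← Algebra.smul_def, map_smul, smul_eq_mul, mul_comm]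
  induction h using Submodule.span_induction with
  | mem g hg =>
    intro c
    obtain ⟨σ, h1, h2, h3⟩ := hg
    have h4 : ∀ v : Fin k → V, g (fun i => (1 : K) ⊗ₜ[F] v i) = algebraMap F K
        (∏ i ∈ Finset.univ.filter (fun i => i < σ i), form (v i) (v (σ i))) := by
      intro v
      rw [h3, map_prod]
      refine Finset.prod_congr rfl fun i _ => ?_
      rw [LinearMap.BilinForm.baseChange_tmul, mul_one, Algebra.smul_def, mul_one]
    refine ⟨ℓ c • (ℓ.compMultilinearMap (rs K g)), ?_, ?_⟩
    · refine Submodule.smul_mem _ _ (Submodule.subset_span ⟨σ, h1, h2, fun v => ?_⟩)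
      rw [LinearMap.compMultilinearMap_apply, rs_apply, h4 v]
      have := hℓa 1 (∏ i ∈ Finset.univ.filter (fun i => i < σ i), form (v i) (v (σ i)))
      rw [one_mul, hℓ, one_mul] at this
      exact this
    · intro v
      rw [MultilinearMap.smul_apply, LinearMap.compMultilinearMap_apply, rs_apply, h4 v, hℓa]
      have := hℓa 1 (∏ i ∈ Finset.univ.filter (fun i => i < σ i), form (v i) (v (σ i)))
      rw [one_mul, hℓ, one_mul] at this
      rw [this, smul_eq_mul]
  | zero =>
    intro c
    exact ⟨0, Submodule.zero_mem _, fun v => by simp⟩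
  | add g g' _ _ hg hg' =>
    intro c
    obtain ⟨m, hm, hmv⟩ := hg c
    obtain ⟨m', hm', hmv'⟩ := hg' c
    refine ⟨m + m', Submodule.add_mem _ hm hm', fun v => ?_⟩
    rw [MultilinearMap.add_apply, MultilinearMap.add_apply, hmv, hmv', mul_add, map_add]
  | smul a g _ hg =>
    intro c
    obtain ⟨m, hm, hmv⟩ := hg (c * a)
    refine ⟨m, hm, fun v => ?_⟩
    rw [hmv, MultilinearMap.smul_apply, smul_eq_mul, mul_assoc]

theorem pairing_descent (form : LinearMap.BilinForm F V) (f : Mf F V k) (g : Mf K (K ⊗[F] V) k)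
    (hg : ∀ v : Fin k → V, g (fun i => (1 : K) ⊗ₜ[F] v i) = algebraMap F K (f v))
    (h : g ∈ PairingSpan (form.baseChange K) k) : f ∈ PairingSpan form k := by
  obtain ⟨ℓ, hℓ⟩ := LinearMap.exists_leftInverse_of_injective (Algebra.linearMap F K)
    (LinearMap.ker_eq_bot.2 (algebraMap F K).injective)
  have hℓ1 : ℓ 1 = 1 := by
    have := DFunLike.congr_fun hℓ 1
    simpa using this
  obtain ⟨m, hm, hmv⟩ := pairing_descent_aux K form hℓ1 h 1
  have : f = m := by
    refine MultilinearMap.ext fun v => ?_
    rw [hmv, hg, one_mul]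
    have h2 := DFunLike.congr_fun hℓ (f v)
    exact h2.symm
  rw [this]
  exact hm

end Pool.Agent.Lib.MP_640417_ag.Orth
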