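import Pool.Agent.Lib.MP_640417_ag.Orth.Defs

/-!
# Products of pairings and determinants
-/

set_option autoImplicit false

namespace Pool.Agent.Lib.MP_640417_ag.Orth

open Module

variable {F V : Type} [Field F] [AddCommGroup V] [Module F V]

/-- `f` is a product of pairings over a perfect matching of its variables. -/
def IsPairing (form : LinearMap.BilinForm F V) {k : ℕ} (f : Mf F V k) : Prop :=
  ∃ (m : ℕ) (e : Fin m ⊕ Fin m ≃ Fin k),
    ∀ v, f v = ∏ a, form (v (e (Sum.inl a))) (v (e (Sum.inr a)))

/-- `f` is the product of the determinant of `dim V` of its variables and of pairings over a perfect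
matching of the other ones. -/
def IsPairingDet (form : LinearMap.BilinForm F V) {k : ℕ} (f : Mf F V k) : Prop :=
  ∃ (b : Basis (Fin (finrank F V)) F V) (m : ℕ)
    (e : Fin (finrank F V) ⊕ (Fin m ⊕ Fin m) ≃ Fin k),
    ∀ v, f v = b.det (fun a => v (e (Sum.inl a))) *
      ∏ a, form (v (e (Sum.inr (Sum.inl a)))) (v (e (Sum.inr (Sum.inr a))))

/-- The span of the products of pairings and at most one determinant. -/
def Prods (form : LinearMap.BilinForm F V) (k : ℕ) : Submodule F (Mf F V k) :=
  Submodule.span F {f | IsPairing form f ∨ IsPairingDet form f}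

/-- The permutation of the variables. -/
noncomputable def perm {k : ℕ} (π : Equiv.Perm (Fin k)) (f : Mf F V k) : Mf F V k :=
  f.domDomCongr π

lemma perm_apply {k : ℕ} (π : Equiv.Perm (Fin k)) (f : Mf F V k) (v : Fin k → V) :
    perm π f v = f (fun i => v (π i)) := rfl

end Pool.Agent.Lib.MP_640417_ag.Orth
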