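import Pool.Agent.Lib.MP_640417_ag.Orth.Defs

/-!
# The action of endomorphisms on multilinear forms by derivations
-/

namespace Pool.Agent.Lib.MP_640417_ag.Orth

open Module

variable {F V : Type} [Field F] [AddCommGroup V] [Module F V] {k : ℕ}

/-- `f(v₁, …, M vⱼ, …, v_k)`. -/
noncomputable def slot (j : Fin k) (M : Module.End F V) (f : Mf F V k) : Mf F V k :=
  f.compLinearMap (Function.update (fun _ => LinearMap.id) j M)

lemma slot_apply (j : Fin k) (M : Module.End F V) (f : Mf F V k) (v : Fin k → V) :
    slot j M f v = f (Function.update v j (M (v j))) := by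
  unfold slot
  rw [MultilinearMap.compLinearMap_apply]
  congr 1
  funext i
  by_cases h : i = j
  · subst h
    rw [Function.update_self, Function.update_self]
  · rw [Function.update_of_ne h, Function.update_of_ne h]
    rfl

/-- `∑ⱼ f(v₁, …, M vⱼ, …, v_k)`. -/
noncomputable def Dm (M : Module.End F V) (f : Mf F V k) : Mf F V k := ∑ j, slot j M f

lemma Dm_apply (M : Module.End F V) (f : Mf F V k) (v : Fin k → V) :
    Dm M f v = ∑ j, f (Function.update v j (M (v j))) := by
  unfold Dm
  rw [MultilinearMap.sum_apply]
  exact Finset.sum_congr rfl fun j _ => slot_apply j M f v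

lemma Dm_add (M M' : Module.End F V) (f : Mf F V k) : Dm (M + M') f = Dm M f + Dm M' f := by
  ext v
  rw [MultilinearMap.add_apply, Dm_apply, Dm_apply, Dm_apply, ← Finset.sum_add_distrib]
  refine Finset.sum_congr rfl fun j _ => ?_
  rw [LinearMap.add_apply, MultilinearMap.map_update_add]

lemma Dm_smul (r : F) (M : Module.End F V) (f : Mf F V k) : Dm (r • M) f = r • Dm M f := by
  ext v
  rw [MultilinearMap.smul_apply, Dm_apply, Dm_apply, Finset.smul_sum]
  refine Finset.sum_congr rfl fun j _ => ?_
  rw [LinearMap.smul_apply, MultilinearMap.map_update_smul]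

lemma Dm_zero (f : Mf F V k) : Dm (0 : Module.End F V) f = 0 := by
  have h := Dm_smul (0 : F) (0 : Module.End F V) f
  rwa [zero_smul, zero_smul] at h

lemma Dm_add_form (M : Module.End F V) (f g : Mf F V k) : Dm M (f + g) = Dm M f + Dm M g := by
  ext v
  rw [MultilinearMap.add_apply, Dm_apply, Dm_apply, Dm_apply, ← Finset.sum_add_distrib]
  rfl

lemma Dm_zero_form (M : Module.End F V) : Dm M (0 : Mf F V k) = 0 := by
  ext v
  rw [Dm_apply]
  simp

/-- The commutator. -/
lemma Dm_comm (M M' : Module.End F V) (f : Mf F V k) :
    Dm (M * M' - M' * M) f = Dm M' (Dm M f) - Dm M (Dm M' f) := by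
  ext v
  rw [MultilinearMap.sub_apply, Dm_apply, Dm_apply, Dm_apply]
  simp only [Dm_apply]
  have key : ∀ N N' : Module.End F V, ∀ j : Fin k,
      ∑ i, f (Function.update (Function.update v j (N' (v j))) i
        (N ((Function.update v j (N' (v j))) i))) =
      f (Function.update v j (N (N' (v j)))) + ∑ i ∈ Finset.univ.erase j,
        f (Function.update (Function.update v j (N' (v j))) i (N (v i))) := by
    intro N N' j
    rw [← Finset.add_sum_erase Finset.univ _ (Finset.mem_univ j), Function.update_self,
      Function.update_idem]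
    congr 1
    refine Finset.sum_congr rfl fun i hi => ?_
    rw [Function.update_of_ne (Finset.ne_of_mem_erase hi)]
  simp only [key, Finset.sum_add_distrib]
  have h2 : ∑ j, ∑ i ∈ Finset.univ.erase j,
        f (Function.update (Function.update v j (M' (v j))) i (M (v i))) =
      ∑ j, ∑ i ∈ Finset.univ.erase j,
        f (Function.update (Function.update v j (M (v j))) i (M' (v i))) := by
    rw [Finset.sum_comm' (t' := Finset.univ) (s' := fun i => Finset.univ.erase i)]
    · refine Finset.sum_congr rfl fun i _ => Finset.sum_congr rfl fun j hj => ?_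
      rw [Function.update_comm (Finset.ne_of_mem_erase hj)]
    · intro j i
      simp only [Finset.mem_univ, Finset.mem_erase, true_and, and_true]
      exact ne_comm
  rw [h2, add_sub_add_right_eq_sub, ← Finset.sum_sub_distrib]
  refine Finset.sum_congr rfl fun j _ => ?_
  rw [LinearMap.sub_apply, Module.End.mul_apply, Module.End.mul_apply,
    MultilinearMap.map_update_sub]

/-- The form `f(g v₁, …, g v_k)`. -/
noncomputable def pull (g : Module.End F V) (f : Mf F V k) : Mf F V k :=
  f.compLinearMap fun _ => g

lemma pull_apply (g : Module.End F V) (f : Mf F V k) (v : Fin k → V) :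
    pull g f v = f fun i => g (v i) := rfl

/-- Conjugation. -/
lemma Dm_pull (g M M' : Module.End F V) (h : g * M = M' * g) (f : Mf F V k) :
    Dm M (pull g f) = pull g (Dm M' f) := by
  ext v
  rw [pull_apply, Dm_apply, Dm_apply]
  refine Finset.sum_congr rfl fun j _ => ?_
  rw [pull_apply]
  congr 1
  funext i
  by_cases hi : i = j
  · subst hi
    rw [Function.update_self, Function.update_self]
    exact LinearMap.congr_fun h (v i)
  · rw [Function.update_of_ne hi, Function.update_of_ne hi]

end Pool.Agent.Lib.MP_640417_ag.Orth
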