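import Pool.Agent.Lib.MP_640417_ag.Orth.Defs
import Pool.Agent.Lib.MP_640417_ag.Four.Struct

/-!
# The endomorphisms `x ↦ B(x, a) b - B(x, b) a`
-/

namespace Pool.Agent.Lib.MP_640417_ag.Orth

open Module Pool.Agent.Lib.MP_640417_ag.Four

variable {K V : Type} [Field K] [AddCommGroup V] [Module K V] (form : LinearMap.BilinForm K V)

/-- The endomorphism `x ↦ B(x, a) b - B(x, b) a`. -/
noncomputable def aa (a b : V) : Module.End K V :=
  (form.flip a).smulRight b - (form.flip b).smulRight a

lemma aa_apply (a b x : V) : aa form a b x = form x a • b - form x b • a := rfl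

lemma aa_self (a : V) : aa form a a = 0 := by
  ext x
  rw [aa_apply, sub_self, LinearMap.zero_apply]

lemma aa_anti (a b : V) : aa form a b = - aa form b a := by
  ext x
  rw [LinearMap.neg_apply, aa_apply, aa_apply, neg_sub]

lemma aa_add (a b c : V) : aa form a (b + c) = aa form a b + aa form a c := by
  ext x
  simp only [aa_apply, LinearMap.add_apply, map_add, smul_add, add_smul]
  abel

lemma aa_smul (r : K) (a b : V) : aa form a (r • b) = r • aa form a b := by
  ext x
  simp only [aa_apply, LinearMap.smul_apply, map_smul, smul_sub, smul_smul, smul_eq_mul]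
  rw [mul_comm (form x a) r]

lemma aa_add' (a b c : V) : aa form (b + c) a = aa form b a + aa form c a := by
  rw [aa_anti, aa_add, aa_anti form a b, aa_anti form a c, neg_add, neg_neg, neg_neg]

lemma aa_smul' (r : K) (a b : V) : aa form (r • b) a = r • aa form b a := by
  rw [aa_anti, aa_smul, aa_anti form b a, smul_neg]

/-- `aa` as a linear map of the second argument. -/
noncomputable def aal (a : V) : V →ₗ[K] Module.End K V where
  toFun b := aa form a b
  map_add' b c := aa_add form a b c
  map_smul' r b := aa_smul form r a b

/-- The vectors `w` with `a(a, w)` in `L`. -/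
noncomputable def WA (L : Submodule K (Module.End K V)) (a : V) : Submodule K V :=
  L.comap (aal form a)

lemma mem_WA (L : Submodule K (Module.End K V)) (a w : V) :
    w ∈ WA form L a ↔ aa form a w ∈ L := Iff.rfl

variable {form}

lemma aa_skew (hsymm : ∀ x y, form x y = form y x) (a b : V) : Skew form (aa form a b) := by
  intro x y
  simp only [aa_apply, map_sub, map_smul, LinearMap.sub_apply, LinearMap.smul_apply, smul_eq_mul]
  rw [hsymm b y, hsymm a y]
  ring

lemma comm_aa {M : Module.End K V} (hM : Skew form M) (a b : V) :
    M * aa form a b - aa form a b * M = aa form (M a) b + aa form a (M b) := by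
  ext x
  have h1 := hM x a
  have h2 := hM x b
  have h1' : form (M x) a = - form x (M a) := eq_neg_of_add_eq_zero_left h1
  have h2' : form (M x) b = - form x (M b) := eq_neg_of_add_eq_zero_left h2
  simp only [LinearMap.sub_apply, Module.End.mul_apply, LinearMap.add_apply, aa_apply, map_sub,
    map_smul, h1', h2', neg_smul]
  abel

end Pool.Agent.Lib.MP_640417_ag.Orth
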