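import Pool.Agent.Lib.MP_640417_ag.Orth.DefsA
import Pool.Agent.Lib.MP_640417_ag.Orth.Ml

/-!
# MP_640417_ag, Orth, module AltDet: forms which are alternating in `dim V` variables

`N = finrank F V`, characteristic zero. For fixed `u : Fin k' → V` the map `w ↦ f (Sum.elim w u ∘ e.symm)` is an alternating map in `w : Fin N → V`
(it changes sign under transpositions, `2 ≠ 0`; if `w i = w j` the value is its own negative), so it is
`f (.. b ..) • b.det w` (`AlternatingMap.eq_smul_basis_det`). Let `g u = f (Sum.elim b u ∘ e.symm)`, a multilinear map in `u`.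
`Dm M g = 0`: evaluate `Dm M f = 0` at `Sum.elim b u ∘ e.symm`: the terms of the variables in the range of `inr` give `Dm M g u`, the other ones
`∑ i, f (b with b i replaced by M b i, u) = ∑ i, b.det (update b i (M (b i))) * g u = trace M * g u = 0`.
-/

set_option autoImplicit false

namespace Pool.Agent.Lib.MP_640417_ag.Orth

open Module

variable {F V : Type} [Field F] [CharZero F] [AddCommGroup V] [Module F V] [FiniteDimensional F V]

namespace AltDetM

omit [CharZero F] [FiniteDimensional F V] in
private theorem det_update {N : ℕ} (b : Basis (Fin N) F V) (i : Fin N) (y : V) :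
    b.det (Function.update b i y) = b.repr y i := by
  have h : b.det.toMultilinearMap.toLinearMap b i = b.coord i := by
    refine b.ext fun j => ?_
    rw [MultilinearMap.toLinearMap_apply, Basis.coord_apply, Basis.repr_self]
    by_cases hij : i = j
    · subst hij
      rw [Function.update_eq_self, Finsupp.single_eq_same]
      exact b.det_self
    · rw [Finsupp.single_eq_of_ne hij]
      refine b.det.map_eq_zero_of_eq _ (i := i) (j := j) ?_ hij
      rw [Function.update_self, Function.update_of_ne (Ne.symm hij)]
  have h2 := LinearMap.congr_fun h y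
  rw [MultilinearMap.toLinearMap_apply, Basis.coord_apply] at h2
  exact h2

omit [CharZero F] in
private theorem sum_det (b : Basis (Fin (finrank F V)) F V) (M : Module.End F V) :
    ∑ i, b.det (Function.update b i (M (b i))) = LinearMap.trace F V M := by
  rw [LinearMap.trace_eq_matrix_trace F b M, Matrix.trace]
  refine Finset.sum_congr rfl fun i _ => ?_
  rw [det_update, Matrix.diag_apply, LinearMap.toMatrix_apply]

omit [CharZero F] in
private theorem upd_inl {N k' k : ℕ} (e : Fin N ⊕ Fin k' ≃ Fin k) (w : Fin N → V)
    (u : Fin k' → V) (i : Fin N) (x : V) :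
    Function.update (fun l => Sum.elim w u (e.symm l)) (e (Sum.inl i)) x =
      fun l => Sum.elim (Function.update w i x) u (e.symm l) := by
  funext l
  obtain ⟨s, rfl⟩ := e.surjective l
  rcases s with a | a
  · rw [Equiv.symm_apply_apply]
    by_cases h : a = i
    · subst h
      rw [Function.update_self, Sum.elim_inl, Function.update_self]
    · rw [Function.update_of_ne, Equiv.symm_apply_apply, Sum.elim_inl, Sum.elim_inl,
        Function.update_of_ne h]
      intro h2
      exact h (Sum.inl_injective (e.injective h2))
  · rw [Function.update_of_ne, Equiv.symm_apply_apply, Sum.elim_inr, Sum.elim_inr]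
    intro h2
    exact absurd (e.injective h2) (by simp)

omit [CharZero F] in
private theorem upd_inr {N k' k : ℕ} (e : Fin N ⊕ Fin k' ≃ Fin k) (w : Fin N → V)
    (u : Fin k' → V) (i : Fin k') (x : V) :
    Function.update (fun l => Sum.elim w u (e.symm l)) (e (Sum.inr i)) x =
      fun l => Sum.elim w (Function.update u i x) (e.symm l) := by
  funext l
  obtain ⟨s, rfl⟩ := e.surjective l
  rcases s with a | a
  · rw [Function.update_of_ne, Equiv.symm_apply_apply, Sum.elim_inl, Sum.elim_inl]
    intro h2
    exact absurd (e.injective h2) (by simp)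
  · rw [Equiv.symm_apply_apply]
    by_cases h : a = i
    · subst h
      rw [Function.update_self, Sum.elim_inr, Function.update_self]
    · rw [Function.update_of_ne, Equiv.symm_apply_apply, Sum.elim_inr, Sum.elim_inr,
        Function.update_of_ne h]
      intro h2
      exact h (Sum.inr_injective (e.injective h2))

/-- The partial evaluation. -/
private noncomputable def cur {N k' k : ℕ} (e : Fin N ⊕ Fin k' ≃ Fin k) (f : Mf F V k) :
    MultilinearMap F (fun _ : Fin N => V) (Mf F V k') where
  toFun w :=
    { toFun := fun u => f (fun l => Sum.elim w u (e.symm l))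
      map_update_add' := by
        intro inst u i x y
        rw [Subsingleton.elim inst (instDecidableEqFin k')]
        rw [← upd_inr, ← upd_inr, ← upd_inr, MultilinearMap.map_update_add]
      map_update_smul' := by
        intro inst u i r x
        rw [Subsingleton.elim inst (instDecidableEqFin k')]
        rw [← upd_inr, ← upd_inr, MultilinearMap.map_update_smul] }
  map_update_add' := by
    intro inst w i x y
    rw [Subsingleton.elim inst (instDecidableEqFin N)]
    ext u
    change f _ = f _ + f _
    rw [← upd_inl, ← upd_inl, ← upd_inl, MultilinearMap.map_update_add]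
  map_update_smul' := by
    intro inst w i r x
    rw [Subsingleton.elim inst (instDecidableEqFin N)]
    ext u
    change f _ = r • f _
    rw [← upd_inl, ← upd_inl, MultilinearMap.map_update_smul]

omit [CharZero F] in
private theorem cur_apply {N k' k : ℕ} (e : Fin N ⊕ Fin k' ≃ Fin k) (f : Mf F V k)
    (w : Fin N → V) (u : Fin k' → V) :
    cur e f w u = f (fun l => Sum.elim w u (e.symm l)) := rfl

private theorem cur_alt {N k' k : ℕ} (e : Fin N ⊕ Fin k' ≃ Fin k) (f : Mf F V k)
    (hf : ∀ i j : Fin N, i ≠ j →
      perm (Equiv.swap (e (Sum.inl i)) (e (Sum.inl j))) f = - f)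
    (w : Fin N → V) (i j : Fin N) (hw : w i = w j) (hij : i ≠ j) : cur e f w = 0 := by
  ext u
  rw [cur_apply]
  have h1 := congrArg (fun h : Mf F V k => h (fun l => Sum.elim w u (e.symm l))) (hf i j hij)
  simp only [perm_apply] at h1
  have h2 : (fun l => Sum.elim w u (e.symm (Equiv.swap (e (Sum.inl i)) (e (Sum.inl j)) l))) =
      fun l => Sum.elim w u (e.symm l) := by
    funext l
    by_cases hi : l = e (Sum.inl i)
    · rw [hi, Equiv.swap_apply_left, Equiv.symm_apply_apply, Equiv.symm_apply_apply,
        Sum.elim_inl, Sum.elim_inl, hw]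
    · by_cases hj : l = e (Sum.inl j)
      · rw [hj, Equiv.swap_apply_right, Equiv.symm_apply_apply, Equiv.symm_apply_apply,
          Sum.elim_inl, Sum.elim_inl, hw]
      · rw [Equiv.swap_apply_of_ne_of_ne hi hj]
  rw [h2] at h1
  have h3 : f (fun l => Sum.elim w u (e.symm l)) = - f (fun l => Sum.elim w u (e.symm l)) := h1
  exact self_eq_neg.1 h3

end AltDetM

open AltDetM

theorem exists_of_alt (b : Basis (Fin (finrank F V)) F V) {k k' : ℕ}
    (e : Fin (finrank F V) ⊕ Fin k' ≃ Fin k) (f : Mf F V k)
    (hf : ∀ i j : Fin (finrank F V), i ≠ j →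
      perm (Equiv.swap (e (Sum.inl i)) (e (Sum.inl j))) f = - f) :
    ∃ g : Mf F V k',
      (∀ v, f v = b.det (fun a => v (e (Sum.inl a))) * g (fun a => v (e (Sum.inr a)))) ∧
      ∀ M : Module.End F V, LinearMap.trace F V M = 0 → Dm M f = 0 → Dm M g = 0 := by
  let A : V [⋀^Fin (finrank F V)]→ₗ[F] (Mf F V k') :=
    { cur e f with
      map_eq_zero_of_eq' := fun w i j hw hij => cur_alt e f hf w i j hw hij }
  have hA : ∀ w u, cur e f w u = b.det w * cur e f b u := by
    intro w u
    let ev : (Mf F V k') →ₗ[F] F :=
      { toFun := fun h => h u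
        map_add' := fun _ _ => rfl
        map_smul' := fun _ _ => rfl }
    have h1 := AlternatingMap.eq_smul_basis_det b (ev.compAlternatingMap A)
    have h2 := congrArg (fun h : V [⋀^Fin (finrank F V)]→ₗ[F] F => h w) h1
    have h3 : cur e f w u = cur e f b u * b.det w := h2
    rw [h3, mul_comm]
  refine ⟨cur e f b, fun v => ?_, fun M hM hD => ?_⟩
  · rw [← hA, cur_apply]
    congr 1
    funext l
    obtain ⟨s, rfl⟩ := e.surjective l
    rw [Equiv.symm_apply_apply]
    rcases s with a | a
    · rfl
    · rfl
  · ext u
    have h1 := congrArg (fun h : Mf F V k => h (fun l => Sum.elim b u (e.symm l))) hD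
    have h2 : Dm M f (fun l => Sum.elim b u (e.symm l)) = 0 := h1
    rw [Dm_apply, ← Equiv.sum_comp e, Fintype.sum_sum_type] at h2
    have h3 : ∑ i, f (Function.update (fun l => Sum.elim b u (e.symm l)) (e (Sum.inl i))
        (M (Sum.elim b u (e.symm (e (Sum.inl i)))))) = 0 := by
      have h4 : ∀ i, f (Function.update (fun l => Sum.elim b u (e.symm l)) (e (Sum.inl i))
          (M (Sum.elim b u (e.symm (e (Sum.inl i)))))) =
          b.det (Function.update b i (M (b i))) * cur e f b u := by
        intro i
        rw [upd_inl, Equiv.symm_apply_apply, Sum.elim_inl, ← cur_apply, hA]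
      rw [Finset.sum_congr rfl fun i _ => h4 i, ← Finset.sum_mul, sum_det, hM, zero_mul]
    rw [h3, zero_add] at h2
    rw [Dm_apply, MultilinearMap.zero_apply, ← h2]
    refine Finset.sum_congr rfl fun j _ => ?_
    rw [upd_inr, Equiv.symm_apply_apply, Sum.elim_inr, ← cur_apply]

end Pool.Agent.Lib.MP_640417_ag.Orth
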