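import Mathlib

/-!
# MP_640417_ag, Orth, module AltS (150 lines): a lemma on representations of symmetric groups

`Q(m)`: every `x ∈ Inv` for which there is `s : Finset (Fin k)`, `s.card = m`, with `act (swap a b) x = - x` for all different `a, b ∈ s`, lies in `P`.
`Q(N)` is `hN`. Show `Q(m + 1) → Q(m)` for `1 ≤ m < N` (`Nat.decreasingInduction` or `Nat.le_induction` on `N - m`); `Q(1)` is the claim (take
`s = {i}`, possible as `0 < k`).
Let `x, s` be as in `Q(m)`. For `j ∉ s` put `h_j = x - ∑_{i ∈ s} act (swap i j) x ∈ Inv`. It is alternating on `insert j s`: for `a, b ∈ s`: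
`act (swap a b) act (swap i j) x = act (swap (swap a b i) j) act (swap a b) x = - act (swap (swap a b i) j) x` (conjugation
`Equiv.swap_mul_...`, `j ≠ a, b`), and `i ↦ swap a b i` permutes `s`, so `act (swap a b) h_j = - h_j`. For `b ∈ s`:
`swap j b * swap i j = swap i j * swap i b` for `i ≠ b`, so `act (swap j b) act (swap i j) x = - act (swap i j) x` for `i ∈ s`, `i ≠ b`, and
`act (swap j b) h_j = act (swap j b) x - x + ∑_{i ∈ s, i ≠ b} act (swap i j) x = - h_j`. So `h_j ∈ P` by `Q(m + 1)`, so
`∑_{i ∈ s} act (swap i j) x ≡ x mod P` for every `j ∉ s`. Sum `hJ` over `i ∈ s` (`m = s.card`):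
`m (N - 1) x + ∑_{i ∈ s} ∑_{j ∈ s, j ≠ i} act (swap i j) x + ∑_{j ∉ s} ∑_{i ∈ s} act (swap i j) x ∈ P`, i.e.
`(m (N - 1) - m (m - 1) + (k - m)) x ∈ P`, and the coefficient is `m (N - m) + (k - m) > 0` (a positive natural number, not zero in `K`).
-/

set_option autoImplicit false

namespace Pool.Agent.Lib.MP_640417_ag.Orth

open Module

/-- The alternation over the transpositions `(i j)`, `i ∈ s`, is alternating on `insert j s`. -/
private theorem alt_insert {K X : Type} [Field K] [AddCommGroup X] [Module K X] {k : ℕ}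
    (act : Equiv.Perm (Fin k) →* Module.End K X) (x : X) (s : Finset (Fin k))
    (hx : ∀ a ∈ s, ∀ b ∈ s, a ≠ b → act (Equiv.swap a b) x = - x) (j : Fin k) (hj : j ∉ s) :
    ∀ a ∈ insert j s, ∀ b ∈ insert j s, a ≠ b →
      act (Equiv.swap a b) (x - ∑ i ∈ s, act (Equiv.swap i j) x) =
        - (x - ∑ i ∈ s, act (Equiv.swap i j) x) := by
  have hmul : ∀ (π ρ : Equiv.Perm (Fin k)) (y : X), act π (act ρ y) = act (π * ρ) y := by
    intro π ρ y
    rw [map_mul, Module.End.mul_apply]
  -- two elements of `s`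
  have h1 : ∀ a ∈ s, ∀ b ∈ s, a ≠ b →
      act (Equiv.swap a b) (x - ∑ i ∈ s, act (Equiv.swap i j) x) =
        - (x - ∑ i ∈ s, act (Equiv.swap i j) x) := by
    intro a ha b hb hab
    have hja : j ≠ a := fun h => hj (h ▸ ha)
    have hjb : j ≠ b := fun h => hj (h ▸ hb)
    have h2 : ∀ i ∈ s, act (Equiv.swap a b) (act (Equiv.swap i j) x) =
        - act (Equiv.swap (Equiv.swap a b i) j) x := by
      intro i _
      rw [hmul, Equiv.mul_swap_eq_swap_mul, Equiv.swap_apply_of_ne_of_ne hja hjb, ← hmul,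
        hx a ha b hb hab, map_neg]
    have h3 : ∑ i ∈ s, act (Equiv.swap (Equiv.swap a b i) j) x =
        ∑ i ∈ s, act (Equiv.swap i j) x := by
      refine Finset.sum_equiv (Equiv.swap a b) ?_ (fun i _ => rfl)
      intro i
      by_cases hia : i = a
      · subst hia
        rw [Equiv.swap_apply_left]
        exact iff_of_true ha hb
      · by_cases hib : i = b
        · subst hib
          rw [Equiv.swap_apply_right]
          exact iff_of_true hb ha
        · rw [Equiv.swap_apply_of_ne_of_ne hia hib]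
    rw [map_sub, map_sum, Finset.sum_congr rfl h2, Finset.sum_neg_distrib, h3,
      hx a ha b hb hab]
    abel
  -- the new element
  have h4 : ∀ b ∈ s, act (Equiv.swap j b) (x - ∑ i ∈ s, act (Equiv.swap i j) x) =
        - (x - ∑ i ∈ s, act (Equiv.swap i j) x) := by
    intro b hb
    have hjb : j ≠ b := fun h => hj (h ▸ hb)
    have h5 : ∀ i ∈ s.erase b, act (Equiv.swap j b) (act (Equiv.swap i j) x) =
        - act (Equiv.swap i j) x := by
      intro i hi
      have hib := Finset.ne_of_mem_erase hi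
      have his := Finset.mem_of_mem_erase hi
      have h6 : Equiv.swap i j * Equiv.swap i b = Equiv.swap j b * Equiv.swap i j := by
        rw [Equiv.mul_swap_eq_swap_mul, Equiv.swap_apply_left,
          Equiv.swap_apply_of_ne_of_ne hib.symm hjb.symm]
      rw [hmul, ← h6, ← hmul, hx i his b hb hib, map_neg]
    have h7 : act (Equiv.swap j b) (act (Equiv.swap b j) x) = x := by
      rw [hmul, Equiv.swap_comm b j, Equiv.swap_mul_self, map_one, Module.End.one_apply]
    rw [map_sub, map_sum, ← Finset.add_sum_erase s _ hb, Finset.sum_congr rfl h5, h7,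
      Finset.sum_neg_distrib, ← Finset.add_sum_erase s (fun i => act (Equiv.swap i j) x) hb,
      Equiv.swap_comm b j]
    abel
  intro a ha b hb hab
  rcases Finset.mem_insert.1 ha with ha1 | ha1
  · rcases Finset.mem_insert.1 hb with hb1 | hb1
    · exact absurd (ha1.trans hb1.symm) hab
    · rw [ha1]
      exact h4 b hb1
  · rcases Finset.mem_insert.1 hb with hb1 | hb1
    · rw [hb1, Equiv.swap_comm a j]
      exact h4 a ha1
    · exact h1 a ha1 b hb1 hab

theorem alt_descent {K X : Type} [Field K] [CharZero K] [AddCommGroup X] [Module K X] {k N : ℕ}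
    (hk : 0 < k) (hN1 : 0 < N) (act : Equiv.Perm (Fin k) →* Module.End K X)
    (P Inv : Submodule K X) (hI : ∀ π, ∀ x ∈ Inv, act π x ∈ Inv)
    (hJ : ∀ x ∈ Inv, ∀ i, ((N : K) - 1) • x +
      ∑ j ∈ Finset.univ.erase i, act (Equiv.swap i j) x ∈ P)
    (hN : ∀ x ∈ Inv, ∀ s : Finset (Fin k), s.card = N →
      (∀ a ∈ s, ∀ b ∈ s, a ≠ b → act (Equiv.swap a b) x = - x) → x ∈ P) :
    ∀ x ∈ Inv, x ∈ P := by
  have step : ∀ m : ℕ, 1 ≤ m → m < N →
      (∀ x ∈ Inv, ∀ s : Finset (Fin k), s.card = m + 1 →
        (∀ a ∈ s, ∀ b ∈ s, a ≠ b → act (Equiv.swap a b) x = - x) → x ∈ P) →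
      ∀ x ∈ Inv, ∀ s : Finset (Fin k), s.card = m →
        (∀ a ∈ s, ∀ b ∈ s, a ≠ b → act (Equiv.swap a b) x = - x) → x ∈ P := by
    intro m hm1 hmN ih x hx s hs halt
    -- the alternations
    have h1 : ∀ j ∈ sᶜ, x - ∑ i ∈ s, act (Equiv.swap i j) x ∈ P := by
      intro j hj
      have hj' : j ∉ s := Finset.mem_compl.1 hj
      refine ih _ (Inv.sub_mem hx (Inv.sum_mem fun i _ => hI _ x hx)) (insert j s) ?_
        (alt_insert act x s halt j hj')
      rw [Finset.card_insert_of_notMem hj', hs]
    have h2 := P.sum_mem h1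
    rw [Finset.sum_sub_distrib, Finset.sum_const, Finset.card_compl, Fintype.card_fin, hs] at h2
    have h3 : ∀ i ∈ s, ((N : K) - 1) • x + ((- ((m : K) - 1)) • x +
        ∑ j ∈ sᶜ, act (Equiv.swap i j) x) ∈ P := by
      intro i hi
      have h4 := hJ x hx i
      have h5 : ∑ j ∈ Finset.univ.erase i, act (Equiv.swap i j) x =
          ∑ j ∈ s.erase i, act (Equiv.swap i j) x + ∑ j ∈ sᶜ, act (Equiv.swap i j) x := by
        rw [← Finset.sum_union]
        · refine Finset.sum_congr ?_ fun _ _ => rfl
          ext j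
          simp only [Finset.mem_erase, Finset.mem_univ, and_true, Finset.mem_union,
            Finset.mem_compl]
          constructor
          · intro h
            by_cases hjs : j ∈ s
            · exact Or.inl ⟨h, hjs⟩
            · exact Or.inr hjs
          · rintro (⟨h, _⟩ | h)
            · exact h
            · exact fun h' => h (h' ▸ hi)
        · rw [Finset.disjoint_left]
          intro j hj hj'
          exact Finset.mem_compl.1 hj' (Finset.mem_of_mem_erase hj)
      have h6 : ∑ j ∈ s.erase i, act (Equiv.swap i j) x = (- ((m : K) - 1)) • x := by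
        rw [Finset.sum_congr rfl fun j hj => halt i hi j (Finset.mem_of_mem_erase hj)
          (Finset.ne_of_mem_erase hj).symm, Finset.sum_const, Finset.card_erase_of_mem hi, hs,
          ← Nat.cast_smul_eq_nsmul K, Nat.cast_sub hm1, Nat.cast_one, smul_neg, neg_smul]
      rw [h5, h6] at h4
      exact h4
    have h7 := P.sum_mem h3
    rw [Finset.sum_add_distrib, Finset.sum_const, hs, Finset.sum_add_distrib, Finset.sum_const,
      hs, Finset.sum_comm] at h7
    have h8 := P.add_mem h7 h2
    have hmk : m ≤ k := by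
      rw [← hs]
      exact (Finset.card_le_univ s).trans (Fintype.card_fin k).le
    have h9 : m • (((N : K) - 1) • x) + (m • ((- ((m : K) - 1)) • x) +
        ∑ j ∈ sᶜ, ∑ i ∈ s, act (Equiv.swap i j) x) +
        ((k - m) • x - ∑ j ∈ sᶜ, ∑ i ∈ s, act (Equiv.swap i j) x) =
        ((m * (N - m) + (k - m) : ℕ) : K) • x := by
      rw [← Nat.cast_smul_eq_nsmul K m, ← Nat.cast_smul_eq_nsmul K m,
        ← Nat.cast_smul_eq_nsmul K (k - m), smul_smul, smul_smul]
      have h10 : ((m * (N - m) + (k - m) : ℕ) : K) =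
          (m : K) * ((N : K) - 1) + (m : K) * (- ((m : K) - 1)) + ((k - m : ℕ) : K) := by
        rw [Nat.cast_add, Nat.cast_mul, Nat.cast_sub hmN.le]
        ring
      rw [h10, add_smul, add_smul]
      abel
    rw [h9] at h8
    have h11 : ((m * (N - m) + (k - m) : ℕ) : K) ≠ 0 := by
      rw [Nat.cast_ne_zero]
      have : 0 < m * (N - m) := Nat.mul_pos hm1 (Nat.sub_pos_of_lt hmN)
      omega
    exact (P.smul_mem_iff h11).1 h8
  have all : ∀ n : ℕ, ∀ m : ℕ, 1 ≤ m → m + n = N →
      ∀ x ∈ Inv, ∀ s : Finset (Fin k), s.card = m →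
        (∀ a ∈ s, ∀ b ∈ s, a ≠ b → act (Equiv.swap a b) x = - x) → x ∈ P := by
    intro n
    induction n with
    | zero =>
      intro m _ hm x hx s hs
      exact hN x hx s (by omega)
    | succ n ih =>
      intro m hm1 hm
      exact step m hm1 (by omega) (ih (m + 1) (by omega) (by omega))
  intro x hx
  refine all (N - 1) 1 le_rfl (by omega) x hx {⟨0, hk⟩} (Finset.card_singleton _) ?_
  intro a ha b hb hab
  exact absurd ((Finset.mem_singleton.1 ha).trans (Finset.mem_singleton.1 hb).symm) hab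

end Pool.Agent.Lib.MP_640417_ag.Orth
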