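import Pool.Agent.Lib.MP_640417_ag.Orth.Ml

/-!
# MP_640417_ag, Orth, module Bal (120 lines): Jordan decomposition and invariant forms

`g = n + s`, `n` nilpotent, `n s = s n`, `s e_v = lam_v e_v`. Let `g' = g^N`, `s' = s^N`; `g' - s'` is nilpotent and commutes with `s'`
(`Commute`, `n` divides it: `Commute.isNilpotent_...`, or `(n + s)^N - s^N = n * (...)`). On `Mf K V k` consider the commuting
operators `A_i = slot i g'`, `S_i = slot i s'` (linear maps `Mf K V k → Mf K V k`; `slot` is multiplicative in `M` (contravariant) and
additive). `A_i - S_i = slot i (g' - s')` is nilpotent. The product `A` of the `A_i` is `f ↦ f (g' v₁, ..)`, the product `S` of the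
`S_i` is `f ↦ f (s' v₁, ..)`. `A - S` is nilpotent and commutes with `S` (sum of commuting nilpotent terms: induction over the number of factors
replaced). `A f = f`, so `(1 - S) f = (A - S) f`, so `(1 - S)^m f = (A - S)^m f = 0` for large `m` (the operators commute). Evaluate at
`e_{w 1}, .., e_{w k}`: `S` multiplies by `μ = (∏ lam (w i))^N`, so `(1 - μ)^m f(e_w) = 0` and `μ = 1`.
Alternative without operators: for `j = 0..k` replace slots one after another: show for `v = e_w`, by downward induction on the
nilpotency orders, ... (the operator proof is shorter).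
-/

set_option autoImplicit false

namespace Pool.Agent.Lib.MP_640417_ag.Orth

open Module

/-- `(g - l) ^ d` is `n ^ d` on the eigenvectors of `s`. -/
lemma Bal_nil {K V : Type} [Field K] [AddCommGroup V] [Module K V] (g n s : Module.End K V)
    (hg : g = n + s) (hns : Commute n s) (l : K) (d : ℕ) :
    ∀ x, s x = l • x → ((g - algebraMap K (Module.End K V) l) ^ d) x = (n ^ d) x := by
  induction d with
  | zero => intro x _; rfl
  | succ d ih =>
    intro x hx
    rw [pow_succ, pow_succ, Module.End.mul_apply, Module.End.mul_apply]
    have h1 : (g - algebraMap K (Module.End K V) l) x = n x := by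
      rw [LinearMap.sub_apply, hg, LinearMap.add_apply, hx, Module.algebraMap_end_apply,
        add_sub_cancel_right]
    rw [h1]
    apply ih
    have h2 : n (s x) = s (n x) := LinearMap.congr_fun hns.eq x
    rw [← h2, hx, map_smul]

/-- `g ^ N - l ^ N` is a multiple of `g - l`. -/
lemma Bal_pow {K V : Type} [Field K] [AddCommGroup V] [Module K V] (g : Module.End K V) (l : K)
    (N d : ℕ) (x : V) (h : ((g - algebraMap K (Module.End K V) l) ^ d) x = 0) :
    ((g ^ N - algebraMap K (Module.End K V) (l ^ N)) ^ d) x = 0 := by
  obtain ⟨q, hq⟩ := sub_dvd_pow_sub_pow (Polynomial.X : Polynomial K) (Polynomial.C l) N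
  have h2 : (Polynomial.X ^ N - Polynomial.C l ^ N) ^ d =
      q ^ d * (Polynomial.X - Polynomial.C l) ^ d := by
    rw [hq, mul_pow, mul_comm]
  have h3 : (g ^ N - algebraMap K (Module.End K V) (l ^ N)) ^ d =
      Polynomial.aeval g (q ^ d) * (g - algebraMap K (Module.End K V) l) ^ d := by
    have h4 := congrArg (Polynomial.aeval g) h2
    simpa only [map_mul, map_pow, map_sub, Polynomial.aeval_X, Polynomial.aeval_C] using h4
  rw [h3, Module.End.mul_apply, h, map_zero]

/-- An invariant form vanishes on generalized eigenvectors if the product of the eigenvalues is not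
one. -/
lemma Bal_main {K V : Type} [Field K] [AddCommGroup V] [Module K V] {k : ℕ} (h : Module.End K V)
    (a : Fin k → K) (ha : ∏ i, a i ≠ 1) (f : Mf K V k) (hf : ∀ v, f (fun i => h (v i)) = f v)
    (D : ℕ) : ∀ (v : Fin k → V) (d : Fin k → ℕ), ∑ i, d i = D →
      (∀ i, ((h - algebraMap K (Module.End K V) (a i)) ^ d i) (v i) = 0) → f v = 0 := by
  classical
  induction D using Nat.strong_induction_on with
  | _ D ih =>
    intro v d hD hd
    by_cases h0 : ∃ i, d i = 0
    · obtain ⟨i, hi⟩ := h0
      have h1 := hd i
      rw [hi, pow_zero] at h1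
      exact f.map_coord_zero i h1
    · push Not at h0
      have h1 : f v = ∑ S : Finset (Fin k), f (S.piecewise
          (fun i => (h - algebraMap K (Module.End K V) (a i)) (v i)) fun i => a i • v i) := by
        rw [← MultilinearMap.map_add_univ, ← hf v]
        congr 1
        funext i
        rw [Pi.add_apply, LinearMap.sub_apply, Module.algebraMap_end_apply, sub_add_cancel]
      rw [Fintype.sum_eq_single (∅ : Finset (Fin k))] at h1
      · rw [Finset.piecewise_empty, MultilinearMap.map_smul_univ, smul_eq_mul] at h1
        have h2 : (1 - ∏ i, a i) * f v = 0 := by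
          linear_combination h1
        rcases mul_eq_zero.1 h2 with h3 | h3
        · exact absurd (sub_eq_zero.1 h3).symm ha
        · exact h3
      · intro S hS
        refine ih (∑ i, if i ∈ S then d i - 1 else d i) ?_ _
          (fun i => if i ∈ S then d i - 1 else d i) rfl ?_
        · rw [← hD]
          obtain ⟨j, hj⟩ := Finset.nonempty_iff_ne_empty.2 hS
          refine Finset.sum_lt_sum (fun i _ => ?_) ⟨j, Finset.mem_univ j, ?_⟩
          · split_ifs <;> omega
          · rw [if_pos hj]
            have := h0 j
            omega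
        · intro i
          by_cases hi : i ∈ S
          · rw [Finset.piecewise_eq_of_mem _ _ _ hi]
            rw [if_pos hi, ← Module.End.mul_apply, ← pow_succ,
              Nat.sub_add_cancel (Nat.one_le_iff_ne_zero.2 (h0 i))]
            exact hd i
          · rw [Finset.piecewise_eq_of_notMem _ _ _ hi]
            rw [if_neg hi, map_smul, hd i, smul_zero]

theorem balancedO {K V : Type} [Field K] [AddCommGroup V] [Module K V] [FiniteDimensional K V]
    {k : ℕ} (g n s : Module.End K V) (hg : g = n + s) (hn : IsNilpotent n) (hns : Commute n s)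
    {I : Type} [Fintype I] (e : Basis I K V) (lam : I → K) (hs : ∀ v, s (e v) = lam v • e v)
    (N : ℕ) (f : Mf K V k) (hf : ∀ v, f (fun i => (g ^ N) (v i)) = f v) (w : Fin k → I)
    (hw : f (fun i => e (w i)) ≠ 0) : (∏ i, lam (w i)) ^ N = 1 := by
  by_contra hne
  obtain ⟨m, hm⟩ := hn
  refine hw (Bal_main (g ^ N) (fun i => lam (w i) ^ N) ?_ f hf (∑ _i : Fin k, m) _ (fun _ => m)
    rfl ?_)
  · rw [Finset.prod_pow]
    exact hne
  · intro i
    apply Bal_pow
    rw [Bal_nil g n s hg hns (lam (w i)) m _ (hs (w i)), hm]
    rfl

end Pool.Agent.Lib.MP_640417_ag.Orth
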