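import Pool.Agent.Lib.MP_640417_ag.Orth.Defs
import Pool.Agent.Lib.MP_640417_ag.Frob.BaseRep
import Pool.Agent.Lib.MP_640417_ag.Four.Span

/-!
# Extension of a symmetric form and of the commutant
-/

set_option autoImplicit false

namespace Pool.Agent.Lib.MP_640417_ag.Orth

open Module TensorProduct Pool.Agent.Lib.MP_640417_ag.Frob Pool.Agent.Lib.MP_640417_ag.Four

variable {F V : Type} [Field F] [AddCommGroup V] [Module F V] [FiniteDimensional F V]

omit [FiniteDimensional F V] in
theorem symm_baseChange (K : Type) [Field K] [Algebra F K] (form : LinearMap.BilinForm F V)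
    (hsymm : ∀ x y, form x y = form y x) (x y : K ⊗[F] V) :
    form.baseChange K x y = form.baseChange K y x := by
  induction x using TensorProduct.induction_on with
  | zero => simp
  | add x₁ x₂ h1 h2 => simp only [map_add, LinearMap.add_apply, h1, h2]
  | tmul a v =>
    induction y using TensorProduct.induction_on with
    | zero => simp
    | add y₁ y₂ h1 h2 => simp only [map_add, LinearMap.add_apply, h1, h2]
    | tmul b w =>
      rw [LinearMap.BilinForm.baseChange_tmul, LinearMap.BilinForm.baseChange_tmul, hsymm v w,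
        mul_comm b a]

theorem nondeg_baseChangeO (K : Type) [Field K] [Algebra F K] (form : LinearMap.BilinForm F V)
    (hsymm : ∀ x y, form x y = form y x) (hnd : ∀ x, (∀ y, form x y = 0) → x = 0) (x : K ⊗[F] V)
    (hx : ∀ y, form.baseChange K x y = 0) : x = 0 := by
  classical
  have hinj : Function.Injective (form : V →ₗ[F] Module.Dual F V) := by
    rw [← LinearMap.ker_eq_bot, LinearMap.ker_eq_bot']
    intro v hv
    exact hnd v fun y => by rw [hv]; rfl
  have hsurj : Function.Surjective (form : V →ₗ[F] Module.Dual F V) :=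
    (LinearMap.injective_iff_surjective_of_finrank_eq_finrank
      (Subspace.dual_finrank_eq (K := F) (V := V)).symm).mp hinj
  let e := Module.finBasis F V
  have h1 : ∀ j, ∃ g : V, ∀ v, form v g = e.coord j v := by
    intro j
    obtain ⟨g, hg⟩ := hsurj (e.coord j)
    refine ⟨g, fun v => ?_⟩
    rw [hsymm, hg]
  choose g hg using h1
  apply (e.baseChange K).ext_elem
  intro j
  rw [map_zero, Finsupp.zero_apply]
  have h2 := hx ((1 : K) ⊗ₜ[F] g j)
  rw [← (e.baseChange K).sum_repr x, map_sum, LinearMap.sum_apply] at h2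
  have h3 : ∀ v, form.baseChange K ((e.baseChange K).repr x v • (e.baseChange K) v)
      ((1 : K) ⊗ₜ[F] g j) = if v = j then (e.baseChange K).repr x v else 0 := by
    intro v
    rw [map_smul, LinearMap.smul_apply, Basis.baseChange_apply,
      LinearMap.BilinForm.baseChange_tmul, hg, Basis.coord_apply, Basis.repr_self,
      Finsupp.single_apply]
    by_cases h : v = j
    · rw [if_pos h, if_pos h]; simp
    · rw [if_neg h, if_neg h]; simp
  rw [Finset.sum_congr rfl (fun v _ => h3 v), Finset.sum_ite_eq' Finset.univ j] at h2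
  simpa using h2

/-- A scalar commutant stays scalar. -/
theorem scalar_baseChange (K : Type) [Field K] [Algebra F K] {Γ : Type} (T : Γ → Module.End F V)
    (S : Set Γ) (hsc : ∀ c : Module.End F V, (∀ γ ∈ S, c * T γ = T γ * c) →
      ∃ r : F, c = r • (1 : Module.End F V)) (c : Module.End K (K ⊗[F] V))
    (hc : ∀ γ ∈ S, c * (T γ).baseChange K = (T γ).baseChange K * c) :
    ∃ r : K, c = r • (1 : Module.End K (K ⊗[F] V)) := by
  classical
  let b := Module.Free.chooseBasis F K
  obtain ⟨τ, hτ⟩ := sum_cp b c
  have h1 : ∀ t, ∃ r : F, cp (b.coord t) c = r • (1 : Module.End F V) := by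
    intro t
    apply hsc
    intro γ hγ
    rw [← cp_mul_baseChange, ← cp_baseChange_mul]
    congr 1
    exact hc γ hγ
  choose r hr using h1
  refine ⟨∑ t ∈ τ, b t * algebraMap F K (r t), ?_⟩
  rw [hτ, Finset.sum_smul]
  refine Finset.sum_congr rfl fun t _ => ?_
  rw [hr t, mul_smul, LinearMap.baseChange_smul]
  congr 1
  rw [algebraMap_smul]
  congr 1
  rw [Module.End.one_eq_id, LinearMap.baseChange_id]
  rfl

end Pool.Agent.Lib.MP_640417_ag.Orth
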