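import Pool.Agent.Lib.MP_640417_ag.Orth.DefsA
import Pool.Agent.Lib.MP_640417_ag.Orth.Bc

/-!
# MP_640417_ag, Orth, module BcA (130 lines): descent of products of pairings and determinants

Let `bF = finBasis F V`, `bK = bF.baseChange K` (reindexed to `Fin (finrank K (K ⊗ V))`, `Module.finrank_baseChange`). Every generator of `Prods (form.baseChange K) k` is a
`K`-multiple of a multilinear form `g` for which there is a generator `h` of `Prods form k` with `g (1 ⊗ v) = algebraMap (h v)` for all `v` (for a pairing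
product: the product of the pairings over `F` is multilinear: e.g. by `prods`-like constructions, `MultilinearMap.mkPiAlgebra` composed, or: the function
`v ↦ g (1 ⊗ v)` takes values in `F`: compose with an `F`-linear retraction `ℓ : K → F`, `ℓ 1 = 1`; for determinants: `b.det = c • bK.det` (`AlternatingMap.eq_smul_basis_det`,
`Basis.det` of `1 ⊗ v` in `bK` is `algebraMap (bF.det v)`)).
Let `ℓ : K → F` be `F`-linear, `ℓ 1 = 1` (`LinearMap.exists_leftInverse_of_injective`). Show by span induction: for every `g ∈ Prods (form.baseChange K) k` and every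
`c : K` there is `h ∈ Prods form k` with `h v = ℓ (c * g (1 ⊗ v))` for all `v`. For `g` with `g (1 ⊗ v) = algebraMap (f v)` and `c = 1` this gives `h = f`.
-/

set_option autoImplicit false

namespace Pool.Agent.Lib.MP_640417_ag.Orth

open Module TensorProduct

variable {F V : Type} [Field F] [AddCommGroup V] [Module F V] [FiniteDimensional F V]
  (K : Type) [Field K] [Algebra F K] {k : ℕ}

/-- The restriction of a form on `K ⊗ V` to `V`. -/
private noncomputable def rsA (g : Mf K (K ⊗[F] V) k) : MultilinearMap F (fun _ : Fin k => V) K :=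
  (g.restrictScalars F).compLinearMap (fun _ => TensorProduct.mk F K V 1)

omit [FiniteDimensional F V] in
private lemma rsA_apply (g : Mf K (K ⊗[F] V) k) (v : Fin k → V) :
    rsA K g v = g (fun i => (1 : K) ⊗ₜ[F] v i) := rfl

omit [FiniteDimensional F V] in
private lemma l_algebraMap {ℓ : K →ₗ[F] F} (hℓ : ℓ 1 = 1) (c : K) (x : F) :
    ℓ (c * algebraMap F K x) = ℓ c * x := by
  rw [mul_comm, ← Algebra.smul_def, map_smul, smul_eq_mul, mul_comm]

omit [FiniteDimensional F V] in
private lemma form_bc (form : LinearMap.BilinForm F V) (x y : V) :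
    form.baseChange K ((1 : K) ⊗ₜ[F] x) ((1 : K) ⊗ₜ[F] y) = algebraMap F K (form x y) := by
  rw [LinearMap.BilinForm.baseChange_tmul, mul_one, Algebra.smul_def, mul_one]

omit [FiniteDimensional F V] in
private lemma det_bc {I : Type} [Fintype I] [DecidableEq I] (b : Basis I F V) (v : I → V) :
    (Algebra.TensorProduct.basis K b).det (fun a => (1 : K) ⊗ₜ[F] v a) =
      algebraMap F K (b.det v) := by
  rw [Basis.det_apply, Basis.det_apply, RingHom.map_det]
  congr 1
  ext i j
  rw [Basis.toMatrix_apply, RingHom.mapMatrix_apply, Matrix.map_apply, Basis.toMatrix_apply,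
    Algebra.TensorProduct.basis_repr_tmul, one_smul, Finsupp.mapRange_apply]

private lemma det_aux (form : LinearMap.BilinForm F V) {ℓ : K →ₗ[F] F} (hℓ : ℓ 1 = 1) (N : ℕ)
    (hN : N = finrank F V) (b : Basis (Fin N) K (K ⊗[F] V)) (m : ℕ)
    (e : Fin N ⊕ (Fin m ⊕ Fin m) ≃ Fin k) (g : Mf K (K ⊗[F] V) k)
    (hg : ∀ v, g v = b.det (fun a => v (e (Sum.inl a))) *
      ∏ a, form.baseChange K (v (e (Sum.inr (Sum.inl a)))) (v (e (Sum.inr (Sum.inr a))))) :
    ∃ (u : K) (f : Mf F V k), IsPairingDet form f ∧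
      ∀ v : Fin k → V, g (fun i => (1 : K) ⊗ₜ[F] v i) = u * algebraMap F K (f v) := by
  subst hN
  set bF := Module.finBasis F V with hbF
  set bK := Algebra.TensorProduct.basis K bF with hbK
  have hu : b.det bK ≠ 0 := (b.isUnit_det bK).ne_zero
  have h1 : ∀ v : Fin k → V, g (fun i => (1 : K) ⊗ₜ[F] v i) = b.det bK * algebraMap F K
      (bF.det (fun a => v (e (Sum.inl a))) *
        ∏ a, form (v (e (Sum.inr (Sum.inl a)))) (v (e (Sum.inr (Sum.inr a))))) := by
    intro v
    have h2 := AlternatingMap.congr_fun (AlternatingMap.eq_smul_basis_det bK b.det)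
      (fun a => (1 : K) ⊗ₜ[F] v (e (Sum.inl a)))
    rw [AlternatingMap.smul_apply, smul_eq_mul, det_bc] at h2
    rw [hg, h2, map_mul, map_prod, mul_assoc]
    congr 2
    exact Finset.prod_congr rfl fun a _ => form_bc K form _ _
  refine ⟨b.det bK, ℓ.compMultilinearMap ((b.det bK)⁻¹ • rsA K g), ⟨bF, m, e, fun v => ?_⟩,
    fun v => ?_⟩
  · rw [LinearMap.compMultilinearMap_apply, MultilinearMap.smul_apply, rsA_apply, h1, smul_eq_mul,
      inv_mul_cancel_left₀ hu]
    have h3 := l_algebraMap K hℓ 1 (bF.det (fun a => v (e (Sum.inl a))) *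
        ∏ a, form (v (e (Sum.inr (Sum.inl a)))) (v (e (Sum.inr (Sum.inr a)))))
    rwa [one_mul, hℓ, one_mul] at h3
  · rw [LinearMap.compMultilinearMap_apply, MultilinearMap.smul_apply, rsA_apply, h1, smul_eq_mul,
      inv_mul_cancel_left₀ hu]
    have h3 := l_algebraMap K hℓ 1 (bF.det (fun a => v (e (Sum.inl a))) *
        ∏ a, form (v (e (Sum.inr (Sum.inl a)))) (v (e (Sum.inr (Sum.inr a)))))
    rw [one_mul, hℓ, one_mul] at h3
    rw [h3]

omit [FiniteDimensional F V] in
private lemma pair_aux (form : LinearMap.BilinForm F V) {ℓ : K →ₗ[F] F} (hℓ : ℓ 1 = 1)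
    (g : Mf K (K ⊗[F] V) k) (hg : IsPairing (form.baseChange K) g) :
    ∃ (u : K) (f : Mf F V k), IsPairing form f ∧
      ∀ v : Fin k → V, g (fun i => (1 : K) ⊗ₜ[F] v i) = u * algebraMap F K (f v) := by
  obtain ⟨m, e, hg⟩ := hg
  have h1 : ∀ v : Fin k → V, g (fun i => (1 : K) ⊗ₜ[F] v i) = algebraMap F K
      (∏ a, form (v (e (Sum.inl a))) (v (e (Sum.inr a)))) := by
    intro v
    rw [hg, map_prod]
    exact Finset.prod_congr rfl fun a _ => form_bc K form _ _
  refine ⟨1, ℓ.compMultilinearMap (rsA K g), ⟨m, e, fun v => ?_⟩, fun v => ?_⟩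
  · rw [LinearMap.compMultilinearMap_apply, rsA_apply, h1]
    have h3 := l_algebraMap K hℓ 1 (∏ a, form (v (e (Sum.inl a))) (v (e (Sum.inr a))))
    rwa [one_mul, hℓ, one_mul] at h3
  · rw [LinearMap.compMultilinearMap_apply, rsA_apply, h1, one_mul]
    have h3 := l_algebraMap K hℓ 1 (∏ a, form (v (e (Sum.inl a))) (v (e (Sum.inr a))))
    rw [one_mul, hℓ, one_mul] at h3
    rw [h3]

private theorem descent_aux (form : LinearMap.BilinForm F V) {ℓ : K →ₗ[F] F} (hℓ : ℓ 1 = 1)
    {g : Mf K (K ⊗[F] V) k} (h : g ∈ Prods (form.baseChange K) k) :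
    ∀ c : K, ∃ m ∈ Prods form k, ∀ v : Fin k → V,
      m v = ℓ (c * g (fun i => (1 : K) ⊗ₜ[F] v i)) := by
  induction h using Submodule.span_induction with
  | mem g hg =>
    intro c
    obtain ⟨u, f, hf, hv⟩ : ∃ (u : K) (f : Mf F V k), (IsPairing form f ∨ IsPairingDet form f) ∧
        ∀ v : Fin k → V, g (fun i => (1 : K) ⊗ₜ[F] v i) = u * algebraMap F K (f v) := by
      rcases hg with hg | ⟨b, m, e, hg⟩
      · obtain ⟨u, f, hf, hv⟩ := pair_aux K form hℓ g hg
        exact ⟨u, f, Or.inl hf, hv⟩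
      · obtain ⟨u, f, hf, hv⟩ := det_aux K form hℓ _ Module.finrank_baseChange b m e g hg
        exact ⟨u, f, Or.inr hf, hv⟩
    refine ⟨ℓ (c * u) • f, Submodule.smul_mem _ _ (Submodule.subset_span hf), fun v => ?_⟩
    rw [MultilinearMap.smul_apply, hv, ← mul_assoc, l_algebraMap K hℓ, smul_eq_mul]
  | zero =>
    intro c
    exact ⟨0, Submodule.zero_mem _, fun v => by simp⟩
  | add g g' _ _ hg hg' =>
    intro c
    obtain ⟨m, hm, hmv⟩ := hg c
    obtain ⟨m', hm', hmv'⟩ := hg' c
    refine ⟨m + m', Submodule.add_mem _ hm hm', fun v => ?_⟩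
    rw [MultilinearMap.add_apply, MultilinearMap.add_apply, hmv, hmv', mul_add, map_add]
  | smul a g _ hg =>
    intro c
    obtain ⟨m, hm, hmv⟩ := hg (c * a)
    refine ⟨m, hm, fun v => ?_⟩
    rw [hmv, MultilinearMap.smul_apply, smul_eq_mul, mul_assoc]

theorem prods_descent (form : LinearMap.BilinForm F V) (f : Mf F V k) (g : Mf K (K ⊗[F] V) k)
    (hg : ∀ v : Fin k → V, g (fun i => (1 : K) ⊗ₜ[F] v i) = algebraMap F K (f v))
    (h : g ∈ Prods (form.baseChange K) k) : f ∈ Prods form k := by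
  obtain ⟨ℓ, hℓ⟩ := LinearMap.exists_leftInverse_of_injective (Algebra.linearMap F K)
    (LinearMap.ker_eq_bot.2 (algebraMap F K).injective)
  have hℓ1 : ℓ 1 = 1 := by
    have := DFunLike.congr_fun hℓ 1
    simpa using this
  obtain ⟨m, hm, hmv⟩ := descent_aux K form hℓ1 h 1
  have : f = m := by
    refine MultilinearMap.ext fun v => ?_
    rw [hmv, hg, one_mul]
    have h2 := DFunLike.congr_fun hℓ (f v)
    exact h2.symm
  rw [this]
  exact hm

end Pool.Agent.Lib.MP_640417_ag.Orth
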