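import Pool.Agent.Lib.MP_640417_ag.Orth.Aa
import Pool.Agent.Lib.MP_640417_ag.Orth.Ml

/-!
# MP_640417_ag, Orth, module Ctr (200 lines): contractions of multilinear forms

`b` is a basis of `V`, `b'` the dual basis (`form (b' s) (b t) = δ`; e.g. `LinearMap.BilinForm.dualBasis`, needs `form.Nondegenerate`).
`ctr b b' j f (v) = ∑ s, f (b' s at 0, b s at j + 1, v elsewhere)`, a multilinear form in the other `k` variables.
Suggested definition of `ins j x y v : Fin (k + 2) → V`: `Fin.cons x (Fin.insertNth j y v)`, `j : Fin (k + 1)`, `v : Fin k → V`. This is multilinear in `v`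
(for the definition use `MultilinearMap.domDomCongr`/`curry`-free approach: define `ctr` as a `MultilinearMap` by proving
`map_update_add'`, `map_update_smul'` via `Fin.insertNth` and `Fin.cons` update lemmas, or as `∑ s, f'.` with
`(f.curryLeft (b' s))` and `MultilinearMap.curryMid`, whichever is shorter).
* `Dm_ctr`: `Dm M (ctr f) = 0` if `Dm M f = 0` and `M` is skew: `0 = ∑ s, (Dm M f)(ins j (b' s) (b s) v)` is the sum of the terms where `M` acts on the
  variables of `v`, which is `Dm M (ctr f) v`, and of `∑ s, f (ins j (M b' s) (b s) v) + f (ins j (b' s) (M b s) v)`, which is `0`: expand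
  `M b' s = ∑ t, form (M b' s) (b t) b' t` and `M b s = ∑ t, form (b' t) (M b s) b t` (dual bases) and use skewness.
* `ctr_identity`: put `aa form (b s) y` in `Dm` and evaluate at `(b' s, v₂, …)`, sum over `s`, see the statement. Details: with
  `v = Fin.cons y u`, `u : Fin (k+1) → V` and `N = finrank`:
  `0 = ∑ s, Dm (aa form (b s) y) f (Fin.cons (b' s) u)
     = ∑ s, [form (b' s) (b s) f(cons y u) - form (b' s) y f(cons (b s) u)]
       + ∑ j ∑ s, [form (u j) (b s) f(cons (b' s) (update u j y)) - form (u j) y f(cons (b' s) (update u j (b s)))]`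
  and `∑ s, form (b' s) (b s) = N`, `∑ s, form (b' s) y • b s = y`, `∑ s, form (u j) (b s) • b' s = u j`.
-/

set_option autoImplicit false

namespace Pool.Agent.Lib.MP_640417_ag.Orth

open Module Pool.Agent.Lib.MP_640417_ag.Four

variable {K V : Type} [Field K] [AddCommGroup V] [Module K V] [FiniteDimensional K V]

/-- The contraction of the variables `0` and `j + 1`, as a relation: `g` is the contraction of `f`. -/
def IsCtr (form : LinearMap.BilinForm K V) {k : ℕ} (j : Fin (k + 1)) (f : Mf K V (k + 2))
    (g : Mf K V k) : Prop :=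
  ∀ (I : Type) [Fintype I] [DecidableEq I] (b b' : Basis I K V),
    (∀ s t, form (b' s) (b t) = if s = t then 1 else 0) → ∀ v : Fin k → V,
    g v = ∑ s, f (Fin.cons (b' s) (j.insertNth (b s) v))

/-! ### Dual bases -/

private lemma exp_left {form : LinearMap.BilinForm K V} {I : Type} [Fintype I] [DecidableEq I]
    (b b' : Basis I K V) (hb : ∀ s t, form (b' s) (b t) = if s = t then 1 else 0) (y : V) :
    ∑ s, form (b' s) y • b s = y := by
  conv_rhs => rw [← b.sum_repr y]
  refine Finset.sum_congr rfl fun s _ => ?_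
  congr 1
  conv_lhs => rw [← b.sum_repr y]
  rw [map_sum]
  simp [hb]

private lemma exp_right {form : LinearMap.BilinForm K V} {I : Type} [Fintype I] [DecidableEq I]
    (b b' : Basis I K V) (hb : ∀ s t, form (b' s) (b t) = if s = t then 1 else 0) (x : V) :
    ∑ s, form x (b s) • b' s = x := by
  conv_rhs => rw [← b'.sum_repr x]
  refine Finset.sum_congr rfl fun s _ => ?_
  congr 1
  conv_lhs => rw [← b'.sum_repr x]
  rw [map_sum, LinearMap.sum_apply]
  simp [hb]

private lemma exists_dual (form : LinearMap.BilinForm K V)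
    (hsymm : ∀ x y, form x y = form y x) (hnd : ∀ x, (∀ y, form x y = 0) → x = 0) :
    ∃ b b' : Basis (Fin (finrank K V)) K V,
      ∀ s t, form (b' s) (b t) = if s = t then 1 else 0 := by
  have hB : form.Nondegenerate := ⟨hnd, fun y h => hnd y fun x => by rw [hsymm]; exact h x⟩
  refine ⟨finBasis K V, form.dualBasis hB (finBasis K V), fun s t => ?_⟩
  rw [LinearMap.BilinForm.apply_dualBasis_left]
  by_cases h : s = t
  · subst h; simp
  · rw [if_neg h, if_neg (fun h' => h h'.symm)]

/-- The form with two variables filled in, as a bilinear map. -/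
private noncomputable def two {k : ℕ} (j : Fin (k + 1)) (f : Mf K V (k + 2)) (v : Fin k → V) :
    V →ₗ[K] V →ₗ[K] K :=
  LinearMap.mk₂ K (fun x y => f (Fin.cons x (j.insertNth y v)))
    (fun x x' y => MultilinearMap.cons_add f _ x x')
    (fun c x y => MultilinearMap.cons_smul f _ c x)
    (fun x y y' => by
      have h := MultilinearMap.map_insertNth_add (f.curryLeft x) j v y y'
      exact h)
    (fun c x y => by
      have h := MultilinearMap.map_insertNth_smul (f.curryLeft x) j v c y
      exact h)

private lemma two_apply {k : ℕ} (j : Fin (k + 1)) (f : Mf K V (k + 2)) (v : Fin k → V) (x y : V) :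
    two j f v x y = f (Fin.cons x (j.insertNth y v)) := rfl

/-- The contraction does not depend on the dual bases. -/
private lemma sum_dual {form : LinearMap.BilinForm K V} (φ : V →ₗ[K] V →ₗ[K] K)
    {I : Type} [Fintype I] [DecidableEq I] (b b' : Basis I K V)
    (hb : ∀ s t, form (b' s) (b t) = if s = t then 1 else 0)
    {J : Type} [Fintype J] [DecidableEq J] (c c' : Basis J K V)
    (hc : ∀ s t, form (c' s) (c t) = if s = t then 1 else 0) :
    ∑ s, φ (b' s) (b s) = ∑ t, φ (c' t) (c t) := by
  have h1 : ∀ s, φ (b' s) (b s) = ∑ t, form (b' s) (c t) • φ (c' t) (b s) := by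
    intro s
    conv_lhs => rw [← exp_right c c' hc (b' s)]
    rw [map_sum, LinearMap.sum_apply]
    refine Finset.sum_congr rfl fun t _ => ?_
    rw [map_smul, LinearMap.smul_apply]
  rw [Finset.sum_congr rfl fun s _ => h1 s, Finset.sum_comm]
  refine Finset.sum_congr rfl fun t _ => ?_
  conv_rhs => rw [← exp_left b b' hb (c t)]
  rw [map_sum]
  exact Finset.sum_congr rfl fun s _ => (map_smul _ _ _).symm

/-- The contraction for fixed bases. -/
private noncomputable def ctr {I : Type} [Fintype I] (b b' : Basis I K V) {k : ℕ} (j : Fin (k + 1))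
    (f : Mf K V (k + 2)) : Mf K V k :=
  ∑ s, (MultilinearMap.curryMid j (f.curryLeft (b' s)) (b s) : Mf K V k)

private lemma ctr_apply {I : Type} [Fintype I] (b b' : Basis I K V) {k : ℕ} (j : Fin (k + 1))
    (f : Mf K V (k + 2)) (v : Fin k → V) :
    ctr b b' j f v = ∑ s, f (Fin.cons (b' s) (j.insertNth (b s) v)) := by
  unfold ctr
  rw [MultilinearMap.sum_apply]
  rfl

/-- The derivative on a filled vector. -/
private lemma Dm_fill {k : ℕ} (j : Fin (k + 1)) (M : Module.End K V) (f : Mf K V (k + 2))
    (x y : V) (v : Fin k → V) :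
    Dm M f (Fin.cons x (j.insertNth y v)) = f (Fin.cons (M x) (j.insertNth y v)) +
      (f (Fin.cons x (j.insertNth (M y) v)) +
        ∑ i : Fin k, f (Fin.cons x (j.insertNth y (Function.update v i (M (v i)))))) := by
  rw [Dm_apply, Fin.sum_univ_succ, Fin.sum_univ_succAbove _ j]
  congr 1
  · rw [Fin.update_cons_zero, Fin.cons_zero]
  congr 1
  · rw [← Fin.cons_update, Fin.cons_succ, Fin.insertNth_apply_same, Fin.update_insertNth]
  · refine Finset.sum_congr rfl fun i _ => ?_
    rw [← Fin.cons_update, Fin.cons_succ, Fin.insertNth_apply_succAbove, Fin.insertNth_update]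

theorem exists_ctr (form : LinearMap.BilinForm K V) (hsymm : ∀ x y, form x y = form y x)
    (hnd : ∀ x, (∀ y, form x y = 0) → x = 0) {k : ℕ} (j : Fin (k + 1)) (f : Mf K V (k + 2))
    (hf : ∀ x y, Dm (aa form x y) f = 0) :
    ∃ g : Mf K V k, IsCtr form j f g ∧ ∀ x y, Dm (aa form x y) g = 0 := by
  obtain ⟨c, c', hc⟩ := exists_dual form hsymm hnd
  refine ⟨ctr c c' j f, ?_, ?_⟩
  · intro I _ _ b b' hb v
    rw [ctr_apply]
    exact sum_dual (two j f v) c c' hc b b' hb
  · intro x y
    set M := aa form x y with hM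
    have hskew : ∀ u w, form (M u) w = - form u (M w) := fun u w =>
      eq_neg_of_add_eq_zero_left (aa_skew hsymm x y u w)
    ext v
    rw [MultilinearMap.zero_apply, Dm_apply]
    have h0 : ∀ s, f (Fin.cons (M (c' s)) (j.insertNth (c s) v)) +
        (f (Fin.cons (c' s) (j.insertNth (M (c s)) v)) +
        ∑ i : Fin k, f (Fin.cons (c' s) (j.insertNth (c s) (Function.update v i (M (v i)))))) = 0 := by
      intro s
      rw [← Dm_fill, hM, hf x y, MultilinearMap.zero_apply]
    have h1 : ∑ s, (f (Fin.cons (M (c' s)) (j.insertNth (c s) v)) +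
        (f (Fin.cons (c' s) (j.insertNth (M (c s)) v)) +
        ∑ i : Fin k, f (Fin.cons (c' s) (j.insertNth (c s) (Function.update v i (M (v i))))))) = 0 :=
      Finset.sum_eq_zero fun s _ => h0 s
    rw [Finset.sum_add_distrib, Finset.sum_add_distrib, Finset.sum_comm] at h1
    have h2 : ∑ i : Fin k, ctr c c' j f (Function.update v i (M (v i))) =
        ∑ i : Fin k, ∑ s, f (Fin.cons (c' s) (j.insertNth (c s) (Function.update v i (M (v i))))) :=
      Finset.sum_congr rfl fun i _ => ctr_apply _ _ _ _ _
    rw [h2]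
    have h3 : ∑ s, f (Fin.cons (M (c' s)) (j.insertNth (c s) v)) +
        ∑ s, f (Fin.cons (c' s) (j.insertNth (M (c s)) v)) = 0 := by
      have h4 : ∑ s, two j f v (M (c' s)) (c s) = ∑ s, ∑ t, form (M (c' s)) (c t) • two j f v (c' t) (c s) := by
        refine Finset.sum_congr rfl fun s _ => ?_
        conv_lhs => rw [← exp_right c c' hc (M (c' s))]
        rw [map_sum, LinearMap.sum_apply]
        refine Finset.sum_congr rfl fun t _ => ?_
        rw [map_smul, LinearMap.smul_apply]
      have h5 : ∑ s, two j f v (c' s) (M (c s)) = ∑ s, ∑ t, form (c' t) (M (c s)) • two j f v (c' s) (c t) := by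
        refine Finset.sum_congr rfl fun s _ => ?_
        conv_lhs => rw [← exp_left c c' hc (M (c s))]
        rw [map_sum]
        exact Finset.sum_congr rfl fun t _ => map_smul _ _ _
      have h6 : ∑ s, two j f v (M (c' s)) (c s) + ∑ s, two j f v (c' s) (M (c s)) = 0 := by
        rw [h4, h5, Finset.sum_comm, ← Finset.sum_add_distrib]
        refine Finset.sum_eq_zero fun s _ => ?_
        rw [← Finset.sum_add_distrib]
        refine Finset.sum_eq_zero fun t _ => ?_
        rw [hskew, neg_smul, neg_add_cancel]
      exact h6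
    rw [← add_assoc, h3, zero_add] at h1
    exact h1

/-- The basic identity. -/
theorem ctr_identity (form : LinearMap.BilinForm K V) (hsymm : ∀ x y, form x y = form y x)
    (hnd : ∀ x, (∀ y, form x y = 0) → x = 0) {k : ℕ} (f : Mf K V (k + 2))
    (hf : ∀ x y, Dm (aa form x y) f = 0) (g : Fin (k + 1) → Mf K V k)
    (hg : ∀ j, IsCtr form j f (g j)) (v : Fin (k + 2) → V) :
    ((finrank K V : K) - 1) * f v + ∑ j : Fin (k + 1), f (v ∘ Equiv.swap 0 j.succ) =
      ∑ j : Fin (k + 1), form (v 0) (v j.succ) * g j (j.removeNth (Fin.tail v)) := by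
  obtain ⟨b, b', hb⟩ := exists_dual form hsymm hnd
  obtain ⟨y, u, rfl⟩ : ∃ y u, v = Fin.cons y u := ⟨v 0, Fin.tail v, (Fin.cons_self_tail v).symm⟩
  simp only [Fin.cons_zero, Fin.cons_succ, Fin.tail_cons]
  -- the linear form in the first variable
  have hlin : ∀ w : Fin (k + 1) → V, ∃ L : V →ₗ[K] K, ∀ x, L x = f (Fin.cons x w) := by
    intro w
    exact ⟨{ toFun := fun x => f (Fin.cons x w)
             map_add' := fun x x' => MultilinearMap.cons_add f _ x x'
             map_smul' := fun c x => MultilinearMap.cons_smul f _ c x }, fun x => rfl⟩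
  have h0 : ∑ s, Dm (aa form (b s) y) f (Fin.cons (b' s) u) = 0 :=
    Finset.sum_eq_zero fun s _ => by rw [hf, MultilinearMap.zero_apply]
  have h1 : ∀ s, Dm (aa form (b s) y) f (Fin.cons (b' s) u) =
      (f (Fin.cons y u) - form (b' s) y * f (Fin.cons (b s) u)) +
      ∑ j : Fin (k + 1), (form (u j) (b s) * f (Fin.cons (b' s) (Function.update u j y)) -
        form (u j) y * f (Fin.cons (b' s) (Function.update u j (b s)))) := by
    intro s
    rw [Dm_apply, Fin.sum_univ_succ]
    congr 1
    · rw [Fin.update_cons_zero, Fin.cons_zero, aa_apply, hb, if_pos rfl, one_smul]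
      obtain ⟨L, hL⟩ := hlin u
      rw [← hL, map_sub, map_smul, hL, hL, smul_eq_mul]
    · refine Finset.sum_congr rfl fun j _ => ?_
      rw [← Fin.cons_update, Fin.cons_succ, aa_apply]
      have h2 := MultilinearMap.map_update_sub (f.curryLeft (b' s)) u j (form (u j) (b s) • y)
        (form (u j) y • b s)
      rw [MultilinearMap.map_update_smul, MultilinearMap.map_update_smul, smul_eq_mul,
        smul_eq_mul] at h2
      exact h2
  rw [Finset.sum_congr rfl fun s _ => h1 s, Finset.sum_add_distrib, Finset.sum_sub_distrib,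
    Finset.sum_comm] at h0
  have h3 : ∑ s : Fin (finrank K V), form (b' s) y * f (Fin.cons (b s) u) = f (Fin.cons y u) := by
    obtain ⟨L, hL⟩ := hlin u
    rw [← hL]
    conv_rhs => rw [← exp_left b b' hb y]
    rw [map_sum]
    refine Finset.sum_congr rfl fun s _ => ?_
    rw [map_smul, hL, smul_eq_mul]
  have h4 : ∀ j : Fin (k + 1), ∑ s : Fin (finrank K V),
      (form (u j) (b s) * f (Fin.cons (b' s) (Function.update u j y)) -
        form (u j) y * f (Fin.cons (b' s) (Function.update u j (b s)))) =
      f ((Fin.cons y u : Fin (k + 2) → V) ∘ Equiv.swap 0 j.succ) - form y (u j) * g j (j.removeNth u) := by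
    intro j
    rw [Finset.sum_sub_distrib]
    congr 1
    · obtain ⟨L, hL⟩ := hlin (Function.update u j y)
      have h5 : ((Fin.cons y u : Fin (k + 2) → V) ∘ Equiv.swap 0 j.succ) =
          Fin.cons (u j) (Function.update u j y) := by
        funext i
        rw [Function.comp_apply]
        refine Fin.cases ?_ (fun i => ?_) i
        · rw [Equiv.swap_apply_left, Fin.cons_succ, Fin.cons_zero]
        · rw [Fin.cons_succ]
          by_cases hij : i = j
          · subst hij
            rw [Equiv.swap_apply_right, Fin.cons_zero, Function.update_self]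
          · rw [Equiv.swap_apply_of_ne_of_ne (Fin.succ_ne_zero i)
              (fun h => hij (Fin.succ_injective _ h)), Fin.cons_succ, Function.update_of_ne hij]
      rw [h5, ← hL]
      conv_rhs => rw [← exp_right b b' hb (u j)]
      rw [map_sum]
      refine Finset.sum_congr rfl fun s _ => ?_
      rw [map_smul, hL, smul_eq_mul]
    · rw [← Finset.mul_sum, hsymm, hg j (Fin (finrank K V)) b b' hb]
      congr 1
      refine Finset.sum_congr rfl fun s _ => ?_
      congr 2
      rw [Fin.insertNth_removeNth]
  rw [h3, Finset.sum_congr rfl fun j _ => h4 j, Finset.sum_sub_distrib] at h0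
  have h6 : ∑ _s : Fin (finrank K V), f (Fin.cons y u) = (finrank K V : K) * f (Fin.cons y u) := by
    rw [Finset.sum_const, Finset.card_univ, Fintype.card_fin, nsmul_eq_mul]
  rw [h6] at h0
  linear_combination h0

/-- Invariant linear forms vanish. -/
theorem inv_one (form : LinearMap.BilinForm K V) (hsymm : ∀ x y, form x y = form y x)
    (hnd : ∀ x, (∀ y, form x y = 0) → x = 0) (h1 : (finrank K V : K) ≠ 1) (f : Mf K V 1)
    (hf : ∀ x y, Dm (aa form x y) f = 0) : f = 0 := by
  obtain ⟨b, b', hb⟩ := exists_dual form hsymm hnd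
  have hlin : ∃ L : V →ₗ[K] K, ∀ v : Fin 1 → V, f v = L (v 0) := by
    refine ⟨{ toFun := fun x => f (Fin.cons x ![])
              map_add' := fun x x' => MultilinearMap.cons_add f _ x x'
              map_smul' := fun c x => MultilinearMap.cons_smul f _ c x }, fun v => ?_⟩
    change f v = f (Fin.cons (v 0) ![])
    congr 1
    funext i
    rw [Subsingleton.elim i 0, Fin.cons_zero]
  obtain ⟨L, hL⟩ := hlin
  have h2 : ∀ x y z, form z x * L y - form z y * L x = 0 := by
    intro x y z
    have h3 := congrArg (fun g : Mf K V 1 => g (fun _ => z)) (hf x y)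
    simp only [MultilinearMap.zero_apply] at h3
    rw [Dm_apply, Fin.sum_univ_one, hL, Function.update_self, aa_apply, map_sub, map_smul, map_smul,
      smul_eq_mul, smul_eq_mul] at h3
    exact h3
  have h4 : ∀ y, L y = 0 := by
    intro y
    have h5 : ∑ s : Fin (finrank K V), (form (b' s) (b s) * L y - form (b' s) y * L (b s)) = 0 :=
      Finset.sum_eq_zero fun s _ => h2 _ _ _
    rw [Finset.sum_sub_distrib] at h5
    have h6 : ∑ s : Fin (finrank K V), form (b' s) y * L (b s) = L y := by
      conv_rhs => rw [← exp_left b b' hb y]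
      rw [map_sum]
      refine Finset.sum_congr rfl fun s _ => ?_
      rw [map_smul, smul_eq_mul]
    have h7 : ∑ s : Fin (finrank K V), form (b' s) (b s) * L y = (finrank K V : K) * L y := by
      rw [Finset.sum_congr rfl fun s _ => by rw [hb, if_pos rfl, one_mul], Finset.sum_const,
        Finset.card_univ, Fintype.card_fin, nsmul_eq_mul]
    rw [h6, h7] at h5
    have h8 : ((finrank K V : K) - 1) * L y = 0 := by linear_combination h5
    exact (mul_eq_zero.1 h8).resolve_left (sub_ne_zero.2 h1)
  ext v
  rw [hL, h4, MultilinearMap.zero_apply]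

end Pool.Agent.Lib.MP_640417_ag.Orth
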