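import Pool.Agent.Lib.MP_640417_ag.Four.Spec2
import Pool.Agent.Lib.MP_640417_ag.Four.Struct
import Pool.Agent.Lib.MP_640417_ag.Four.Semi
import Pool.Agent.Lib.MP_640417_ag.Four.Open

/-!
# MP_640417_ag, Orth, module Cyc (120 lines): the block of an eigenvector is everything

`R` is normalized by `T`. Let `N = Rm R e = R e`. `pSemi` gives `p` with image `N`, identity on `N`, commuting with `R`; in particular
`p e = e`. By `hline`, every `f` commuting with `R` maps `e` to a multiple of `e` (`t (f e) = f (t e) = τ f e`), so `pOpen` gives an open subgroup `U` with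
`f (T γ e) = k T γ e` for `γ ∈ U` if `f e = k e`. With `f = p`, `k = 1`: `T γ e = p (T γ e) ∈ N`. So `T γ N = T γ R e = (T γ R T γ⁻¹) T γ e ⊆ R N ⊆ N` for `γ ∈ U`.
Let `U' ≤ U` be an open NORMAL subgroup (normal core: `U` has finite index since `Γ` is compact; the core is closed
of finite index, so open). `R' = Algebra.adjoin K (T '' U')` lies in the span of the `T γ` and is normalized by `T`; `N` is
stable under `R'`. `pSemi` for `R'` gives `p'` with image `N`, identity on `N`, commuting with `T γ`, `γ ∈ U'`. By `hscal` `p' = r`. As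
`p' e = e ≠ 0`, `r = 1` and `N = ⊤`.
-/

set_option autoImplicit false

namespace Pool.Agent.Lib.MP_640417_ag.Orth

open Module Pool.Agent.Lib.MP_640417_ag.Four

theorem cyclic_top {K V : Type} [Field K] [AddCommGroup V] [Module K V] [FiniteDimensional K V]
    {Γ : Type} [Group Γ] [TopologicalSpace Γ] [IsTopologicalGroup Γ] [CompactSpace Γ]
    (T : Γ →* Module.End K V)
    (hclosed : ∀ (f : Module.Dual K V) (x : V), IsClosed {γ : Γ | f (T γ x) = 0})
    (htr : ∀ S ∈ Submodule.span K (Set.range T), (∀ γ, LinearMap.trace K V (S * T γ) = 0) → S = 0)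
    (hscal : ∀ (U : OpenSubgroup Γ) (c : Module.End K V), (∀ γ ∈ U, c * T γ = T γ * c) →
      ∃ r : K, c = r • (1 : Module.End K V))
    (R : Subalgebra K (Module.End K V))
    (hR : Subalgebra.toSubmodule R ≤ Submodule.span K (Set.range T))
    (hRc : ∀ γ, ∀ M ∈ R, T γ * M * T γ⁻¹ ∈ R) (t : Module.End K V) (ht : t ∈ R) (τ : K) (e : V)
    (he0 : e ≠ 0) (he : t e = τ • e) (hline : ∀ y, t y = τ • y → ∃ k : K, y = k • e) :
    Rm R e = ⊤ := by
  have hinv : ∀ γ, T γ⁻¹ * T γ = 1 := fun γ => by rw [← map_mul, inv_mul_cancel, map_one]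
  have hinv' : ∀ γ, T γ * T γ⁻¹ = 1 := fun γ => by rw [← map_mul, mul_inv_cancel, map_one]
  obtain ⟨p, hp1, hp2, hp3⟩ := pSemi K V Γ T htr R hR hRc (Rm R e) (Rm_stable e)
  have hpe : p e = e := hp2 e (self_mem_Rm e)
  have hchar : ∀ f : Module.End K V, (∀ M ∈ R, f * M = M * f) → ∃ k : K, f e = k • e := by
    intro f hf
    apply hline
    have h : f (t e) = t (f e) := congrArg (fun g : Module.End K V => g e) (hf t ht)
    rw [← h, he, map_smul]
  obtain ⟨U, hU⟩ := pOpen K V Γ T hclosed R hRc e he0 hchar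
  have hpU : ∀ γ ∈ U, T γ e ∈ Rm R e := by
    intro γ hγ
    have h := hU γ hγ p hp3 1 (by rw [one_smul, hpe])
    rw [one_smul] at h
    rw [← h]
    exact hp1 _
  have hTN : ∀ γ ∈ U, ∀ y ∈ Rm R e, T γ y ∈ Rm R e := by
    intro γ hγ y hy
    obtain ⟨M, hM, rfl⟩ := (mem_Rm e y).1 hy
    have h1 : T γ (M e) = (T γ * M * T γ⁻¹) (T γ e) := by
      have h2 : T γ * M = T γ * M * T γ⁻¹ * T γ := by
        rw [mul_assoc (T γ * M), hinv, mul_one]
      exact congrArg (fun g : Module.End K V => g e) h2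
    rw [h1]
    exact Rm_stable e _ (hRc γ M hM) _ (hpU γ hγ)
  -- a normal open subgroup
  obtain ⟨U', hU'n, hU'⟩ : ∃ U' : OpenSubgroup Γ, (∀ u ∈ U', ∀ γ, γ * u * γ⁻¹ ∈ U') ∧
      ∀ u ∈ U', u ∈ U := by
    have hfq : Finite (Γ ⧸ (U : Subgroup Γ)) := inferInstance
    have : (U : Subgroup Γ).FiniteIndex := (U : Subgroup Γ).finiteIndex_of_finite_quotient
    refine ⟨⟨(U : Subgroup Γ).normalCore, Subgroup.isOpen_of_isClosed_of_finiteIndex _
      ((U : Subgroup Γ).normalCore_isClosed U.isClosed)⟩, ?_, ?_⟩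
    · intro u hu γ
      exact (U : Subgroup Γ).normalCore_normal.conj_mem u hu γ
    · intro u hu
      exact (U : Subgroup Γ).normalCore_le hu
  let R' : Subalgebra K (Module.End K V) := Algebra.adjoin K (T '' (U' : Set Γ))
  have hR' : Subalgebra.toSubmodule R' ≤ Submodule.span K (Set.range T) := by
    have h1 : R' ≤ Algebra.adjoin K (Set.range T) :=
      Algebra.adjoin_mono (Set.image_subset_range _ _)
    have h2 : Subalgebra.toSubmodule (Algebra.adjoin K (Set.range T)) =
        Submodule.span K (Set.range T) := by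
      rw [Algebra.adjoin_eq_span]
      congr 1
      exact congrArg _ (Submonoid.closure_eq (MonoidHom.mrange T))
    rw [← h2]
    exact h1
  have hR'c : ∀ γ, ∀ M ∈ R', T γ * M * T γ⁻¹ ∈ R' := by
    intro γ M hM
    induction hM using Algebra.adjoin_induction with
    | mem x hx =>
      obtain ⟨u, hu, rfl⟩ := hx
      rw [← map_mul, ← map_mul]
      exact Algebra.subset_adjoin ⟨_, hU'n u hu γ, rfl⟩
    | algebraMap r =>
      have h1 : T γ * algebraMap K (Module.End K V) r * T γ⁻¹ =
          algebraMap K (Module.End K V) r := by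
        rw [← Algebra.commutes, mul_assoc, hinv', mul_one]
      rw [h1]
      exact R'.algebraMap_mem r
    | add x y _ _ hx hy =>
      rw [mul_add, add_mul]
      exact R'.add_mem hx hy
    | mul x y _ _ hx hy =>
      have h1 : T γ * (x * y) * T γ⁻¹ = (T γ * x * T γ⁻¹) * (T γ * y * T γ⁻¹) := by
        calc T γ * (x * y) * T γ⁻¹ = T γ * x * 1 * y * T γ⁻¹ := by
              rw [mul_one, mul_assoc (T γ) x y]
          _ = T γ * x * (T γ⁻¹ * T γ) * y * T γ⁻¹ := by rw [hinv]
          _ = _ := by simp only [mul_assoc]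
      rw [h1]
      exact R'.mul_mem hx hy
  have hNR' : ∀ M ∈ R', ∀ y ∈ Rm R e, M y ∈ Rm R e := by
    intro M hM
    induction hM using Algebra.adjoin_induction with
    | mem x hx =>
      obtain ⟨u, hu, rfl⟩ := hx
      exact hTN u (hU' u hu)
    | algebraMap r =>
      intro y hy
      rw [Module.algebraMap_end_apply]
      exact Submodule.smul_mem _ _ hy
    | add x y _ _ hx hy =>
      intro z hz
      exact Submodule.add_mem _ (hx z hz) (hy z hz)
    | mul x y _ _ hx hy =>
      intro z hz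
      exact hx _ (hy z hz)
  obtain ⟨p', hp'1, hp'2, hp'3⟩ := pSemi K V Γ T htr R' hR' hR'c (Rm R e) hNR'
  obtain ⟨r, hr⟩ := hscal U' p' fun γ hγ => hp'3 _ (Algebra.subset_adjoin ⟨γ, hγ, rfl⟩)
  have hr1 : r = 1 := by
    have h1 := hp'2 e (self_mem_Rm e)
    rw [hr] at h1
    have h2 : r • e = (1 : K) • e := by
      rw [one_smul]
      exact h1
    exact smul_left_injective K he0 h2
  rw [eq_top_iff]
  intro y _
  have h1 := hp'1 y
  rw [hr, hr1, one_smul] at h1
  exact h1

end Pool.Agent.Lib.MP_640417_ag.Orth
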