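import Mathlib

/-!
# Galois representations with an invariant symmetric form

The even degree case: `V` is the transcendental part of `H^d(X)(d/2)` for a smooth projective
variety `X` of even dimension `d`, the form is the cup product.
-/

namespace Pool.Agent.Lib.MP_640417_ag.Orth

open Module Polynomial

/-- A continuous representation `T` of `Γ` on `V` which preserves a nondegenerate symmetric form. -/
structure OrthRep (Γ : Type) [Group Γ] [TopologicalSpace Γ] (F : Type) [Field F]
    [TopologicalSpace F] (V : Type) [AddCommGroup V] [Module F V] where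
  /-- The action of `Γ` on `V`. -/
  T : Γ →* Module.End F V
  /-- The matrix coefficients are continuous. -/
  continuous_coeff : ∀ (f : Module.Dual F V) (x : V), Continuous fun γ => f (T γ x)
  /-- The pairing. -/
  form : LinearMap.BilinForm F V
  /-- The pairing is symmetric. -/
  form_symm : ∀ x y, form x y = form y x
  /-- The pairing is nondegenerate. -/
  form_nondeg : ∀ x, (∀ y, form x y = 0) → x = 0
  /-- The pairing is invariant. -/
  form_invariant : ∀ γ x y, form (T γ x) (T γ y) = form x y

/-- Multilinear forms in `k` variables. -/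
abbrev Mf (F V : Type) [Field F] [AddCommGroup V] [Module F V] (k : ℕ) : Type :=
  MultilinearMap F (fun _ : Fin k => V) F

section

variable {Γ : Type} [Group Γ] [TopologicalSpace Γ] {F : Type} [Field F]
  {V : Type} [AddCommGroup V] [Module F V]

/-- The multilinear form `f` is fixed by an open subgroup. -/
def TateForm (T : Γ →* Module.End F V) {k : ℕ} (f : Mf F V k) : Prop :=
  ∃ U : OpenSubgroup Γ, ∀ γ ∈ U, ∀ v, f (fun i => T γ (v i)) = f v

/-- The span of the products of the pairing over the perfect matchings of the variables. -/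
def PairingSpan (form : LinearMap.BilinForm F V) (k : ℕ) : Submodule F (Mf F V k) :=
  Submodule.span F {f | ∃ σ : Fin k → Fin k, (∀ i, σ (σ i) = i) ∧ (∀ i, σ i ≠ i) ∧
    ∀ v, f v = ∏ i ∈ Finset.univ.filter (fun i => i < σ i), form (v i) (v (σ i))}

variable [TopologicalSpace F]

/-- Every stable subspace has a stable complement. -/
def Semisimple (ρ : OrthRep Γ F V) : Prop :=
  ∀ W : Submodule F V, (∀ γ, ∀ y ∈ W, ρ.T γ y ∈ W) →
    ∃ W' : Submodule F V, (∀ γ, ∀ y ∈ W', ρ.T γ y ∈ W') ∧ IsCompl W W'

/-- All endomorphisms which commute with an open subgroup are scalars. -/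
def ScalarCommutant (ρ : OrthRep Γ F V) : Prop :=
  ∀ c : Module.End F V, (∃ U : OpenSubgroup Γ, ∀ γ ∈ U, c * ρ.T γ = ρ.T γ * c) →
    ∃ r : F, c = r • (1 : Module.End F V)

/-- The eigenvalue `z ≠ ±1` of `T γ` is simple, and it occurs in no nontrivial relation between four
eigenvalues: if `z z₂ z₃ z₄` is a root of unity, then one of `z z₂`, `z z₃`, `z z₄` is `1`. -/
def IsoEig [FiniteDimensional F V] (ρ : OrthRep Γ F V) (γ : Γ) (z : AlgebraicClosure F) : Prop :=
  ((ρ.T γ).charpoly.map (algebraMap F (AlgebraicClosure F))).rootMultiplicity z = 1 ∧ z ^ 2 ≠ 1 ∧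
    ∀ z₂ z₃ z₄ : AlgebraicClosure F, aeval z₂ (ρ.T γ).charpoly = 0 →
      aeval z₃ (ρ.T γ).charpoly = 0 → aeval z₄ (ρ.T γ).charpoly = 0 → ∀ N : ℕ, 0 < N →
      (z * z₂ * z₃ * z₄) ^ N = 1 → z * z₂ = 1 ∨ z * z₃ = 1 ∨ z * z₄ = 1

end

end Pool.Agent.Lib.MP_640417_ag.Orth
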