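import Pool.Agent.Lib.MP_640417_ag.Orth.DefsA

/-!
# MP_640417_ag, Orth, module DetDet: products of two determinants

`N = finrank F V`. `det_mul_det`: with `G = (form (b i) (b j))`, `A = b.toMatrix v`, `B = b.toMatrix w` (columns = coordinates):
`form (v i) (w j) = (Aᵀ G B) i j`, so `det (form (v i) (w j)) = det G * det A * det B`, and `det G ≠ 0` as the form is nondegenerate.
`prods_det`: span induction on `g`; if `g` contains a determinant, the product of the two determinants is expanded.
-/

set_option autoImplicit false

namespace Pool.Agent.Lib.MP_640417_ag.Orth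

open Module

variable {F V : Type} [Field F] [AddCommGroup V] [Module F V] [FiniteDimensional F V]

namespace DetDetM

omit [FiniteDimensional F V] in
private theorem pair_inl (form : LinearMap.BilinForm F V) {m : ℕ} [DecidableEq (Fin m ⊕ Fin m)]
    (v : Fin m ⊕ Fin m → V) (a : Fin m) (x : V) :
    ∏ c, form (Function.update v (Sum.inl a) x (Sum.inl c))
      (Function.update v (Sum.inl a) x (Sum.inr c)) =
      form x (v (Sum.inr a)) * ∏ c ∈ Finset.univ.erase a, form (v (Sum.inl c)) (v (Sum.inr c)) := by
  rw [← Finset.mul_prod_erase Finset.univ _ (Finset.mem_univ a), Function.update_self,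
    Function.update_of_ne (by simp)]
  congr 1
  refine Finset.prod_congr rfl fun c hc => ?_
  rw [Function.update_of_ne, Function.update_of_ne (by simp)]
  intro h
  exact Finset.ne_of_mem_erase hc (Sum.inl_injective h)

omit [FiniteDimensional F V] in
private theorem pair_inr (form : LinearMap.BilinForm F V) {m : ℕ} [DecidableEq (Fin m ⊕ Fin m)]
    (v : Fin m ⊕ Fin m → V) (a : Fin m) (x : V) :
    ∏ c, form (Function.update v (Sum.inr a) x (Sum.inl c))
      (Function.update v (Sum.inr a) x (Sum.inr c)) =
      form (v (Sum.inl a)) x * ∏ c ∈ Finset.univ.erase a, form (v (Sum.inl c)) (v (Sum.inr c)) := by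
  rw [← Finset.mul_prod_erase Finset.univ _ (Finset.mem_univ a), Function.update_self,
    Function.update_of_ne (by simp)]
  congr 1
  refine Finset.prod_congr rfl fun c hc => ?_
  rw [Function.update_of_ne (by simp), Function.update_of_ne]
  intro h
  exact Finset.ne_of_mem_erase hc (Sum.inr_injective h)

/-- The product of the pairings. -/
private noncomputable def pairM (form : LinearMap.BilinForm F V) (m : ℕ) :
    MultilinearMap F (fun _ : Fin m ⊕ Fin m => V) F where
  toFun v := ∏ c, form (v (Sum.inl c)) (v (Sum.inr c))
  map_update_add' := by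
    intro _ v i x y
    rcases i with a | a
    · rw [pair_inl, pair_inl, pair_inl, map_add, LinearMap.add_apply, add_mul]
    · rw [pair_inr, pair_inr, pair_inr, map_add, add_mul]
  map_update_smul' := by
    intro _ v i r x
    rcases i with a | a
    · rw [pair_inl, pair_inl, map_smul, LinearMap.smul_apply, smul_eq_mul, smul_eq_mul, mul_assoc]
    · rw [pair_inr, pair_inr, map_smul, smul_eq_mul, smul_eq_mul, mul_assoc]

/-- The product of a determinant and of a form. -/
private noncomputable def detM (b : Basis (Fin (finrank F V)) F V) {k k' : ℕ}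
    (e : Fin (finrank F V) ⊕ Fin k' ≃ Fin k) (g : Mf F V k') : Mf F V k :=
  ((LinearMap.mul' F F).compMultilinearMap
    (MultilinearMap.domCoprod b.det.toMultilinearMap g)).domDomCongr e

private theorem detM_apply (b : Basis (Fin (finrank F V)) F V) {k k' : ℕ}
    (e : Fin (finrank F V) ⊕ Fin k' ≃ Fin k) (g : Mf F V k') (v : Fin k → V) :
    detM b e g v = b.det (fun a => v (e (Sum.inl a))) * g (fun a => v (e (Sum.inr a))) := rfl

private theorem gram_ne_zero (form : LinearMap.BilinForm F V)
    (hnd : ∀ x, (∀ y, form x y = 0) → x = 0) (b : Basis (Fin (finrank F V)) F V) :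
    Matrix.det (Matrix.of fun i j => form (b i) (b j)) ≠ 0 := by
  intro h
  rw [← Matrix.exists_vecMul_eq_zero_iff] at h
  obtain ⟨c, hc, h0⟩ := h
  apply hc
  have h1 : ∑ i, c i • b i = 0 := by
    apply hnd
    intro y
    have h2 : form (∑ i, c i • b i) = 0 := by
      refine b.ext fun j => ?_
      rw [map_sum, LinearMap.sum_apply, LinearMap.zero_apply]
      have h3 := congrFun h0 j
      rw [Matrix.vecMul, dotProduct] at h3
      rw [← show (0 : Fin (finrank F V) → F) j = 0 from rfl, ← h3]
      refine Finset.sum_congr rfl fun i _ => ?_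
      rw [map_smul, LinearMap.smul_apply, smul_eq_mul, Matrix.of_apply]
    rw [h2, LinearMap.zero_apply]
  have h4 := Fintype.linearIndependent_iff.1 b.linearIndependent c h1
  funext i
  rw [h4 i, Pi.zero_apply]

end DetDetM

open DetDetM

theorem det_mul_det (form : LinearMap.BilinForm F V) (hnd : ∀ x, (∀ y, form x y = 0) → x = 0)
    (b b' : Basis (Fin (finrank F V)) F V) :
    ∃ c : F, ∀ v w : Fin (finrank F V) → V,
      b.det v * b'.det w = c * Matrix.det (Matrix.of fun i j => form (v i) (w j)) := by
  have hG := gram_ne_zero form hnd b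
  refine ⟨b'.det b * (Matrix.det (Matrix.of fun i j => form (b i) (b j)))⁻¹, fun v w => ?_⟩
  have h1 : b'.det w = b'.det b * b.det w := by
    conv_lhs => rw [AlternatingMap.eq_smul_basis_det b b'.det]
    rfl
  have h2 : (Matrix.of fun i j => form (v i) (w j)) =
      (b.toMatrix v).transpose * (Matrix.of fun i j => form (b i) (b j)) * b.toMatrix w := by
    ext i j
    rw [Matrix.mul_apply, Matrix.of_apply]
    conv_lhs => rw [← b.sum_repr (v i), ← b.sum_repr (w j)]
    rw [map_sum]
    refine Finset.sum_congr rfl fun t _ => ?_
    rw [map_smul, Matrix.mul_apply, map_sum, LinearMap.sum_apply, smul_eq_mul, mul_comm,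
      Basis.toMatrix_apply]
    congr 1
    refine Finset.sum_congr rfl fun s _ => ?_
    rw [map_smul, LinearMap.smul_apply, smul_eq_mul, Matrix.transpose_apply, Matrix.of_apply,
      Basis.toMatrix_apply]
  rw [h1, h2, Matrix.det_mul, Matrix.det_mul, Matrix.det_transpose, ← Basis.det_apply,
    ← Basis.det_apply]
  field_simp

theorem prods_det (form : LinearMap.BilinForm F V) (hnd : ∀ x, (∀ y, form x y = 0) → x = 0)
    (b : Basis (Fin (finrank F V)) F V) {k k' : ℕ} (e : Fin (finrank F V) ⊕ Fin k' ≃ Fin k)
    (g : Mf F V k') (hg : g ∈ Prods form k') (f : Mf F V k)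
    (hf : ∀ v, f v = b.det (fun a => v (e (Sum.inl a))) * g (fun a => v (e (Sum.inr a)))) :
    f ∈ Prods form k := by
  have e0 : f = detM b e g := by
    ext v
    rw [hf, detM_apply]
  rw [e0]
  clear e0 hf f
  refine Submodule.span_induction (p := fun g _ => detM b e g ∈ Prods form k) ?_ ?_ ?_ ?_ hg
  · rintro g (⟨m, e', h⟩ | ⟨b', m, e', h⟩)
    · refine Submodule.subset_span (Or.inr ⟨b, m,
        (Equiv.sumCongr (Equiv.refl _) e').trans e, fun v => ?_⟩)
      rw [detM_apply, h]
      rfl
    · obtain ⟨c, hc⟩ := det_mul_det form hnd b b'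
      -- the new matching
      let E : Equiv.Perm (Fin (finrank F V)) →
          (Fin (finrank F V + m) ⊕ Fin (finrank F V + m) ≃ Fin k) := fun τ =>
        (Equiv.sumCongr finSumFinEquiv.symm finSumFinEquiv.symm).trans
          ((Equiv.sumSumSumComm _ _ _ _).trans
            ((Equiv.sumCongr (Equiv.sumCongr τ (Equiv.refl _)) (Equiv.refl _)).trans
              ((Equiv.sumAssoc _ _ _).trans ((Equiv.sumCongr (Equiv.refl _) e').trans e))))
      have hE : ∀ (τ : Equiv.Perm (Fin (finrank F V))) (v : Fin k → V),
          ∏ a, form (v (E τ (Sum.inl a))) (v (E τ (Sum.inr a))) =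
          (∏ i, form (v (e (Sum.inl (τ i)))) (v (e (Sum.inr (e' (Sum.inl i)))))) *
            ∏ a, form (v (e (Sum.inr (e' (Sum.inr (Sum.inl a))))))
              (v (e (Sum.inr (e' (Sum.inr (Sum.inr a)))))) := by
        intro τ v
        rw [← Equiv.prod_comp finSumFinEquiv, Fintype.prod_sum_type]
        congr 1
        · refine Finset.prod_congr rfl fun i _ => ?_
          simp [E]
        · refine Finset.prod_congr rfl fun i _ => ?_
          simp [E]
      have h1 : detM b e g = c • ∑ τ : Equiv.Perm (Fin (finrank F V)),
          ((Equiv.Perm.sign τ : ℤ) : F) •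
            ((pairM form (finrank F V + m)).domDomCongr (E τ) : Mf F V k) := by
        ext v
        rw [detM_apply, h, ← mul_assoc, hc, Matrix.det_apply', MultilinearMap.smul_apply,
          MultilinearMap.sum_apply, smul_eq_mul, mul_assoc, Finset.sum_mul]
        congr 1
        refine Finset.sum_congr rfl fun τ _ => ?_
        rw [MultilinearMap.smul_apply, smul_eq_mul, mul_assoc]
        congr 1
        exact (hE τ v).symm
      rw [h1]
      refine Submodule.smul_mem _ _ (Submodule.sum_mem _ fun τ _ => Submodule.smul_mem _ _ ?_)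
      exact Submodule.subset_span (Or.inl ⟨finrank F V + m, E τ, fun v => rfl⟩)
  · have : detM b e 0 = 0 := by
      ext v
      rw [detM_apply]
      simp
    rw [this]
    exact Submodule.zero_mem _
  · intro g g' _ _ h1 h2
    have : detM b e (g + g') = detM b e g + detM b e g' := by
      ext v
      rw [MultilinearMap.add_apply, detM_apply, detM_apply, detM_apply,
        MultilinearMap.add_apply, mul_add]
    rw [this]
    exact Submodule.add_mem _ h1 h2
  · intro c g _ h1
    have : detM b e (c • g) = c • detM b e g := by
      ext v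
      rw [MultilinearMap.smul_apply, detM_apply, detM_apply, MultilinearMap.smul_apply,
        smul_eq_mul, smul_eq_mul]
      ring
    rw [this]
    exact Submodule.smul_mem _ _ h1

end Pool.Agent.Lib.MP_640417_ag.Orth
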