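import Mathlib

/-!
# MP_640417_ag, Orth, module Dom (60 lines): diagonally dominant systems

Let `X` be a `K`-vector space, `G` a finite index set, `x : G → X`, `m : ℕ`, `p : Fin k → G → G`, `k < m`, and
`m x_g + ∑ j, x_(p j g) = 0` for all `g`. Then `x = 0`. Proof: the matrix `A = m 1 + P`, `P g h = #{j | p j g = h}` over `ℚ` has nonzero determinant
(`det_ne_zero_of_sum_row_lt_diag` in Mathlib for real matrices: row `g`: the diagonal entry is `m + P g g ≥ m`, the sum of the other entries is
`k - P g g ≤ k < m`; the real determinant is the image of the integral one), so the integral determinant is not zero and neither is its image in `K`; multiply the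
system `A x = 0` with the adjugate: `det A • x_g = 0` for all `g`.
-/

set_option autoImplicit false

namespace Pool.Agent.Lib.MP_640417_ag.Orth

theorem dominant {K X G : Type} [Field K] [CharZero K] [AddCommGroup X] [Module K X] [Fintype G]
    [DecidableEq G] {k m : ℕ} (hkm : k < m) (p : Fin k → G → G) (x : G → X)
    (hx : ∀ g, (m : K) • x g + ∑ j, x (p j g) = 0) (g : G) : x g = 0 := by
  sorry

end Pool.Agent.Lib.MP_640417_ag.Orth
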