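import Pool.Agent.Lib.MP_640417_ag.Orth.Defs

/-!
# MP_640417_ag, Orth, module Mat (120 lines): products over perfect matchings

* `pairing_const`: `k = 0`: take `σ` the empty map; `f v = f 0 • 1`.
* `pairing_cons`: by `Submodule.span_induction` on `g` it is enough to treat `g = ∏_{i < σ i} form (v i) (v (σ i))` (the map `g ↦ h`, `h v = form (v 0) (v j.succ) * g (..)`
  should be made a linear map `Mf F V k →ₗ Mf F V (k + 2)`, or: for every `g` there is a unique multilinear `h`; existence: define `h` with
  `MultilinearMap.mk'`...). Let `ι : Fin k → Fin (k + 2)`, `ι i = (j.succAbove i).succ`, the order preserving bijection onto the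
  complement of `{0, j.succ}`. The new matching `σ'` exchanges `0` and `j.succ` and is `ι σ ι⁻¹` on the image of `ι`. The product over
  `{i | i < σ' i}` is the factor for `i = 0` and the product over `ι i`, `i < σ i` (`ι` is strictly increasing).
* `pairing_perm`: a permutation `π` of the variables maps the product for `σ` to the product for `π σ π⁻¹` (or `π⁻¹ σ π`); as `form` is
  symmetric the product over `{i | i < σ i}` is the product over any set of representatives of the `σ`-orbits: show
  `∏_{i < σ' i} F(i) = ∏_{i : π i < σ' (π i)..} F'(i)` with `Finset.prod_bij` or `Finset.prod_nbij'`: send `i` to `π i` if `π i < σ (π i)`,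
  else to `σ (π i)`.
-/

set_option autoImplicit false

namespace Pool.Agent.Lib.MP_640417_ag.Orth

open Module

variable {F V : Type} [Field F] [AddCommGroup V] [Module F V]

namespace MatM

/-- The product over a set of representatives of the orbits of a fixed point free involution. -/
private theorem prod_reps {α : Type} [Fintype α] (τ : α → α) (hτ : ∀ i, τ (τ i) = i)
    (G : α → F) (hG : ∀ i, G (τ i) = G i) (P Q : α → Prop) [DecidablePred P] [DecidablePred Q]
    (hP : ∀ i, P (τ i) ↔ ¬ P i) (hQ : ∀ i, Q (τ i) ↔ ¬ Q i) :
    ∏ i ∈ Finset.univ.filter P, G i = ∏ i ∈ Finset.univ.filter Q, G i := by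
  refine Finset.prod_nbij' (fun i => if Q i then i else τ i) (fun i => if P i then i else τ i)
    ?_ ?_ ?_ ?_ ?_
  · intro i _
    rw [Finset.mem_filter]
    refine ⟨Finset.mem_univ _, ?_⟩
    by_cases h : Q i
    · rw [if_pos h]
      exact h
    · rw [if_neg h, hQ]
      exact h
  · intro i _
    rw [Finset.mem_filter]
    refine ⟨Finset.mem_univ _, ?_⟩
    by_cases h : P i
    · rw [if_pos h]
      exact h
    · rw [if_neg h, hP]
      exact h
  · intro i hi
    have hi' := (Finset.mem_filter.1 hi).2
    by_cases h : Q i
    · simp only [if_pos h, if_pos hi']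
    · have h2 : ¬ P (τ i) := by
        rw [hP]
        exact fun h3 => h3 hi'
      simp only [if_neg h, if_neg h2, hτ]
  · intro i hi
    have hi' := (Finset.mem_filter.1 hi).2
    by_cases h : P i
    · simp only [if_pos h, if_pos hi']
    · have h2 : ¬ Q (τ i) := by
        rw [hQ]
        exact fun h3 => h3 hi'
      simp only [if_neg h, if_neg h2, hτ]
  · intro i _
    by_cases h : Q i
    · simp only [if_pos h]
    · simp only [if_neg h, hG]

/-- Adding the pair `(0, j + 1)`. -/
private noncomputable def consM (form : LinearMap.BilinForm F V) {k : ℕ} (j : Fin (k + 1))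
    (g : Mf F V k) : Mf F V (k + 2) :=
  LinearMap.uncurryLeft
    { toFun := fun x => LinearMap.uncurryMid j
        { toFun := fun y => form x y • g
          map_add' := fun y y' => by rw [map_add, add_smul]
          map_smul' := fun c y => by
            rw [map_smul, smul_assoc]
            rfl }
      map_add' := fun x x' => by
        ext m
        simp [add_mul]
      map_smul' := fun c x => by
        ext m
        simp [mul_assoc] }

private theorem consM_apply (form : LinearMap.BilinForm F V) {k : ℕ} (j : Fin (k + 1))
    (g : Mf F V k) (v : Fin (k + 2) → V) :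
    consM form j g v = form (v 0) (v j.succ) * g (j.removeNth (Fin.tail v)) := rfl

end MatM

open MatM

theorem pairing_const (form : LinearMap.BilinForm F V) (f : Mf F V 0) :
    f ∈ PairingSpan form 0 := by
  have h1 : MultilinearMap.constOfIsEmpty F (fun _ : Fin 0 => V) (1 : F) ∈
      PairingSpan form 0 := by
    refine Submodule.subset_span ⟨id, fun _ => rfl, fun i => i.elim0, fun v => ?_⟩
    simp
  have h2 : f = f (fun i => i.elim0) •
      MultilinearMap.constOfIsEmpty F (fun _ : Fin 0 => V) (1 : F) := by
    ext v
    have : v = fun i => i.elim0 := Subsingleton.elim _ _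
    rw [this]
    simp
  rw [h2]
  exact Submodule.smul_mem _ _ h1

theorem pairing_cons (form : LinearMap.BilinForm F V) {k : ℕ} (j : Fin (k + 1)) (g : Mf F V k)
    (hg : g ∈ PairingSpan form k) (h : Mf F V (k + 2))
    (hh : ∀ v, h v = form (v 0) (v j.succ) * g (j.removeNth (Fin.tail v))) :
    h ∈ PairingSpan form (k + 2) := by
  have e : h = consM form j g := by
    ext v
    rw [hh, consM_apply]
  rw [e]
  clear e hh h
  refine Submodule.span_induction (p := fun g _ => consM form j g ∈ PairingSpan form (k + 2))
    ?_ ?_ ?_ ?_ hg
  · rintro g ⟨σ, hσ1, hσ2, hg⟩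
    let ι : Fin k → Fin (k + 2) := fun i => (j.succAbove i).succ
    let σ' : Fin (k + 2) → Fin (k + 2) :=
      Fin.cons j.succ (j.insertNth (0 : Fin (k + 2)) fun i => ι (σ i))
    have h0 : σ' 0 = j.succ := rfl
    have hj : σ' j.succ = 0 := by
      simp only [σ', Fin.cons_succ, Fin.insertNth_apply_same]
    have hι : ∀ i, σ' (ι i) = ι (σ i) := by
      intro i
      simp only [σ', ι, Fin.cons_succ, Fin.insertNth_apply_succAbove]
    have hcases : ∀ P : Fin (k + 2) → Prop, P 0 → P j.succ → (∀ i, P (ι i)) → ∀ i, P i := by
      intro P h1 h2 h3 i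
      refine Fin.cases h1 (fun i => ?_) i
      exact Fin.succAboveCases j (α := fun i => P i.succ) h2 h3 i
    refine Submodule.subset_span ⟨σ', ?_, ?_, ?_⟩
    · refine hcases _ ?_ ?_ ?_
      · rw [h0, hj]
      · rw [hj, h0]
      · intro i
        rw [hι, hι, hσ1]
    · refine hcases _ ?_ ?_ ?_
      · rw [h0]
        exact Fin.succ_ne_zero _
      · rw [hj]
        exact (Fin.succ_ne_zero _).symm
      · intro i
        rw [hι]
        intro hcon
        exact hσ2 i (Fin.succAbove_right_injective (Fin.succ_injective _ hcon))
    · intro v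
      rw [consM_apply, hg, Finset.prod_filter, Finset.prod_filter, Fin.prod_univ_succ,
        Fin.prod_univ_succAbove _ j, h0, hj, if_pos (Fin.succ_pos j), if_neg (by simp), one_mul]
      congr 1
      refine Finset.prod_congr rfl fun i _ => ?_
      have e1 : σ' (j.succAbove i).succ = ι (σ i) := hι i
      rw [e1]
      by_cases hi : i < σ i
      · rw [if_pos hi, if_pos]
        · rfl
        · exact Fin.succ_lt_succ_iff.2 (Fin.succAbove_lt_succAbove_iff.2 hi)
      · rw [if_neg hi, if_neg]
        intro hcon
        exact hi (Fin.succAbove_lt_succAbove_iff.1 (Fin.succ_lt_succ_iff.1 hcon))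
  · have : consM form j 0 = 0 := by
      ext v
      rw [consM_apply]
      simp
    rw [this]
    exact Submodule.zero_mem _
  · intro g g' _ _ h1 h2
    have : consM form j (g + g') = consM form j g + consM form j g' := by
      ext v
      rw [MultilinearMap.add_apply, consM_apply, consM_apply, consM_apply,
        MultilinearMap.add_apply, mul_add]
    rw [this]
    exact Submodule.add_mem _ h1 h2
  · intro c g _ h1
    have : consM form j (c • g) = c • consM form j g := by
      ext v
      rw [MultilinearMap.smul_apply, consM_apply, consM_apply, MultilinearMap.smul_apply,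
        smul_eq_mul, smul_eq_mul]
      ring
    rw [this]
    exact Submodule.smul_mem _ _ h1

theorem pairing_perm (form : LinearMap.BilinForm F V) (hsymm : ∀ x y, form x y = form y x) {k : ℕ}
    (π : Equiv.Perm (Fin k)) (g h : Mf F V k) (hg : g ∈ PairingSpan form k)
    (hh : ∀ v, h v = g (v ∘ π)) : h ∈ PairingSpan form k := by
  have e : h = g.domDomCongr π := by
    ext v
    rw [hh]
    rfl
  rw [e]
  clear e hh h
  refine Submodule.span_induction (p := fun g _ => g.domDomCongr π ∈ PairingSpan form k)
    ?_ ?_ ?_ ?_ hg
  · rintro g ⟨σ, hσ1, hσ2, hg⟩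
    let σ' : Fin k → Fin k := fun l => π (σ (π.symm l))
    have hσ' : ∀ l, σ' (σ' l) = l := by
      intro l
      simp only [σ', Equiv.symm_apply_apply, hσ1, Equiv.apply_symm_apply]
    have hne : ∀ l, σ' l ≠ l := by
      intro l hl
      have h1 : σ (π.symm l) = π.symm l := by
        rw [Equiv.eq_symm_apply]
        exact hl
      exact hσ2 _ h1
    refine Submodule.subset_span ⟨σ', hσ', hne, fun v => ?_⟩
    have h1 : g.domDomCongr π v = ∏ i ∈ Finset.univ.filter (fun i => i < σ i),
        form (v (π i)) (v (π (σ i))) := hg _
    have h2 : ∏ i ∈ Finset.univ.filter (fun i => i < σ i), form (v (π i)) (v (π (σ i))) =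
        ∏ l ∈ Finset.univ.filter (fun l => π.symm l < σ (π.symm l)), form (v l) (v (σ' l)) := by
      refine Finset.prod_equiv π ?_ ?_
      · intro i
        simp
      · intro i _
        simp [σ']
    rw [h1, h2]
    refine prod_reps σ' hσ' (fun l => form (v l) (v (σ' l))) ?_ _ _ ?_ ?_
    · intro l
      show form (v (σ' l)) (v (σ' (σ' l))) = form (v l) (v (σ' l))
      rw [hσ', hsymm]
    · intro l
      have h3 : π.symm (σ' l) = σ (π.symm l) := by
        simp [σ']
      rw [h3, hσ1]
      have h4 := hσ2 (π.symm l)
      constructor
      · intro h5 h6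
        exact absurd (h5.trans h6) (lt_irrefl _)
      · intro h5
        exact lt_of_le_of_ne (not_lt.1 h5) h4
    · intro l
      rw [hσ']
      have h4 := hne l
      constructor
      · intro h5 h6
        exact absurd (h5.trans h6) (lt_irrefl _)
      · intro h5
        exact lt_of_le_of_ne (not_lt.1 h5) h4
  · have : (0 : Mf F V k).domDomCongr π = 0 := by
      ext v
      rfl
    rw [this]
    exact Submodule.zero_mem _
  · intro g g' _ _ h1 h2
    have : (g + g').domDomCongr π = g.domDomCongr π + g'.domDomCongr π := by
      ext v
      rfl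
    rw [this]
    exact Submodule.add_mem _ h1 h2
  · intro c g _ h1
    have : (c • g).domDomCongr π = c • g.domDomCongr π := by
      ext v
      rfl
    rw [this]
    exact Submodule.smul_mem _ _ h1

end Pool.Agent.Lib.MP_640417_ag.Orth
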