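import Pool.Agent.Lib.MP_640417_ag.Orth.Ctr
import Pool.Agent.Lib.MP_640417_ag.Orth.Mat
import Pool.Agent.Lib.MP_640417_ag.Orth.Dom

/-!
# MP_640417_ag, Orth, module Fft (100 lines): invariant forms in fewer variables than the dimension

Induction on `k`, for all `f`. `k = 0`: `pairing_const`. `k = 1`: `inv_one` (`1 < N`). `k + 2`: let `P = PairingSpan`,
`X = Mf K V (k + 2) ⧸ P`. For a permutation `π` of `Fin (k + 2)` let `f_π v = f (v ∘ π)` (`MultilinearMap.domDomCongr`), which is again killed by
all `aa form x y`. By `exists_ctr`, `ctr_identity` and the induction hypothesis with `pairing_cons`, the form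
`(N - 1) f_π + ∑ j, (v ↦ f_π (v ∘ swap 0 j.succ))` is in `P` (the right side of the identity is a sum of multilinear forms in `P`; as multilinear maps take
the difference...: the `j`-th summand `v ↦ form (v 0) (v j.succ) * g j (..)` must be shown to be multilinear, e.g. by defining it
with `MultilinearMap.mk`, or put `h = ` the left side minus the others; simplest: a lemma that for `g : Mf K V k` there is `h : Mf K V (k + 2)`
with the formula of `pairing_cons`). `f_π (v ∘ swap) = f_{swap * π or π * swap}`. Apply `dominant` with `G = Perm (Fin (k + 2))`,
`m = N - 1`, `k + 1 < N - 1`, `x π = ` the class of `f_π`: the class of `f = f_1` is `0`.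
-/

set_option autoImplicit false

namespace Pool.Agent.Lib.MP_640417_ag.Orth

open Module Pool.Agent.Lib.MP_640417_ag.Four

/-- The form `form (v 0) (v (j + 1)) g(the other variables)`. -/
private noncomputable def fftCons {F V : Type} [Field F] [AddCommGroup V] [Module F V]
    (form : LinearMap.BilinForm F V) {k : ℕ} (j : Fin (k + 1))
    (g : Mf F V k) : Mf F V (k + 2) :=
  LinearMap.uncurryLeft
    { toFun := fun x => LinearMap.uncurryMid j
        { toFun := fun y => form x y • g
          map_add' := fun y y' => by rw [map_add, add_smul]
          map_smul' := fun c y => by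
            rw [map_smul, smul_assoc]
            rfl }
      map_add' := fun x x' => by
        ext m
        simp [add_mul]
      map_smul' := fun c x => by
        ext m
        simp [mul_assoc] }

private theorem fftCons_apply {F V : Type} [Field F] [AddCommGroup V] [Module F V]
    (form : LinearMap.BilinForm F V) {k : ℕ} (j : Fin (k + 1))
    (g : Mf F V k) (v : Fin (k + 2) → V) :
    fftCons form j g v = form (v 0) (v j.succ) * g (j.removeNth (Fin.tail v)) := rfl

/-- The derivative of the form with permuted variables. -/
private theorem Dm_perm {F V : Type} [Field F] [AddCommGroup V] [Module F V] {k : ℕ}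
    (M : Module.End F V) (π : Equiv.Perm (Fin k)) (f : Mf F V k) :
    Dm M (f.domDomCongr π) = (Dm M f).domDomCongr π := by
  ext v
  have h1 : (Dm M f).domDomCongr π v = Dm M f (fun i => v (π i)) := rfl
  rw [h1, Dm_apply, Dm_apply]
  refine (Equiv.sum_comp π _).symm.trans ?_
  refine Finset.sum_congr rfl fun i _ => ?_
  have h2 : f.domDomCongr π (Function.update v (π i) (M (v (π i)))) =
      f (fun l => Function.update v (π i) (M (v (π i))) (π l)) := rfl
  rw [h2]
  congr 1
  funext l
  by_cases h : l = i
  · subst h
    rw [Function.update_self, Function.update_self]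
  · rw [Function.update_of_ne h, Function.update_of_ne (fun h' => h (π.injective h'))]

theorem fft {K V : Type} [Field K] [CharZero K] [AddCommGroup V] [Module K V]
    [FiniteDimensional K V] (form : LinearMap.BilinForm K V) (hsymm : ∀ x y, form x y = form y x)
    (hnd : ∀ x, (∀ y, form x y = 0) → x = 0) (k : ℕ) (hk : k < finrank K V) (f : Mf K V k)
    (hf : ∀ x y, Dm (aa form x y) f = 0) : f ∈ PairingSpan form k := by
  induction k using Nat.twoStepInduction with
  | zero => exact pairing_const form f
  | one =>
    have h := inv_one form hsymm hnd (by
      intro h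
      have h' : finrank K V = 1 := by exact_mod_cast h
      omega) f hf
    rw [h]
    exact Submodule.zero_mem _
  | more k ih _ =>
    set P := PairingSpan form (k + 2) with hP
    have h1 : ((finrank K V - 1 : ℕ) : K) = (finrank K V : K) - 1 := by
      rw [Nat.cast_sub (by omega), Nat.cast_one]
    have key := dominant (K := K) (X := Mf K V (k + 2) ⧸ P) (G := Equiv.Perm (Fin (k + 2)))
      (k := k + 1) (m := finrank K V - 1) (by omega)
      (fun j π => Equiv.swap 0 j.succ * π) (fun π => P.mkQ (f.domDomCongr π)) (by
        intro π
        have h2 : ∀ x y, Dm (aa form x y) (f.domDomCongr π) = 0 := by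
          intro x y
          rw [Dm_perm, hf x y]
          rfl
        choose g hg hg' using fun j : Fin (k + 1) =>
          exists_ctr form hsymm hnd j (f.domDomCongr π) h2
        have h3 : ((finrank K V : K) - 1) • f.domDomCongr π +
            ∑ j : Fin (k + 1), f.domDomCongr (Equiv.swap 0 j.succ * π) =
            ∑ j : Fin (k + 1), fftCons form j (g j) := by
          ext v
          rw [MultilinearMap.add_apply, MultilinearMap.smul_apply, MultilinearMap.sum_apply,
            MultilinearMap.sum_apply]
          exact ctr_identity form hsymm hnd (f.domDomCongr π) h2 g hg v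
        have h4 : ((finrank K V : K) - 1) • f.domDomCongr π +
            ∑ j : Fin (k + 1), f.domDomCongr (Equiv.swap 0 j.succ * π) ∈ P := by
          rw [h3]
          exact Submodule.sum_mem _ fun j _ => pairing_cons form j (g j)
            (ih (by omega) (g j) (hg' j)) _ (fun v => fftCons_apply form j (g j) v)
        have h5 : P.mkQ (((finrank K V : K) - 1) • f.domDomCongr π +
            ∑ j : Fin (k + 1), f.domDomCongr (Equiv.swap 0 j.succ * π)) = 0 := by
          rw [Submodule.mkQ_apply, Submodule.Quotient.mk_eq_zero]
          exact h4
        rw [map_add, map_smul, map_sum] at h5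
        rw [h1]
        exact h5) 1
    rw [Submodule.mkQ_apply, Submodule.Quotient.mk_eq_zero] at key
    exact key

end Pool.Agent.Lib.MP_640417_ag.Orth
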