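import Pool.Agent.Lib.MP_640417_ag.Orth.DefsA

/-!
# MP_640417_ag, Orth, module ProdsA: products of pairings and determinants

* `prods_const`: `f v = f 0` (`Fin 0` is empty) is `f 0 •` the product over the empty matching, `m = 0`.
* `prods_perm`: replace `e` by `e.trans π`.
* `prods_cons`: `Fin (m + 1) ⊕ Fin (m + 1) ≃ Fin (k + 2)`: the new pair goes to `0` and `j.succ`, the other ones through
  `i ↦ (j.succAbove i).succ`.
-/

set_option autoImplicit false

namespace Pool.Agent.Lib.MP_640417_ag.Orth

open Module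

variable {F V : Type} [Field F] [AddCommGroup V] [Module F V]

namespace ProdsAM

/-- Adding the pair `(0, j + 1)`. -/
private noncomputable def consM (form : LinearMap.BilinForm F V) {k : ℕ} (j : Fin (k + 1))
    (g : Mf F V k) : Mf F V (k + 2) :=
  LinearMap.uncurryLeft
    { toFun := fun x => LinearMap.uncurryMid j
        { toFun := fun y => form x y • g
          map_add' := fun y y' => by rw [map_add, add_smul]
          map_smul' := fun c y => by
            rw [map_smul, smul_assoc]
            rfl }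
      map_add' := fun x x' => by
        ext m
        simp [add_mul]
      map_smul' := fun c x => by
        ext m
        simp [mul_assoc] }

private theorem consM_apply (form : LinearMap.BilinForm F V) {k : ℕ} (j : Fin (k + 1))
    (g : Mf F V k) (v : Fin (k + 2) → V) :
    consM form j g v = form (v 0) (v j.succ) * g (j.removeNth (Fin.tail v)) := rfl

private theorem cases_two {k : ℕ} (j : Fin (k + 1)) {P : Fin (k + 2) → Prop} (h1 : P 0)
    (h2 : P j.succ) (h3 : ∀ i : Fin k, P (j.succAbove i).succ) : ∀ i, P i := by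
  intro i
  refine Fin.cases h1 (fun i => ?_) i
  exact Fin.succAboveCases j (α := fun i => P i.succ) h2 h3 i

/-- The new matching. -/
private theorem exists_pair {k m : ℕ} (j : Fin (k + 1)) (e : Fin m ⊕ Fin m ≃ Fin k) :
    ∃ e' : Fin (m + 1) ⊕ Fin (m + 1) ≃ Fin (k + 2), e' (Sum.inl 0) = 0 ∧
      e' (Sum.inr 0) = j.succ ∧
      (∀ a, e' (Sum.inl (Fin.succ a)) = (j.succAbove (e (Sum.inl a))).succ) ∧
      ∀ a, e' (Sum.inr (Fin.succ a)) = (j.succAbove (e (Sum.inr a))).succ := by
  let G : Fin (m + 1) ⊕ Fin (m + 1) → Fin (k + 2) :=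
    Sum.elim (Fin.cases 0 fun a => (j.succAbove (e (Sum.inl a))).succ)
      (Fin.cases j.succ fun a => (j.succAbove (e (Sum.inr a))).succ)
  have hs : Function.Surjective G := by
    refine cases_two j ⟨Sum.inl 0, rfl⟩ ⟨Sum.inr 0, rfl⟩ fun i => ?_
    obtain ⟨s, rfl⟩ := e.surjective i
    rcases s with a | a
    · exact ⟨Sum.inl (Fin.succ a), rfl⟩
    · exact ⟨Sum.inr (Fin.succ a), rfl⟩
  have hcard : Fintype.card (Fin (m + 1) ⊕ Fin (m + 1)) = Fintype.card (Fin (k + 2)) := by
    have h := Fintype.card_congr e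
    simp only [Fintype.card_sum, Fintype.card_fin] at h ⊢
    omega
  have hb : Function.Bijective G := (Fintype.bijective_iff_surjective_and_card G).2 ⟨hs, hcard⟩
  exact ⟨Equiv.ofBijective G hb, rfl, rfl, fun _ => rfl, fun _ => rfl⟩

/-- The new matching, with a determinant. -/
private theorem exists_pair_det {k m N : ℕ} (j : Fin (k + 1))
    (e : Fin N ⊕ (Fin m ⊕ Fin m) ≃ Fin k) :
    ∃ e' : Fin N ⊕ (Fin (m + 1) ⊕ Fin (m + 1)) ≃ Fin (k + 2),
      (∀ a, e' (Sum.inl a) = (j.succAbove (e (Sum.inl a))).succ) ∧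
      e' (Sum.inr (Sum.inl 0)) = 0 ∧ e' (Sum.inr (Sum.inr 0)) = j.succ ∧
      (∀ a, e' (Sum.inr (Sum.inl (Fin.succ a))) = (j.succAbove (e (Sum.inr (Sum.inl a)))).succ) ∧
      ∀ a, e' (Sum.inr (Sum.inr (Fin.succ a))) = (j.succAbove (e (Sum.inr (Sum.inr a)))).succ := by
  let G : Fin N ⊕ (Fin (m + 1) ⊕ Fin (m + 1)) → Fin (k + 2) :=
    Sum.elim (fun a => (j.succAbove (e (Sum.inl a))).succ)
      (Sum.elim (Fin.cases 0 fun a => (j.succAbove (e (Sum.inr (Sum.inl a)))).succ)
        (Fin.cases j.succ fun a => (j.succAbove (e (Sum.inr (Sum.inr a)))).succ))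
  have hs : Function.Surjective G := by
    refine cases_two j ⟨Sum.inr (Sum.inl 0), rfl⟩ ⟨Sum.inr (Sum.inr 0), rfl⟩ fun i => ?_
    obtain ⟨s, rfl⟩ := e.surjective i
    rcases s with a | a | a
    · exact ⟨Sum.inl a, rfl⟩
    · exact ⟨Sum.inr (Sum.inl (Fin.succ a)), rfl⟩
    · exact ⟨Sum.inr (Sum.inr (Fin.succ a)), rfl⟩
  have hcard : Fintype.card (Fin N ⊕ (Fin (m + 1) ⊕ Fin (m + 1))) =
      Fintype.card (Fin (k + 2)) := by
    have h := Fintype.card_congr e
    simp only [Fintype.card_sum, Fintype.card_fin] at h ⊢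
    omega
  have hb : Function.Bijective G := (Fintype.bijective_iff_surjective_and_card G).2 ⟨hs, hcard⟩
  exact ⟨Equiv.ofBijective G hb, fun _ => rfl, rfl, rfl, fun _ => rfl, fun _ => rfl⟩

end ProdsAM

open ProdsAM

theorem prods_const (form : LinearMap.BilinForm F V) (f : Mf F V 0) : f ∈ Prods form 0 := by
  have h1 : MultilinearMap.constOfIsEmpty F (fun _ : Fin 0 => V) (1 : F) ∈ Prods form 0 := by
    refine Submodule.subset_span (Or.inl ⟨0, Equiv.equivOfIsEmpty _ _, fun v => ?_⟩)
    simp
  have h2 : f = f (fun i => i.elim0) •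
      MultilinearMap.constOfIsEmpty F (fun _ : Fin 0 => V) (1 : F) := by
    ext v
    have : v = fun i => i.elim0 := Subsingleton.elim _ _
    rw [this]
    simp
  rw [h2]
  exact Submodule.smul_mem _ _ h1

theorem prods_perm (form : LinearMap.BilinForm F V) {k : ℕ} (π : Equiv.Perm (Fin k)) (f : Mf F V k)
    (hf : f ∈ Prods form k) : perm π f ∈ Prods form k := by
  refine Submodule.span_induction (p := fun f _ => perm π f ∈ Prods form k) ?_ ?_ ?_ ?_ hf
  · rintro f (⟨m, e, h⟩ | ⟨b, m, e, h⟩)
    · exact Submodule.subset_span (Or.inl ⟨m, e.trans π, fun v => h _⟩)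
    · exact Submodule.subset_span (Or.inr ⟨b, m, e.trans π, fun v => h _⟩)
  · have : perm π (0 : Mf F V k) = 0 := by
      ext v
      rfl
    rw [this]
    exact Submodule.zero_mem _
  · intro g g' _ _ h1 h2
    have : perm π (g + g') = perm π g + perm π g' := by
      ext v
      rfl
    rw [this]
    exact Submodule.add_mem _ h1 h2
  · intro c g _ h1
    have : perm π (c • g) = c • perm π g := by
      ext v
      rfl
    rw [this]
    exact Submodule.smul_mem _ _ h1

theorem prods_cons (form : LinearMap.BilinForm F V) {k : ℕ} (j : Fin (k + 1)) (g : Mf F V k)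
    (hg : g ∈ Prods form k) :
    ∃ h ∈ Prods form (k + 2), ∀ v, h v = form (v 0) (v j.succ) * g (j.removeNth (Fin.tail v)) := by
  refine ⟨consM form j g, ?_, fun v => consM_apply form j g v⟩
  refine Submodule.span_induction (p := fun g _ => consM form j g ∈ Prods form (k + 2))
    ?_ ?_ ?_ ?_ hg
  · rintro g (⟨m, e, h⟩ | ⟨b, m, e, h⟩)
    · obtain ⟨e', h1, h2, h3, h4⟩ := exists_pair j e
      refine Submodule.subset_span (Or.inl ⟨m + 1, e', fun v => ?_⟩)
      rw [consM_apply, h, Fin.prod_univ_succ, h1, h2]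
      congr 1
      refine Finset.prod_congr rfl fun a _ => ?_
      rw [h3, h4]
      rfl
    · obtain ⟨e', h0, h1, h2, h3, h4⟩ := exists_pair_det j e
      refine Submodule.subset_span (Or.inr ⟨b, m + 1, e', fun v => ?_⟩)
      rw [consM_apply, h, Fin.prod_univ_succ, h1, h2, mul_left_comm]
      congr 1
      · congr 1
        funext a
        rw [h0]
        rfl
      · congr 1
        refine Finset.prod_congr rfl fun a _ => ?_
        rw [h3, h4]
        rfl
  · have : consM form j 0 = 0 := by
      ext v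
      rw [consM_apply]
      simp
    rw [this]
    exact Submodule.zero_mem _
  · intro g g' _ _ h1 h2
    have : consM form j (g + g') = consM form j g + consM form j g' := by
      ext v
      rw [MultilinearMap.add_apply, consM_apply, consM_apply, consM_apply,
        MultilinearMap.add_apply, mul_add]
    rw [this]
    exact Submodule.add_mem _ h1 h2
  · intro c g _ h1
    have : consM form j (c • g) = c • consM form j g := by
      ext v
      rw [MultilinearMap.smul_apply, consM_apply, consM_apply, MultilinearMap.smul_apply,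
        smul_eq_mul, smul_eq_mul]
      ring
    rw [this]
    exact Submodule.smul_mem _ _ h1

end Pool.Agent.Lib.MP_640417_ag.Orth
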