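import Pool.Agent.Lib.MP_640417_ag.Orth.AltS
import Pool.Agent.Lib.MP_640417_ag.Orth.ProdsA
import Pool.Agent.Lib.MP_640417_ag.Orth.DetDet
import Pool.Agent.Lib.MP_640417_ag.Orth.AltDet
import Pool.Agent.Lib.MP_640417_ag.Orth.Ctr

/-!
# MP_640417_ag, Orth, module FftAll: the first fundamental theorem for `so(V)`

Strong induction on the number `k` of variables, with `alt_descent` for the action of the symmetric
group on the multilinear forms: `hJ` is `ctr_identity` and `hN` is `exists_of_alt`, `prods_det`.
-/

set_option autoImplicit false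

namespace Pool.Agent.Lib.MP_640417_ag.Orth

open Module Pool.Agent.Lib.MP_640417_ag.Four

section

variable {K V : Type} [Field K] [AddCommGroup V] [Module K V]

private lemma perm_mul {k : ℕ} (π σ : Equiv.Perm (Fin k)) (f : Mf K V k) :
    perm (π * σ) f = perm π (perm σ f) := by
  ext v
  rw [perm_apply, perm_apply, perm_apply]
  rfl

/-- The action of the symmetric group. -/
private noncomputable def act (K V : Type) [Field K] [AddCommGroup V] [Module K V] (k : ℕ) :
    Equiv.Perm (Fin k) →* Module.End K (Mf K V k) where
  toFun π :=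
    { toFun := fun f => perm π f
      map_add' := fun _ _ => rfl
      map_smul' := fun _ _ => rfl }
  map_one' := rfl
  map_mul' π σ := LinearMap.ext fun f => perm_mul π σ f

private lemma act_apply {k : ℕ} (π : Equiv.Perm (Fin k)) (f : Mf K V k) :
    act K V k π f = perm π f := rfl

private lemma Dm_perm {k : ℕ} (M : Module.End K V) (π : Equiv.Perm (Fin k)) (f : Mf K V k) :
    Dm M (perm π f) = perm π (Dm M f) := by
  ext v
  rw [perm_apply, Dm_apply, Dm_apply, ← Equiv.sum_comp π]
  refine Finset.sum_congr rfl fun i _ => ?_
  rw [perm_apply]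
  congr 1
  funext j
  by_cases h : j = i
  · subst h
    rw [Function.update_self, Function.update_self]
  · rw [Function.update_of_ne h, Function.update_of_ne (fun h' => h (π.injective h'))]

variable [FiniteDimensional K V]

/-- The descent identity for the variable `0`. -/
private lemma step_zero (form : LinearMap.BilinForm K V) (hsymm : ∀ x y, form x y = form y x)
    (hnd : ∀ x, (∀ y, form x y = 0) → x = 0) (k : ℕ)
    (ih : ∀ g : Mf K V k, (∀ x y, Dm (aa form x y) g = 0) → g ∈ Prods form k)
    (f : Mf K V (k + 2)) (hf : ∀ x y, Dm (aa form x y) f = 0) :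
    ((finrank K V : K) - 1) • f + ∑ j ∈ Finset.univ.erase (0 : Fin (k + 2)),
      act K V (k + 2) (Equiv.swap 0 j) f ∈ Prods form (k + 2) := by
  choose g hg1 hg2 using fun j => exists_ctr form hsymm hnd j f hf
  choose h hh1 hh2 using fun j => prods_cons form j (g j) (ih (g j) (hg2 j))
  have h1 : ∑ j ∈ Finset.univ.erase (0 : Fin (k + 2)), act K V (k + 2) (Equiv.swap 0 j) f =
      ∑ j : Fin (k + 1), act K V (k + 2) (Equiv.swap 0 j.succ) f := by
    have h2 := Finset.add_sum_erase Finset.univ
      (fun j => act K V (k + 2) (Equiv.swap 0 j) f) (Finset.mem_univ (0 : Fin (k + 2)))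
    rw [Fin.sum_univ_succ] at h2
    exact add_left_cancel h2
  have h3 : ((finrank K V : K) - 1) • f + ∑ j : Fin (k + 1),
      act K V (k + 2) (Equiv.swap 0 j.succ) f = ∑ j, h j := by
    ext v
    rw [add_apply, smul_apply, sum_apply,
      sum_apply, smul_eq_mul]
    have h4 := ctr_identity form hsymm hnd f hf g hg1 v
    rw [Finset.sum_congr rfl fun j _ => hh2 j v]
    exact h4
  rw [h1, h3]
  exact Submodule.sum_mem _ fun j _ => hh1 j

/-- The descent identity for the variable `i`. -/
private lemma step_any (form : LinearMap.BilinForm K V) (hsymm : ∀ x y, form x y = form y x)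
    (hnd : ∀ x, (∀ y, form x y = 0) → x = 0) (k : ℕ)
    (ih : ∀ g : Mf K V k, (∀ x y, Dm (aa form x y) g = 0) → g ∈ Prods form k)
    (f : Mf K V (k + 2)) (hf : ∀ x y, Dm (aa form x y) f = 0) (i : Fin (k + 2)) :
    ((finrank K V : K) - 1) • f + ∑ j ∈ Finset.univ.erase i,
      act K V (k + 2) (Equiv.swap i j) f ∈ Prods form (k + 2) := by
  have h1 := step_zero form hsymm hnd k ih (perm (Equiv.swap 0 i) f) (fun x y => by
    rw [Dm_perm, hf]
    rfl)
  have h2 := prods_perm form (Equiv.swap 0 i) _ h1
  rw [← act_apply, map_add, map_smul, map_sum] at h2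
  have h3 : act K V (k + 2) (Equiv.swap 0 i) (perm (Equiv.swap 0 i) f) = f := by
    rw [act_apply, ← perm_mul, Equiv.swap_mul_self]
    rfl
  have h4 : ∑ j ∈ Finset.univ.erase (0 : Fin (k + 2)), act K V (k + 2) (Equiv.swap 0 i)
      (act K V (k + 2) (Equiv.swap 0 j) (perm (Equiv.swap 0 i) f)) =
      ∑ j ∈ Finset.univ.erase i, act K V (k + 2) (Equiv.swap i j) f := by
    refine Finset.sum_equiv (Equiv.swap 0 i) (fun j => ?_) (fun j _ => ?_)
    · rw [Finset.mem_erase, Finset.mem_erase]
      simp only [Finset.mem_univ, and_true]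
      rw [not_iff_not]
      constructor
      · rintro rfl
        exact Equiv.swap_apply_left _ _
      · intro h
        rw [← Equiv.swap_apply_left 0 i] at h
        exact (Equiv.swap 0 i).injective h
    · have h5 := Equiv.mul_swap_eq_swap_mul (Equiv.swap 0 i) 0 j
      rw [Equiv.swap_apply_left] at h5
      rw [act_apply, act_apply, act_apply, ← perm_mul, ← perm_mul, h5, mul_assoc,
        Equiv.swap_mul_self, mul_one]
  rw [h3, h4] at h2
  exact h2

end

theorem fft_all {K V : Type} [Field K] [CharZero K] [AddCommGroup V] [Module K V]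
    [FiniteDimensional K V] (form : LinearMap.BilinForm K V) (hsymm : ∀ x y, form x y = form y x)
    (hnd : ∀ x, (∀ y, form x y = 0) → x = 0) (k : ℕ) (f : Mf K V k)
    (hf : ∀ x y, Dm (aa form x y) f = 0) : f ∈ Prods form k := by
  induction k using Nat.strong_induction_on with
  | _ k ih =>
  rcases Nat.eq_zero_or_pos k with hk | hk
  · subst hk
    exact prods_const form f
  rcases Nat.eq_zero_or_pos (finrank K V) with hN0 | hN1
  · have hsub : Subsingleton V := finrank_zero_iff.1 hN0
    have h0 : f = 0 := by
      ext v
      rw [zero_apply]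
      exact f.map_coord_zero (⟨0, hk⟩ : Fin k) (Subsingleton.elim _ _)
    rw [h0]
    exact Submodule.zero_mem _
  let Inv : Submodule K (Mf K V k) :=
    { carrier := {f | ∀ x y, Dm (aa form x y) f = 0}
      zero_mem' := fun x y => Dm_zero_form _
      add_mem' := fun {a b} ha hb x y => by rw [Dm_add_form, ha, hb, add_zero]
      smul_mem' := fun c a ha x y => by
        ext v
        rw [Dm_apply, zero_apply]
        have h1 := congrArg (fun g : Mf K V k => c * g v) (ha x y)
        simp only [zero_apply, mul_zero] at h1
        rw [Dm_apply, Finset.mul_sum] at h1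
        exact h1 }
  refine alt_descent (N := finrank K V) hk hN1 (act K V k) (Prods form k) Inv ?_ ?_ ?_ f hf
  · intro π x hx a b
    rw [act_apply, Dm_perm, hx a b]
    rfl
  · intro x hx i
    obtain _ | _ | k₀ := k
    · omega
    · have h1 : (Finset.univ.erase i : Finset (Fin (0 + 1))) = ∅ := by
        ext j
        simp only [Finset.mem_erase, Finset.mem_univ, and_true]
        constructor
        · intro h
          exact absurd (Subsingleton.elim (α := Fin 1) j i) h
        · intro h
          simp at h
      rw [h1, Finset.sum_empty, add_zero]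
      by_cases h2 : (finrank K V : K) = 1
      · rw [h2, sub_self, zero_smul]
        exact Submodule.zero_mem _
      · rw [inv_one form hsymm hnd h2 x hx, smul_zero]
        exact Submodule.zero_mem _
    · exact step_any form hsymm hnd k₀ (fun g hg => ih k₀ (by omega) g hg) x hx i
  · intro x hx s hs halt
    have hsc : sᶜ.card = k - finrank K V := by
      rw [Finset.card_compl, Fintype.card_fin, hs]
    let e := finSumEquivOfFinset hs hsc
    have he : ∀ a, e (Sum.inl a) ∈ s := fun a => by
      change finSumEquivOfFinset hs hsc (Sum.inl a) ∈ s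
      rw [finSumEquivOfFinset_inl]
      exact Finset.orderEmbOfFin_mem s hs a
    obtain ⟨g, hg1, hg2⟩ := exists_of_alt (finBasis K V) e x (fun i j hij =>
      halt _ (he i) _ (he j) (fun h => hij (Sum.inl_injective (e.injective h))))
    have hg : g ∈ Prods form (k - finrank K V) := by
      refine ih _ (by omega) g fun a b => hg2 _ ?_ (hx a b)
      rw [aa, map_sub, LinearMap.trace_smulRight, LinearMap.trace_smulRight]
      change form b a - form a b = 0
      rw [hsymm, sub_self]
    exact prods_det form hnd (finBasis K V) e g hg x hg1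

end Pool.Agent.Lib.MP_640417_ag.Orth
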