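import Pool.Agent.Lib.MP_640417_ag.Four.Gen

/-!
# MP_640417_ag, Orth, module GenO: generic cocharacters

As `exists_generic'` in `Four/Iso.lean` with `q = 1`.
-/

set_option autoImplicit false

namespace Pool.Agent.Lib.MP_640417_ag.Orth

open Pool.Agent.Lib.MP_640417_ag.Four

theorem exists_genericO {I K : Type} [Fintype I] [Field K] [CharZero K] (lam : I → K)
    (hlam : ∀ v, lam v ≠ 0) :
    ∃ t : I → K, (∀ u v, lam u = lam v → t u = t v) ∧
      (∀ (m : I → ℕ) (N : ℕ), 0 < N → (∏ v, lam v ^ m v) ^ N = 1 → ∑ v, (m v : K) * t v = 0) ∧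
      (∀ a b u v, t a + t b + t u + t v = 0 →
        ∃ N : ℕ, 0 < N ∧ (lam a * lam b * lam u * lam v) ^ N = 1) := by
  classical
  let l : I → Kˣ := fun v => Units.mk0 (lam v) (hlam v)
  let G : I × I × I × I → Kˣ := fun x => l x.1 * l x.2.1 * l x.2.2.1 * l x.2.2.2
  obtain ⟨θ, hθ⟩ := exists_additive Kˣ K
    (fun x : {x : I × I × I × I // ∀ N : ℕ, 0 < N → G x ^ N ≠ 1} => G x.1) (fun x => x.2)
  let Θ : Kˣ → K := fun g => θ (Additive.ofMul g)
  have hmul : ∀ g h, Θ (g * h) = Θ g + Θ h := fun g h => by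
    simp only [Θ, ofMul_mul, map_add]
  have hpow : ∀ g (N : ℕ), Θ (g ^ N) = N * Θ g := fun g N => by
    simp only [Θ, ofMul_pow, map_nsmul, nsmul_eq_mul]
  have hone : Θ 1 = 0 := by
    simp only [Θ, ofMul_one, map_zero]
  have hprod : ∀ (m : I → ℕ), Θ (∏ v, l v ^ m v) = ∑ v, (m v : K) * Θ (l v) := fun m => by
    have h1 : Θ (∏ v, l v ^ m v) = ∑ v, Θ (l v ^ m v) := by
      simp only [Θ, ofMul_prod, map_sum]
    rw [h1]
    exact Finset.sum_congr rfl fun v _ => hpow _ _
  refine ⟨fun v => Θ (l v), ?_, ?_, ?_⟩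
  · intro u v huv
    have h1 : l u = l v := Units.ext huv
    change Θ (l u) = Θ (l v)
    rw [h1]
  · intro m N hN hrel
    have h1 : (∏ v, l v ^ m v) ^ N = 1 := by
      apply Units.ext
      push_cast
      exact hrel
    have h3 : Θ ((∏ v, l v ^ m v) ^ N) = 0 := by rw [h1, hone]
    rw [hpow, hprod] at h3
    have hN' : (N : K) ≠ 0 := Nat.cast_ne_zero.mpr hN.ne'
    exact (mul_eq_zero.1 h3).resolve_left hN'
  · intro a b u v hsum
    by_contra hcon
    push Not at hcon
    have h1 : ∀ N : ℕ, 0 < N → G (a, b, u, v) ^ N ≠ 1 := by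
      intro N hN h
      apply hcon N hN
      have h4 := congrArg Units.val h
      simp only [G] at h4
      push_cast at h4
      exact h4
    apply hθ ⟨(a, b, u, v), h1⟩
    change Θ (l a * l b * l u * l v) = 0
    rw [hmul, hmul, hmul]
    exact hsum

end Pool.Agent.Lib.MP_640417_ag.Orth
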