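import Mathlib
import Pool.Agent.Lib.MP_640417_ag.Four.Diag

/-!
# MP_640417_ag, Orth, module JordanO (80 lines): Jordan decomposition with an eigenbasis

`Module.End.exists_isNilpotent_isSemisimple` (`K` perfect) gives `n, s ∈ Algebra.adjoin K {g}`, `n` nilpotent, `s` semisimple, `g = n + s`; they commute
(the adjoin of one element is commutative). `K` algebraically closed: `s` is diagonalizable
(`exists_eigen_of_semisimple` in `Four/Diag.lean`). If `lam v = z` the vector `e v` is in `maxGenEigenspace g z` (`g - z = n + (s - z)`, on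
`ker (s - z)` it acts as `n`, `n` commutes with `s`), which has dimension `g.charpoly.rootMultiplicity z`
(`LinearMap.finrank_maxGenEigenspace_eq` or similar in `Mathlib/LinearAlgebra/Eigenspace/Zero.lean`). So if the multiplicity is one there is
at most one such `v`. `lam v` is a root of the characteristic polynomial of `g` (`maxGenEigenspace ≠ ⊥` so it is an
eigenvalue of `g`). Every root `z` of the characteristic polynomial is a `lam v`: it is an eigenvalue of `g`; the eigenspace of `g` is stable under `s` (commutes), on it `n = z - s` is nilpotent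
and semisimple.., or: if `z ≠ lam v` for all `v`, then `s - z` is invertible, and `g - z = (s - z) + n` is invertible (unit plus commuting nilpotent).
-/

set_option autoImplicit false

namespace Pool.Agent.Lib.MP_640417_ag.Orth

open Module Polynomial

private theorem genEig {K V : Type} [Field K] [AddCommGroup V] [Module K V]
    [FiniteDimensional K V] {g n s : Module.End K V} (hg : g = n + s) (hn : IsNilpotent n)
    (hns : Commute n s) (hs : s.IsSemisimple) (μ : K) :
    g.maxGenEigenspace μ = s.eigenspace μ := by
  apply le_antisymm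
  · intro m hm
    rw [Module.End.mem_eigenspace_iff]
    refine Module.End.apply_eq_of_mem_of_comm_of_isFinitelySemisimple_of_isNil hm ?_
      hs.isFinitelySemisimple ?_
    · rw [hg]
      exact hns.add_left (Commute.refl s)
    · rw [hg, add_sub_cancel_right]
      exact hn
  · intro m hm
    rw [Module.End.mem_eigenspace_iff] at hm
    obtain ⟨k, hk⟩ := hn
    rw [Module.End.mem_maxGenEigenspace]
    refine ⟨k, ?_⟩
    have h1 : ∀ j : ℕ, ((g - μ • (1 : Module.End K V)) ^ j) m = (n ^ j) m := by
      intro j
      induction j with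
      | zero => rfl
      | succ j ih =>
        rw [pow_succ', Module.End.mul_apply, ih, pow_succ', Module.End.mul_apply]
        have h2 : s ((n ^ j) m) = μ • (n ^ j) m := by
          have h3 : (s * n ^ j) m = (n ^ j * s) m := by rw [(hns.pow_left j).eq]
          rw [Module.End.mul_apply, Module.End.mul_apply, hm, map_smul] at h3
          exact h3
        rw [hg, LinearMap.sub_apply, LinearMap.add_apply, h2, LinearMap.smul_apply,
          Module.End.one_apply, add_sub_cancel_right]
    rw [h1, hk]
    rfl

theorem exists_jordan {K V : Type} [Field K] [CharZero K] [IsAlgClosed K] [AddCommGroup V]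
    [Module K V] [FiniteDimensional K V] (g : Module.End K V) :
    ∃ (n s : Module.End K V) (I : Type) (_ : Fintype I) (_ : DecidableEq I) (e : Basis I K V)
      (lam : I → K), g = n + s ∧ IsNilpotent n ∧ Commute n s ∧ s ∈ Algebra.adjoin K {g} ∧
      (∀ v, s (e v) = lam v • e v) ∧ (∀ v, g.charpoly.IsRoot (lam v)) ∧
      (∀ z, g.charpoly.IsRoot z → ∃ v, lam v = z) ∧
      ∀ u v, g.charpoly.rootMultiplicity (lam u) = 1 → lam v = lam u → v = u := by
  obtain ⟨n, hnA, s, hsA, hn, hs, hg⟩ := Module.End.exists_isNilpotent_isSemisimple (K := K)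
    (f := g)
  have hns : Commute n s := by
    have h1 : Commute g s := Algebra.commute_of_mem_adjoin_self hsA
    exact (Algebra.commute_of_mem_adjoin_singleton_of_commute hnA h1.symm).symm
  obtain ⟨I, hI1, hI2, e, lam, he⟩ := Four.exists_eigen_of_semisimple s hs
  have hmul : ∀ μ, g.charpoly.rootMultiplicity μ = s.charpoly.rootMultiplicity μ := by
    intro μ
    rw [← LinearMap.finrank_maxGenEigenspace_eq, ← LinearMap.finrank_maxGenEigenspace_eq,
      genEig hg hn hns hs, hs.isFinitelySemisimple.maxGenEigenspace_eq_eigenspace]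
  have hroot : ∀ μ, g.charpoly.IsRoot μ ↔ s.charpoly.IsRoot μ := by
    intro μ
    rw [← rootMultiplicity_pos (LinearMap.charpoly_monic g).ne_zero,
      ← rootMultiplicity_pos (LinearMap.charpoly_monic s).ne_zero, hmul]
  have hs' := Four.charpoly_eigenbasis e lam s he
  have hrs : ∀ μ, s.charpoly.IsRoot μ ↔ ∃ v, lam v = μ := by
    intro μ
    rw [hs', IsRoot, eval_prod, Finset.prod_eq_zero_iff]
    constructor
    · rintro ⟨v, -, hv⟩
      refine ⟨v, ?_⟩
      rw [eval_sub, eval_X, eval_C, sub_eq_zero] at hv
      exact hv.symm
    · rintro ⟨v, rfl⟩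
      exact ⟨v, Finset.mem_univ v, by simp⟩
  refine ⟨n, s, I, hI1, hI2, e, lam, hg, hn, hns, hsA, he, ?_, ?_, ?_⟩
  · intro v
    exact (hroot _).2 ((hrs _).2 ⟨v, rfl⟩)
  · intro z hz
    exact (hrs z).1 ((hroot z).1 hz)
  · intro u v hu huv
    rw [hmul] at hu
    exact Four.eq_of_rootMultiplicity e lam s he u v hu huv

end Pool.Agent.Lib.MP_640417_ag.Orth
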