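import Pool.Agent.Lib.MP_640417_ag.Orth.Bal
import Pool.Agent.Lib.MP_640417_ag.Frob.Coord

/-!
# MP_640417_ag, Orth, module Kills (100 lines): endomorphisms which kill all Tate forms

* `KillsM.comm`: `Dm_comm`. `KillsM.conj`: `pull (T γ) f` is a Tate form (for the subgroup `γ⁻¹ U γ` or `γ U γ⁻¹`; see `tate_translate` in
  `Four/Der.lean` for the open subgroup), `Dm_pull`: `Dm (T γ M T γ⁻¹) f = pull (T γ⁻¹) (Dm M (pull (T γ) f)) = 0`.
* `kills_genericO`: let `f` be a Tate form, `U` its subgroup, `N > 0` with `φ ^ N ∈ U` (`exists_pow_mem` in `Frob/Coord.lean` or where `Four/Iso.lean` finds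
  it). `Dm tt f = 0`: two multilinear maps which agree on a basis are equal (`Basis.ext_multilinear`); at `e_w`:
  `Dm tt f (e_w) = (∑ i, t (w i)) f(e_w)`, and if `f(e_w) ≠ 0`, then `(∏ lam (w i))^N = 1` by `balancedO` (`g = T φ`), so
  `∑ i, t (w i) = 0` by `hbal` for `m v = #{i | w i = v}` (`Finset.prod_fiberwise`...).
-/

set_option autoImplicit false

namespace Pool.Agent.Lib.MP_640417_ag.Orth

open Module

variable {K V : Type} [Field K] [AddCommGroup V] [Module K V] {Γ : Type} [Group Γ]
  [TopologicalSpace Γ] {k : ℕ}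

/-- `M` kills all Tate forms in `k` variables. -/
def KillsM (k : ℕ) (T : Γ →* Module.End K V) (M : Module.End K V) : Prop :=
  ∀ f : Mf K V k, TateForm T f → Dm M f = 0

theorem KillsM.zero {T : Γ →* Module.End K V} : KillsM k T 0 := fun f _ => Dm_zero f

theorem KillsM.add {T : Γ →* Module.End K V} {M M' : Module.End K V} (h : KillsM k T M)
    (h' : KillsM k T M') : KillsM k T (M + M') := fun f hf => by
  rw [Dm_add, h f hf, h' f hf, add_zero]

theorem KillsM.smul {T : Γ →* Module.End K V} {M : Module.End K V} (h : KillsM k T M) (r : K) :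
    KillsM k T (r • M) := fun f hf => by
  rw [Dm_smul, h f hf, smul_zero]

theorem KillsM.comm {T : Γ →* Module.End K V} {M M' : Module.End K V} (h : KillsM k T M)
    (h' : KillsM k T M') : KillsM k T (M * M' - M' * M) := fun f hf => by
  rw [Dm_comm, h f hf, h' f hf, Dm_zero_form, Dm_zero_form, sub_zero]

theorem KillsM.conj [IsTopologicalGroup Γ] {T : Γ →* Module.End K V} {M : Module.End K V}
    (h : KillsM k T M) (γ : Γ) : KillsM k T (T γ * M * T γ⁻¹) := by
  intro f hf
  have h1 : T γ * T γ⁻¹ = 1 := by rw [← map_mul, mul_inv_cancel, map_one]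
  have h2 : T γ⁻¹ * T γ = 1 := by rw [← map_mul, inv_mul_cancel, map_one]
  have h3 : f = pull (T γ⁻¹) (pull (T γ) f) := by
    ext v
    rw [pull_apply, pull_apply]
    congr 1
    funext i
    have h4 := LinearMap.congr_fun h1 (v i)
    exact h4.symm
  have hF : TateForm T (pull (T γ) f) := by
    obtain ⟨U, hU⟩ := hf
    have hcont : Continuous (MulAut.conj γ).toMonoidHom := by
      have : Continuous fun δ : Γ => γ * δ * γ⁻¹ :=
        (continuous_const.mul continuous_id).mul continuous_const
      exact this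
    refine ⟨OpenSubgroup.comap (MulAut.conj γ).toMonoidHom hcont U, fun δ hδ v => ?_⟩
    have h5 : γ * δ * γ⁻¹ ∈ U := OpenSubgroup.mem_comap.mp hδ
    rw [pull_apply, pull_apply]
    have h6 := hU _ h5 (fun i => T γ (v i))
    rw [← h6]
    congr 1
    funext i
    have h7 : T γ * T δ = T (γ * δ * γ⁻¹) * T γ := by
      rw [← map_mul, ← map_mul, inv_mul_cancel_right]
    exact LinearMap.congr_fun h7 (v i)
  rw [h3, Dm_pull (T γ⁻¹) (T γ * M * T γ⁻¹) M (by
    rw [← mul_assoc, ← mul_assoc, h2, one_mul]), h _ hF]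
  ext v
  rw [pull_apply]
  rfl

theorem kills_genericO [FiniteDimensional K V] [IsTopologicalGroup Γ] [CompactSpace Γ]
    (T : Γ →* Module.End K V) (φ : Γ) (n s : Module.End K V) (hg : T φ = n + s)
    (hn : IsNilpotent n) (hns : Commute n s) {I : Type} [Fintype I] [DecidableEq I]
    (e : Basis I K V) (lam t : I → K) (hs : ∀ v, s (e v) = lam v • e v) (tt : Module.End K V)
    (htt : ∀ v, tt (e v) = t v • e v)
    (hbal : ∀ (m : I → ℕ) (N : ℕ), 0 < N → (∏ v, lam v ^ m v) ^ N = 1 →
      ∑ v, (m v : K) * t v = 0) : KillsM k T tt := by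
  classical
  intro f hf
  obtain ⟨U, hU⟩ := hf
  obtain ⟨N, hN, hmem⟩ := Frob.exists_pow_mem U φ
  refine Basis.ext_multilinear (fun _ => e) fun w => ?_
  have h1 : Dm tt f (fun i => e (w i)) = (∑ i, t (w i)) * f (fun i => e (w i)) := by
    rw [Dm_apply, Finset.sum_mul]
    refine Finset.sum_congr rfl fun j _ => ?_
    rw [htt, MultilinearMap.map_update_smul, smul_eq_mul]
    congr 2
    exact Function.update_eq_self j (fun i => e (w i))
  rw [h1]
  by_cases h0 : f (fun i => e (w i)) = 0
  · rw [h0, mul_zero]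
    rfl
  · have h2 := balancedO (T φ) n s hg hn hns e lam hs N f (fun v => by
      rw [← map_pow]
      exact hU _ hmem v) w h0
    let m : I → ℕ := fun v => (Finset.univ.filter fun i => w i = v).card
    have h3 : ∏ v, lam v ^ m v = ∏ i, lam (w i) := by
      rw [← Finset.prod_fiberwise (s := Finset.univ) (g := w) (f := fun i => lam (w i))]
      refine Finset.prod_congr rfl fun v _ => ?_
      rw [Finset.prod_congr rfl (g := fun _ => lam v) (fun i hi => by
        rw [(Finset.mem_filter.1 hi).2]), Finset.prod_const]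
    have h4 : ∑ v, (m v : K) * t v = ∑ i, t (w i) := by
      rw [← Finset.sum_fiberwise (s := Finset.univ) (g := w) (f := fun i => t (w i))]
      refine Finset.sum_congr rfl fun v _ => ?_
      rw [Finset.sum_congr rfl (g := fun _ => t v) (fun i hi => by
        rw [(Finset.mem_filter.1 hi).2]), Finset.sum_const, nsmul_eq_mul]
    have h5 := hbal m N hN (by rw [h3]; exact h2)
    rw [← h4, h5, zero_mul]
    rfl

end Pool.Agent.Lib.MP_640417_ag.Orth
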