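import Pool.Agent.Lib.MP_640417_ag.Orth.PairO
import Pool.Agent.Lib.MP_640417_ag.Orth.Cyc
import Pool.Agent.Lib.MP_640417_ag.Orth.GenO
import Pool.Agent.Lib.MP_640417_ag.Orth.Kills
import Pool.Agent.Lib.MP_640417_ag.Orth.FftAll

/-!
# The even degree theorem over an extension of the coefficients
-/

set_option autoImplicit false

namespace Pool.Agent.Lib.MP_640417_ag.Orth

open Module Polynomial Pool.Agent.Lib.MP_640417_ag.Four

section lie

variable {K V : Type} [Field K] [AddCommGroup V] [Module K V] {Γ : Type} [Group Γ]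
  [TopologicalSpace Γ]

/-- The skew elements of `R` which kill all Tate forms in `k` variables. -/
noncomputable def lieO (form : LinearMap.BilinForm K V) (T : Γ →* Module.End K V)
    (k : ℕ) (R : Subalgebra K (Module.End K V)) : Submodule K (Module.End K V) where
  carrier := {M | M ∈ R ∧ Skew form M ∧ KillsM k T M}
  zero_mem' := ⟨R.zero_mem, fun x y => by simp, KillsM.zero⟩
  add_mem' := by
    rintro M M' ⟨h1, h2, h3⟩ ⟨h4, h5, h6⟩
    refine ⟨R.add_mem h1 h4, fun x y => ?_, h3.add h6⟩
    rw [LinearMap.add_apply, LinearMap.add_apply, map_add, map_add, LinearMap.add_apply]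
    linear_combination h2 x y + h5 x y
  smul_mem' := by
    rintro r M ⟨h1, h2, h3⟩
    refine ⟨R.smul_mem h1 r, fun x y => ?_, h3.smul r⟩
    rw [LinearMap.smul_apply, LinearMap.smul_apply, map_smul, map_smul, LinearMap.smul_apply,
      smul_eq_mul, smul_eq_mul]
    linear_combination r * h2 x y

lemma lieO_bracket (form : LinearMap.BilinForm K V) (T : Γ →* Module.End K V)
    (k : ℕ) (R : Subalgebra K (Module.End K V)) {M M' : Module.End K V}
    (hM : M ∈ lieO form T k R) (hM' : M' ∈ lieO form T k R) :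
    M * M' - M' * M ∈ lieO form T k R := by
  obtain ⟨h1, h2, h3⟩ := hM
  obtain ⟨h4, h5, h6⟩ := hM'
  refine ⟨R.sub_mem (R.mul_mem h1 h4) (R.mul_mem h4 h1), fun x y => ?_, h3.comm h6⟩
  simp only [LinearMap.sub_apply, Module.End.mul_apply, map_sub]
  linear_combination h2 (M' x) y - h5 x (M y) - h5 (M x) y + h2 x (M' y)

end lie

theorem mainKO {K V : Type} [Field K] [CharZero K] [AddCommGroup V] [Module K V]
    [FiniteDimensional K V] {form : LinearMap.BilinForm K V} {Γ : Type} [Group Γ]
    [TopologicalSpace Γ] [IsTopologicalGroup Γ] [CompactSpace Γ] (T : Γ →* Module.End K V)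
    (hclosed : ∀ (f : Module.Dual K V) (x : V), IsClosed {γ : Γ | f (T γ x) = 0})
    (hsymm : ∀ x y, form x y = form y x) (hnd : ∀ x, (∀ y, form x y = 0) → x = 0)
    (hinv : ∀ γ x y, form (T γ x) (T γ y) = form x y)
    (htr : ∀ S ∈ Submodule.span K (Set.range T), (∀ γ, LinearMap.trace K V (S * T γ) = 0) → S = 0)
    (hscal : ∀ (U : OpenSubgroup Γ) (c : Module.End K V), (∀ γ ∈ U, c * T γ = T γ * c) →
      ∃ r : K, c = r • (1 : Module.End K V))
    (φ : Γ) (n s : Module.End K V) (hg : T φ = n + s) (hn : IsNilpotent n) (hns : Commute n s)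
    (hsa : s ∈ Algebra.adjoin K {T φ}) {I : Type} [Fintype I] [DecidableEq I] (e : Basis I K V)
    (lam : I → K) (hs : ∀ v, s (e v) = lam v • e v) (u₀ : I)
    (hsimple : ∀ v, lam v = lam u₀ → v = u₀) (hz : lam u₀ ^ 2 ≠ 1)
    (hiso : ∀ a b c, ∀ N : ℕ, 0 < N → (lam u₀ * lam a * lam b * lam c) ^ N = 1 →
      lam u₀ * lam a = 1 ∨ lam u₀ * lam b = 1 ∨ lam u₀ * lam c = 1)
    (k : ℕ) (f : Mf K V k) (hf : TateForm T f) :
    f ∈ Prods form k := by
  classical
  have hTT : ∀ γ, T γ * T γ⁻¹ = 1 := fun γ => by rw [← map_mul, mul_inv_cancel, map_one]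
  have hTT' : ∀ γ, T γ⁻¹ * T γ = 1 := fun γ => by rw [← map_mul, inv_mul_cancel, map_one]
  -- the pairing of eigenvectors
  have hpair : ∀ u v, form (e u) (e v) ≠ 0 → lam u * lam v = 1 := by
    intro u v huv
    let B : Mf K V 2 :=
      { toFun := fun w => form (w 0) (w 1)
        map_update_add' := by
          intro _ m i x y
          fin_cases i
          · simp
          · simp
        map_update_smul' := by
          intro _ m i c x
          fin_cases i
          · simp
          · simp }
    have h1 := balancedO (k := 2) (T φ) n s hg hn hns e lam hs 1 B (by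
      intro w
      rw [pow_one]
      exact hinv φ (w 0) (w 1)) ![u, v] huv
    rw [pow_one, Fin.prod_univ_two] at h1
    exact h1
  have hlam0 : ∀ v, lam v ≠ 0 := by
    intro v hv
    apply e.ne_zero v
    apply hnd
    intro y
    rw [← e.sum_repr y, map_sum]
    refine Finset.sum_eq_zero fun u _ => ?_
    rw [map_smul]
    by_cases h : form (e v) (e u) = 0
    · rw [h, smul_zero]
    · have := hpair v u h
      rw [hv, zero_mul] at this
      exact absurd this zero_ne_one
  -- the generic cocharacter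
  obtain ⟨t, ht1, htbal, ht4⟩ := exists_genericO lam hlam0
  let tt : Module.End K V := e.constr K (fun v => t v • e v)
  have htt : ∀ v, tt (e v) = t v • e v := fun v => e.constr_basis K _ v
  have ht2 : ∀ u v, lam u * lam v = 1 → t u + t v = 0 := by
    intro u v huv
    have h1 := htbal (fun w => (if w = u then 1 else 0) + (if w = v then 1 else 0)) 1 one_pos (by
      simp only [pow_add, Finset.prod_mul_distrib, pow_one]
      rw [Finset.prod_eq_single u, Finset.prod_eq_single v]
      · simp [huv]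
      · intro w _ hw; simp [hw]
      · intro h; exact absurd (Finset.mem_univ _) h
      · intro w _ hw; simp [hw]
      · intro h; exact absurd (Finset.mem_univ _) h)
    simp only [Nat.cast_add, add_mul, Finset.sum_add_distrib] at h1
    rw [Finset.sum_eq_single u, Finset.sum_eq_single v] at h1
    · simpa using h1
    · intro w _ hw; simp [hw]
    · intro h; exact absurd (Finset.mem_univ _) h
    · intro w _ hw; simp [hw]
    · intro h; exact absurd (Finset.mem_univ _) h
  have hskew : Skew form tt := skew_of_basis e t tt htt fun u v h => ht2 u v (hpair u v h)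
  have hkills : KillsM k T tt := kills_genericO T φ n s hg hn hns e lam t hs tt htt htbal
  obtain ⟨P, hP⟩ := exists_aeval e lam t ht1 s tt hs htt
  have htspan : tt ∈ Submodule.span K (Set.range T) := by
    obtain ⟨Q, hQ⟩ := (Algebra.adjoin_singleton_eq_range_aeval K (T φ) ▸ hsa :
      s ∈ (aeval (T φ)).range)
    have h1 : tt = aeval (T φ) (P.comp Q) := by
      rw [aeval_comp]
      have h2 : aeval (T φ) Q = s := hQ
      rw [h2, hP]
    rw [h1]
    exact aeval_mem_span T φ _
  -- the algebra
  let R : Subalgebra K (Module.End K V) :=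
    Algebra.adjoin K (Set.range fun γ => T γ * tt * T γ⁻¹)
  have hgenR : ∀ γ, T γ * tt * T γ⁻¹ ∈ R := fun γ => Algebra.subset_adjoin ⟨γ, rfl⟩
  have hspanmul : ∀ M ∈ Submodule.span K (Set.range T), ∀ N ∈ Submodule.span K (Set.range T),
      M * N ∈ Submodule.span K (Set.range T) := by
    intro M hM N hN
    have h1 : M * N ∈ Submodule.span K (Set.range T) * Submodule.span K (Set.range T) :=
      Submodule.mul_mem_mul hM hN
    rw [Submodule.span_mul_span] at h1
    refine Submodule.span_mono ?_ h1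
    rintro _ ⟨_, ⟨γ, rfl⟩, _, ⟨δ, rfl⟩, rfl⟩
    exact ⟨γ * δ, by rw [map_mul]⟩
  have hRspan : Subalgebra.toSubmodule R ≤ Submodule.span K (Set.range T) := by
    intro M hM
    have hM' : M ∈ R := hM
    induction hM' using Algebra.adjoin_induction with
    | mem x hx =>
      obtain ⟨γ, rfl⟩ := hx
      exact hspanmul _ (hspanmul _ (Submodule.subset_span ⟨γ, rfl⟩) _ htspan) _
        (Submodule.subset_span ⟨γ⁻¹, rfl⟩)
    | algebraMap r =>
      rw [Algebra.algebraMap_eq_smul_one]
      exact Submodule.smul_mem _ _ (Submodule.subset_span ⟨1, map_one T⟩)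
    | add x y hx hy ihx ihy => exact Submodule.add_mem _ (ihx hx) (ihy hy)
    | mul x y hx hy ihx ihy => exact hspanmul _ (ihx hx) _ (ihy hy)
  have hRconj : ∀ γ, ∀ M ∈ R, T γ * M * T γ⁻¹ ∈ R := by
    intro γ M hM
    induction hM using Algebra.adjoin_induction with
    | mem x hx =>
      obtain ⟨δ, rfl⟩ := hx
      have h1 : T γ * (T δ * tt * T δ⁻¹) * T γ⁻¹ = T (γ * δ) * tt * T (γ * δ)⁻¹ := by
        rw [map_mul, mul_inv_rev, map_mul]
        simp only [mul_assoc]
      rw [h1]
      exact hgenR _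
    | algebraMap r =>
      rw [Algebra.algebraMap_eq_smul_one, mul_smul_comm, smul_mul_assoc, mul_one, hTT]
      exact R.smul_mem R.one_mem r
    | add x y hx hy ihx ihy =>
      rw [mul_add, add_mul]
      exact R.add_mem ihx ihy
    | mul x y hx hy ihx ihy =>
      have h1 : T γ * (x * y) * T γ⁻¹ = (T γ * x * T γ⁻¹) * (T γ * y * T γ⁻¹) := by
        calc T γ * (x * y) * T γ⁻¹ = T γ * x * (T γ⁻¹ * T γ) * (y * T γ⁻¹) := by
              rw [hTT', mul_one]; simp only [mul_assoc]
          _ = _ := by simp only [mul_assoc]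
      rw [h1]
      exact R.mul_mem ihx ihy
  let L := lieO form T k R
  have hconjL : ∀ γ, T γ * tt * T γ⁻¹ ∈ L := by
    intro γ
    refine ⟨hgenR γ, fun x y => ?_, hkills.conj γ⟩
    have h1 : x = T γ (T γ⁻¹ x) := by
      rw [← Module.End.mul_apply, hTT, Module.End.one_apply]
    have h2 : y = T γ (T γ⁻¹ y) := by
      rw [← Module.End.mul_apply, hTT, Module.End.one_apply]
    have h3 : form ((T γ * tt * T γ⁻¹) x) y = form (tt (T γ⁻¹ x)) (T γ⁻¹ y) := by
      rw [← hinv γ (tt (T γ⁻¹ x)) (T γ⁻¹ y), ← h2]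
      rfl
    have h4 : form x ((T γ * tt * T γ⁻¹) y) = form (T γ⁻¹ x) (tt (T γ⁻¹ y)) := by
      rw [← hinv γ (T γ⁻¹ x) (tt (T γ⁻¹ y)), ← h1]
      rfl
    rw [h3, h4]
    exact hskew _ _
  have httL : tt ∈ L := by
    have h1 := hconjL 1
    have h2 : T 1 * tt * T 1⁻¹ = tt := by
      rw [_root_.inv_one, map_one T, one_mul, mul_one]
    rwa [h2] at h1
  have hctx : CtxO form L R tt := by
    refine ⟨hsymm, hnd, fun M hM => hM.2.1, fun M hM M' hM' => lieO_bracket form T k R hM hM',
      httL, fun M hM => hM.1, ?_⟩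
    intro Y hY M hM
    induction hM using Algebra.adjoin_induction with
    | mem x hx =>
      obtain ⟨γ, rfl⟩ := hx
      exact fun y hy => hY _ (hconjL γ) y hy
    | algebraMap r =>
      intro y hy
      exact Y.smul_mem r hy
    | add x y hx hy ihx ihy => exact fun z hz => Y.add_mem (ihx z hz) (ihy z hz)
    | mul x y hx hy ihx ihy => exact fun z hz => ihx _ (ihy z hz)
  -- the isolated pair
  obtain ⟨e', he', hl1, hl2⟩ := exists_pairO hsymm hnd e lam hlam0 hpair t ht2 ht4 tt htt u₀ hsimple
    hz hiso L (fun M hM => hM.2.1) (fun M hM => hctx.bracket _ httL _ hM)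
  have he'0 : e' ≠ 0 := by
    rintro rfl
    have := he'.pair
    rw [map_zero] at this
    exact zero_ne_one this
  have hc1 : Rm R (e u₀) = ⊤ := cyclic_top T hclosed htr hscal R hRspan hRconj tt httL.1 (t u₀) _
    (e.ne_zero u₀) (htt u₀) hl1
  have hc2 : Rm R e' = ⊤ := cyclic_top T hclosed htr hscal R hRspan hRconj tt httL.1 (- t u₀) _
    he'0 he'.eig' hl2
  exact fft_all form hsymm hnd k f fun x y => (full_of_cyclic hctx he' hl1 hl2 hc1 hc2 x y).2.2 f hf

end Pool.Agent.Lib.MP_640417_ag.Orth
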