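import Pool.Agent.Lib.MP_640417_ag.Orth.MainKO
import Pool.Agent.Lib.MP_640417_ag.Orth.Bc
import Pool.Agent.Lib.MP_640417_ag.Orth.BcA
import Pool.Agent.Lib.MP_640417_ag.Orth.BaseO
import Pool.Agent.Lib.MP_640417_ag.Orth.JordanO
import Pool.Agent.Lib.MP_640417_ag.Four.General

/-!
# The even degree theorem: one isolated eigenvalue
-/

set_option autoImplicit false

namespace Pool.Agent.Lib.MP_640417_ag.Orth

open Module Polynomial TensorProduct Pool.Agent.Lib.MP_640417_ag.Frob
  Pool.Agent.Lib.MP_640417_ag.Four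

theorem tate_even {Γ : Type} [Group Γ] [TopologicalSpace Γ] [IsTopologicalGroup Γ]
    [CompactSpace Γ] {F : Type} [Field F] [CharZero F] [TopologicalSpace F] [IsTopologicalRing F]
    [T1Space F] {V : Type} [AddCommGroup V] [Module F V] [FiniteDimensional F V]
    (ρ : OrthRep Γ F V) (hss : Semisimple ρ) (hsc : ScalarCommutant ρ) (φ : Γ)
    (z : AlgebraicClosure F) (hz : IsoEig ρ φ z) (k : ℕ) (f : Mf F V k)
    (hf : TateForm ρ.T f) : f ∈ Prods ρ.form k := by
  classical
  let K : Type := AlgebraicClosure F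
  have hcharK : CharZero K := charZero_of_injective_algebraMap (algebraMap F K).injective
  obtain ⟨g, hg⟩ := exists_bcM K f
  apply prods_descent K ρ.form f g hg
  let T' : Γ →* Module.End K (K ⊗[F] V) :=
    ((Module.End.baseChangeHom F K V : Module.End F V →ₐ[F] Module.End K (K ⊗[F] V)) :
      Module.End F V →* Module.End K (K ⊗[F] V)).comp ρ.T
  have hT' : ∀ γ, T' γ = (ρ.T γ).baseChange K := fun γ => rfl
  obtain ⟨n, s, I, hI1, hI2, e, lam, hns1, hn, hns, hsa, he, hroot, hroot', hone⟩ :=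
    exists_jordan (T' φ)
  have hchar : (T' φ).charpoly = (ρ.T φ).charpoly.map (algebraMap F K) := by
    rw [hT', LinearMap.charpoly_baseChange]
  have hiff : ∀ y : K, (T' φ).charpoly.IsRoot y ↔ aeval y (ρ.T φ).charpoly = 0 := by
    intro y
    rw [hchar, IsRoot.def, eval_map, aeval_def]
  have hzroot : (T' φ).charpoly.IsRoot z := by
    rw [hchar, ← rootMultiplicity_pos ((LinearMap.charpoly_monic _).map _).ne_zero, hz.1]
    exact one_pos
  obtain ⟨u₀, hu₀⟩ := hroot' z hzroot
  have hss' : ∀ W : Submodule F V, (∀ γ, ∀ y ∈ W, ρ.T γ y ∈ W) →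
    ∃ W' : Submodule F V, (∀ γ, ∀ y ∈ W', ρ.T γ y ∈ W') ∧ IsCompl W W' := hss
  refine mainKO (form := ρ.form.baseChange K) T' ?_ (symm_baseChange K ρ.form ρ.form_symm)
    (nondeg_baseChangeO K ρ.form ρ.form_symm ρ.form_nondeg) ?_ ?_ ?_ φ n s hns1 hn hns hsa e lam he
    u₀ ?_ ?_ ?_ k g (tate_bc K ρ.T T' hT' f hf g hg)
  · intro f z
    exact closed_baseChange K (fun γ => ρ.T γ) ρ.continuous_coeff f z
  · intro γ x y
    have h1 := equivariant_baseChange K ρ.form (ρ.T γ) 1 (fun x y => by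
      rw [one_mul]; exact ρ.form_invariant γ x y) x y
    rw [map_one, one_mul] at h1
    exact h1
  · intro S hS htr
    exact trace_nondeg_baseChange (fun γ => ρ.T γ) (pTrace Γ F V ρ.T hss') S hS htr
  · intro U c hc
    exact scalar_baseChange K (fun γ => ρ.T γ) (U : Set Γ) (fun c hc => hsc c ⟨U, hc⟩) c hc
  · intro v hv
    refine hone u₀ v ?_ hv
    rw [hu₀, hchar]
    exact hz.1
  · rw [hu₀]
    exact hz.2.1
  · intro a b c N hN hrel
    rw [hu₀] at hrel ⊢
    exact hz.2.2 (lam a) (lam b) (lam c) ((hiff _).mp (hroot a)) ((hiff _).mp (hroot b))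
      ((hiff _).mp (hroot c)) N hN hrel

end Pool.Agent.Lib.MP_640417_ag.Orth
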