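import Pool.Agent.Lib.MP_640417_ag.Orth.Aa

/-!
# MP_640417_ag, Orth, module StructO: the full orthogonal Lie algebra

Notation: `B = form`, `a(x, y) = aa form x y`, `W = WA form L e`, `W' = WA form L e'` (see `mem_WA`), `e ∈ W`, `e' ∈ W'` (`aa_self`),
`B(e, e) = B(e', e') = 0` (skewness of `t`: `2 τ B(e, e) = 0`, `τ ≠ 0`).
(1) For `M ∈ L`: `M e = k e + w`, `w ∈ W'` with `B(w, e) = B(M e, e) - k B(e, e) = 0` (`M` skew, `B(M e, e) = 0`).
    In the same way `M e' = k' e' + w'`, `w' ∈ W`, `B(w', e') = 0`.
(2) BRACKET (`comm_aa`): for `w ∈ W'`, `w' ∈ W`: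
    `a(w, w') - B(e, w) a(e', w') + B(w', e') a(e, w) - B(w', w) a(e, e') ∈ L`.
(3) For `w ∈ W'` with `B(e, w) = 0` and `M ∈ L`, `M e' = k' e' + w'` as in (1): `[M, a(e', w)] = k' a(e', w) + a(w', w) + a(e', M w) ∈ L`,
    add (2) (where `B(e, w) = 0 = B(w', e')`): `a(e', M w) - B(w', w) a(e, e') ∈ L`, so `M w + B(w', w) e ∈ W'` (`a(e, e') = -a(e', e)`).
(4) There is `w ∈ W'` with `B(e, w) = 0`, `B(w, w) ≠ 0`: otherwise `Y = K e + {w ∈ W' | B(e, w) = 0}` is isotropic and `L`-stable
    by (1) and (3), so `Y = ⊤`, but `B(e, e') = 1`.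
(F) For `w ∈ W'` with `B(e, w) = 0`: `B(w, e') a(e, e') ∈ L`. Let `W'_0 = {w ∈ W' | B(e, w) = 0}`, which is `t`-stable. If
    `t - τ` is injective on `W'_0`, it is surjective, and `B(., e')` vanishes on its image. Otherwise `e ∈ W'_0` by `hl`.
(5) `{w' ∈ W | B(w', e') = 0} ≤ W'`: let `w` be as in (4), `A = a(e', w) ∈ L`, `X = a(e, w') ∈ L`, `c = B(w, e')`. Then
    `A e = w`, `A e' = -c e'`, `A w = c w - B(w, w) e'`, `A w' = -B(w, w') e'`, so `[A, X] = a(w, w') - B(w, w') a(e, e')` and
    `[A, [A, X]] - c [A, X] = -B(w, w) a(e', w') + 2 B(w, w') a(e', w) + 2 c B(w, w') a(e, e')`, and `c a(e, e') ∈ L` by (F).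
(6) `D = W ∩ W'` contains `{w ∈ W' | B(e, w) = 0}` and `{w ∈ W | B(e', w) = 0}`, and `K e + K e' + D` is `L`-stable, so it is `⊤`.
(7) For `u, u' ∈ D` (2) gives `a(u, u') - B(u', u) a(e, e') ∈ L`; with `u = u' = w` from (4) `a(e, e') ∈ L`; so all
    `a(x, y) ∈ L`.
-/

set_option autoImplicit false

namespace Pool.Agent.Lib.MP_640417_ag.Orth

open Module Pool.Agent.Lib.MP_640417_ag.Four

/-- A Lie algebra `L` of skew endomorphisms with a diagonalizable element `t`, which generates the
semisimple algebra `R`. -/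
structure CtxO {K V : Type} [Field K] [AddCommGroup V] [Module K V]
    (form : LinearMap.BilinForm K V) (L : Submodule K (Module.End K V))
    (R : Subalgebra K (Module.End K V)) (t : Module.End K V) : Prop where
  symm : ∀ x y, form x y = form y x
  nondeg : ∀ x, (∀ y, form x y = 0) → x = 0
  skew : ∀ M ∈ L, Skew form M
  bracket : ∀ M ∈ L, ∀ M' ∈ L, M * M' - M' * M ∈ L
  tmem : t ∈ L
  le : ∀ M ∈ L, M ∈ R
  gen : ∀ Y : Submodule K V, (∀ M ∈ L, ∀ y ∈ Y, M y ∈ Y) → ∀ M ∈ R, ∀ y ∈ Y, M y ∈ Y

/-- An isolated pair of eigenvectors. -/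
structure IsoPairO {K V : Type} [Field K] [AddCommGroup V] [Module K V]
    (form : LinearMap.BilinForm K V) (L : Submodule K (Module.End K V))
    (t : Module.End K V) (τ : K) (e e' : V) : Prop where
  ne : τ ≠ 0
  eig : t e = τ • e
  eig' : t e' = -τ • e'
  pair : form e e' = 1
  img' : ∀ M ∈ L, ∃ (k : K) (w : V), M e' = k • e' + w ∧ aa form e w ∈ L
  img : ∀ M ∈ L, ∃ (k : K) (w : V), M e = k • e + w ∧ aa form e' w ∈ L

section main

variable {K V : Type} [Field K] [CharZero K] [AddCommGroup V] [Module K V]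
  {form : LinearMap.BilinForm K V} {L : Submodule K (Module.End K V)}
  {R : Subalgebra K (Module.End K V)} {t : Module.End K V} {τ : K} {e e' : V}

omit [CharZero K] in
private lemma swapO (h : CtxO form L R t) (he : IsoPairO form L t τ e e') :
    IsoPairO form L t (-τ) e' e where
  ne := neg_ne_zero.mpr he.ne
  eig := he.eig'
  eig' := by rw [neg_neg]; exact he.eig
  pair := by rw [h.symm]; exact he.pair
  img' := he.img
  img := he.img'

private lemma skew_self (h : CtxO form L R t) {M : Module.End K V} (hM : M ∈ L) (x : V) :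
    form (M x) x = 0 := by
  have h1 := h.skew M hM x x
  rw [h.symm x (M x), ← two_mul] at h1
  exact (mul_eq_zero.mp h1).resolve_left two_ne_zero

private lemma iso_e (h : CtxO form L R t) (he : IsoPairO form L t τ e e') : form e e = 0 := by
  have h1 := skew_self h h.tmem e
  rw [he.eig, map_smul, LinearMap.smul_apply, smul_eq_mul] at h1
  exact (mul_eq_zero.mp h1).resolve_left he.ne

/-- Step (1). -/
private lemma img_e (h : CtxO form L R t) (he : IsoPairO form L t τ e e') {M : Module.End K V}
    (hM : M ∈ L) : ∃ (k : K) (w : V), M e = k • e + w ∧ aa form e' w ∈ L ∧ form e w = 0 := by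
  obtain ⟨k, w, h1, h2⟩ := he.img M hM
  refine ⟨k, w, h1, h2, ?_⟩
  have h3 := skew_self h hM e
  rw [h1, map_add, LinearMap.add_apply, map_smul, LinearMap.smul_apply, iso_e h he, smul_zero,
    zero_add, h.symm] at h3
  exact h3

omit [CharZero K] in
/-- Step (2). -/
private lemma brk (h : CtxO form L R t) (he : IsoPairO form L t τ e e') {w w' : V}
    (hw : aa form e' w ∈ L) (hw' : aa form e w' ∈ L) :
    aa form w w' - form e w • aa form e' w' + form w' e' • aa form e w -
      form w' w • aa form e e' ∈ L := by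
  have h1 := h.bracket _ hw _ hw'
  rw [comm_aa (aa_skew h.symm e' w), aa_apply, aa_apply, he.pair, one_smul] at h1
  have h2 : aa form w w' - form e w • aa form e' w' + form w' e' • aa form e w -
      form w' w • aa form e e' = aa form (w - form e w • e') w' +
        aa form e (form w' e' • w - form w' w • e') := by
    ext x
    simp only [aa_apply, LinearMap.sub_apply, LinearMap.add_apply, LinearMap.smul_apply, map_sub,
      map_smul, smul_eq_mul]
    module
  rw [h2]
  exact h1

omit [CharZero K] in
/-- Step (3). -/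
private lemma step3 (h : CtxO form L R t) (he : IsoPairO form L t τ e e') {M : Module.End K V}
    (hM : M ∈ L) {k' : K} {w' : V} (h1 : M e' = k' • e' + w') (h2 : aa form e w' ∈ L)
    (h3 : form w' e' = 0) {w : V} (hw : aa form e' w ∈ L) (h0 : form e w = 0) :
    aa form e' (M w + form w' w • e) ∈ L := by
  have h4 := h.bracket M hM _ hw
  rw [comm_aa (h.skew M hM), h1] at h4
  have h5 := brk h he hw h2
  rw [h0, h3, zero_smul, zero_smul] at h5
  have h6 : aa form e' (M w + form w' w • e) = (aa form (k' • e' + w') w + aa form e' (M w)) +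
      (aa form w w' - 0 + 0 - form w' w • aa form e e') - k' • aa form e' w := by
    ext x
    simp only [aa_apply, LinearMap.sub_apply, LinearMap.add_apply, LinearMap.smul_apply, map_add,
      map_smul, smul_eq_mul, LinearMap.zero_apply]
    module
  rw [h6]
  exact L.sub_mem (L.add_mem h4 h5) (L.smul_mem _ hw)

/-- Step (4). -/
private lemma step4 (h : CtxO form L R t) (he : IsoPairO form L t τ e e') (h1 : Rm R e = ⊤) :
    ∃ w, aa form e' w ∈ L ∧ form e w = 0 ∧ form w w ≠ 0 := by
  by_contra hcon
  push Not at hcon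
  have hee := iso_e h he
  have hpol : ∀ w w₀, aa form e' w ∈ L → form e w = 0 → aa form e' w₀ ∈ L → form e w₀ = 0 →
      form w w₀ = 0 := by
    intro w w₀ hw hw0 hw₀ hw₀0
    have h2 := hcon (w + w₀) (by rw [aa_add]; exact L.add_mem hw hw₀) (by
      rw [map_add, hw0, hw₀0, add_zero])
    simp only [map_add, LinearMap.add_apply, hcon w hw hw0, hcon w₀ hw₀ hw₀0, zero_add, add_zero] at h2
    rw [h.symm w₀ w, ← two_mul] at h2
    exact (mul_eq_zero.mp h2).resolve_left two_ne_zero
  let Y : Submodule K V :=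
    { carrier := {y | ∃ (k : K) (w : V), y = k • e + w ∧ aa form e' w ∈ L ∧ form e w = 0}
      zero_mem' := ⟨0, 0, by simp, by
        have : aa form e' 0 = 0 := by ext x; simp [aa_apply]
        rw [this]; exact L.zero_mem, by simp⟩
      add_mem' := by
        rintro _ _ ⟨k, w, rfl, hw, hw0⟩ ⟨k₁, w₁, rfl, hw₁, hw₁0⟩
        exact ⟨k + k₁, w + w₁, by module, by rw [aa_add]; exact L.add_mem hw hw₁, by
          rw [map_add, hw0, hw₁0, add_zero]⟩
      smul_mem' := by
        rintro r _ ⟨k, w, rfl, hw, hw0⟩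
        exact ⟨r * k, r • w, by module, by rw [aa_smul]; exact L.smul_mem _ hw, by
          rw [map_smul, hw0, smul_zero]⟩ }
  have hYM : ∀ M ∈ L, ∀ y ∈ Y, M y ∈ Y := by
    rintro M hM _ ⟨k, w, rfl, hw, hw0⟩
    have hMe : M e ∈ Y := img_e h he hM
    obtain ⟨k', w', g1, g2, g3⟩ := img_e h (swapO h he) hM
    rw [h.symm] at g3
    have h3 := step3 h he hM g1 g2 g3 hw hw0
    have hMw : M w ∈ Y := by
      refine ⟨-form w' w, M w + form w' w • e, by module, h3, ?_⟩
      rw [map_add, map_smul, hee, smul_zero, add_zero]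
      obtain ⟨k₁, w₁, f1, f2, f3⟩ := img_e h he hM
      have h4 := h.skew M hM e w
      rw [f1, map_add, LinearMap.add_apply, map_smul, LinearMap.smul_apply, hw0,
        hpol w₁ w f2 f3 hw hw0, smul_zero, add_zero, zero_add] at h4
      exact h4
    rw [map_add, map_smul]
    exact Y.add_mem (Y.smul_mem _ hMe) hMw
  have heY : e ∈ Y := ⟨1, 0, by simp, by
    have : aa form e' 0 = 0 := by ext x; simp [aa_apply]
    rw [this]; exact L.zero_mem, by simp⟩
  have htop : e' ∈ Y := by
    have h3 : e' ∈ Rm R e := by rw [h1]; trivial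
    obtain ⟨M, hM, h4⟩ := h3
    change M e = e' at h4
    rw [← h4]
    exact h.gen Y hYM M hM e heY
  obtain ⟨k, w, h5, h6, h7⟩ := htop
  have h8 := he.pair
  rw [h5, map_add, map_smul, hee, h7, smul_zero, add_zero] at h8
  exact zero_ne_one h8

omit [CharZero K] in
/-- Step (F). -/
private lemma stepF [FiniteDimensional K V] (h : CtxO form L R t)
    (he : IsoPairO form L t τ e e') (hl : ∀ y, t y = τ • y → ∃ k : K, y = k • e) {w : V}
    (hw : aa form e' w ∈ L) (hw0 : form e w = 0) : form w e' • aa form e e' ∈ L := by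
  let W₀ : Submodule K V := WA form L e' ⊓ LinearMap.ker (form e)
  have hmem : ∀ x, x ∈ W₀ ↔ aa form e' x ∈ L ∧ form e x = 0 := fun x => Iff.rfl
  have hstab : ∀ x ∈ W₀, (t - τ • (LinearMap.id : V →ₗ[K] V)) x ∈ W₀ := by
    intro x hx
    rw [hmem] at hx ⊢
    have h1 := h.bracket t h.tmem _ hx.1
    rw [comm_aa (h.skew t h.tmem), he.eig'] at h1
    have h3 := h.skew t h.tmem e x
    rw [he.eig, map_smul, LinearMap.smul_apply, hx.2, smul_zero, zero_add] at h3
    refine ⟨?_, ?_⟩
    · have h2 : aa form e' ((t - τ • (LinearMap.id : V →ₗ[K] V)) x) =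
          (aa form (-τ • e') x + aa form e' (t x)) := by
        ext z
        simp only [aa_apply, LinearMap.sub_apply, LinearMap.add_apply, LinearMap.smul_apply,
          map_sub, map_smul, smul_eq_mul, LinearMap.id_apply]
        module
      rw [h2]
      exact h1
    · simp only [LinearMap.sub_apply, LinearMap.smul_apply, LinearMap.id_apply, map_sub, map_smul,
        hx.2, h3, smul_zero, sub_zero]
  let g : W₀ →ₗ[K] W₀ := (t - τ • (LinearMap.id : V →ₗ[K] V)).restrict hstab
  by_cases hg : Function.Injective g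
  · have hs : Function.Surjective g := LinearMap.injective_iff_surjective.mp hg
    obtain ⟨⟨x, hx⟩, hgx⟩ := hs ⟨w, hw, hw0⟩
    have h1 : t x - τ • x = w := congrArg Subtype.val hgx
    have h2 := h.skew t h.tmem x e'
    rw [he.eig', map_smul, smul_eq_mul] at h2
    have h3 : form w e' = 0 := by
      rw [← h1, map_sub, LinearMap.sub_apply, map_smul, LinearMap.smul_apply, smul_eq_mul]
      linear_combination h2
    rw [h3, zero_smul]
    exact L.zero_mem
  · rw [injective_iff_map_eq_zero] at hg
    push Not at hg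
    obtain ⟨⟨x, hx⟩, hgx, hx0⟩ := hg
    have h1 : t x - τ • x = 0 := congrArg Subtype.val hgx
    have hx0' : x ≠ 0 := fun h0 => hx0 (Subtype.ext h0)
    obtain ⟨k, hk⟩ := hl x (sub_eq_zero.mp h1)
    have hk0 : k ≠ 0 := by
      rintro rfl
      rw [zero_smul] at hk
      exact hx0' hk
    have h2 : aa form e' (k • e) ∈ L := by
      rw [← hk]
      exact hx.1
    rw [aa_smul, aa_anti, smul_neg] at h2
    have h3 : aa form e e' = -k⁻¹ • -(k • aa form e e') := by
      rw [smul_neg, neg_smul, neg_neg, smul_smul, inv_mul_cancel₀ hk0, one_smul]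
    rw [h3]
    exact L.smul_mem _ (L.smul_mem _ h2)

/-- Step (5). -/
private lemma step5 [FiniteDimensional K V] (h : CtxO form L R t)
    (he : IsoPairO form L t τ e e') (hl : ∀ y, t y = τ • y → ∃ k : K, y = k • e)
    (h1 : Rm R e = ⊤) {w' : V} (hw' : aa form e w' ∈ L) (hw'0 : form w' e' = 0) :
    aa form e' w' ∈ L := by
  obtain ⟨w, hw, hw0, hq⟩ := step4 h he h1
  have hF := stepF h he hl hw hw0
  have he'e' := iso_e h (swapO h he)
  have hA1 : aa form e' w e = w := by
    rw [aa_apply, he.pair, hw0, one_smul, zero_smul, sub_zero]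
  have hA2 : aa form e' w e' = -(form w e') • e' := by
    rw [aa_apply, he'e', zero_smul, zero_sub, h.symm e' w, neg_smul]
  have hA3 : aa form e' w w = form w e' • w - form w w • e' := aa_apply _ _ _ _
  have hA4 : aa form e' w w' = -(form w' w) • e' := by
    rw [aa_apply, hw'0, zero_smul, zero_sub, neg_smul]
  have hs := aa_skew h.symm e' w
  have g1 := brk h he hw hw'
  rw [hw0, hw'0, zero_smul, zero_smul, sub_zero, add_zero] at g1
  have g2 := h.bracket _ hw _ g1
  have g3 : aa form e' w * (aa form w w' - form w' w • aa form e e') -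
      (aa form w w' - form w' w • aa form e e') * aa form e' w =
      (aa form (form w e' • w - form w w • e') w' + aa form w (-(form w' w) • e')) -
        form w' w • (aa form w e' + aa form e (-(form w e') • e')) := by
    have c1 := comm_aa hs w w'
    have c2 := comm_aa hs e e'
    rw [hA3, hA4] at c1
    rw [hA1, hA2] at c2
    rw [← c1, ← c2, mul_sub, sub_mul, mul_smul_comm, smul_mul_assoc]
    module
  rw [g3] at g2
  have g4 : aa form e' w' = (form w w)⁻¹ • (-((aa form (form w e' • w - form w w • e') w' +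
      aa form w (-(form w' w) • e')) - form w' w • (aa form w e' + aa form e (-(form w e') • e'))) +
      form w e' • (aa form w w' - form w' w • aa form e e') +
      (2 * form w' w) • (form w e' • aa form e e') + (2 * form w' w) • aa form e' w) := by
    have g5 : (-((aa form (form w e' • w - form w w • e') w' +
      aa form w (-(form w' w) • e')) - form w' w • (aa form w e' + aa form e (-(form w e') • e'))) +
      form w e' • (aa form w w' - form w' w • aa form e e') +
      (2 * form w' w) • (form w e' • aa form e e') + (2 * form w' w) • aa form e' w) =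
      form w w • aa form e' w' := by
      ext x
      simp only [aa_apply, LinearMap.sub_apply, LinearMap.add_apply, LinearMap.smul_apply, map_sub,
        map_smul, smul_eq_mul, LinearMap.neg_apply]
      module
    rw [g5, smul_smul, inv_mul_cancel₀ hq, one_smul]
  rw [g4]
  exact L.smul_mem _ (L.add_mem (L.add_mem (L.add_mem (L.neg_mem g2) (L.smul_mem _ g1))
    (L.smul_mem _ hF)) (L.smul_mem _ hw))

end main

theorem full_of_cyclic {K V : Type} [Field K] [CharZero K] [AddCommGroup V] [Module K V]
    [FiniteDimensional K V] {form : LinearMap.BilinForm K V} {L : Submodule K (Module.End K V)}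
    {R : Subalgebra K (Module.End K V)} {t : Module.End K V} (h : CtxO form L R t) {τ : K}
    {e e' : V} (he : IsoPairO form L t τ e e') (hl : ∀ y, t y = τ • y → ∃ k : K, y = k • e)
    (hl' : ∀ y, t y = -τ • y → ∃ k : K, y = k • e') (h1 : Rm R e = ⊤) (h2 : Rm R e' = ⊤)
    (x y : V) : aa form x y ∈ L := by
  have he' := swapO h he
  have hee := iso_e h he
  have he'e' := iso_e h he'
  have hpair' : form e' e = 1 := he'.pair
  -- step (5) for both pairs
  have a5 : ∀ w', aa form e w' ∈ L → form w' e' = 0 → aa form e' w' ∈ L :=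
    fun w' g1 g2 => step5 h he hl h1 g1 g2
  have b5 : ∀ w', aa form e' w' ∈ L → form w' e = 0 → aa form e w' ∈ L :=
    fun w' g1 g2 => step5 h he' hl' h2 g1 g2
  -- the space D
  let D : Submodule K V := WA form L e ⊓ WA form L e'
  have hD : ∀ u, u ∈ D ↔ aa form e u ∈ L ∧ aa form e' u ∈ L := fun u => Iff.rfl
  let Y : Submodule K V := Submodule.span K {e, e'} ⊔ D
  have heY : e ∈ Y := Submodule.mem_sup_left (Submodule.subset_span (Set.mem_insert _ _))
  have he'Y : e' ∈ Y :=
    Submodule.mem_sup_left (Submodule.subset_span (Set.mem_insert_of_mem _ rfl))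
  have hDY : ∀ u, aa form e u ∈ L → aa form e' u ∈ L → u ∈ Y :=
    fun u g1 g2 => Submodule.mem_sup_right ⟨g1, g2⟩
  -- the space W' lies in Y
  have hself : aa form e' e' ∈ L := by rw [aa_self]; exact L.zero_mem
  have hW'0 : ∀ u, aa form e' u ∈ L → form e u = 0 → u ∈ Y :=
    fun u g1 g2 => hDY u (b5 u g1 (by rw [h.symm]; exact g2)) g1
  have hW' : ∀ u, aa form e' u ∈ L → u ∈ Y := by
    intro u hu
    have g1 : u = form e u • e' + (u - form e u • e') := by module
    rw [g1]
    refine Y.add_mem (Y.smul_mem _ he'Y) (hW'0 _ ?_ ?_)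
    · have g2 : aa form e' (u - form e u • e') = aa form e' u - form e u • aa form e' e' := by
        rw [sub_eq_add_neg, ← neg_smul, aa_add, aa_smul, neg_smul, ← sub_eq_add_neg]
      rw [g2]
      exact L.sub_mem hu (L.smul_mem _ hself)
    · rw [map_sub, map_smul, he.pair, smul_eq_mul, mul_one, sub_self]
  have hY : ∀ M ∈ L, ∀ z ∈ Y, M z ∈ Y := by
    intro M hM
    obtain ⟨k, w, f1, f2, f3⟩ := img_e h he hM
    obtain ⟨k', w', g1, g2, g3⟩ := img_e h he' hM
    rw [h.symm] at g3
    have hMe : M e ∈ Y := by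
      rw [f1]
      exact Y.add_mem (Y.smul_mem _ heY) (hW' w f2)
    have hMe' : M e' ∈ Y := by
      rw [g1]
      exact Y.add_mem (Y.smul_mem _ he'Y) (hDY w' g2 (a5 w' g2 g3))
    have hle : Y ≤ Y.comap M := by
      refine sup_le ?_ ?_
      · rw [Submodule.span_le]
        rintro z (rfl | hz)
        · exact hMe
        · rw [Set.mem_singleton_iff] at hz
          rw [hz]
          exact hMe'
      · intro u hu
        rw [hD] at hu
        change M u ∈ Y
        have k1 : u = form e u • e' + (u - form e u • e') := by module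
        rw [k1, map_add, map_smul]
        refine Y.add_mem (Y.smul_mem _ hMe') ?_
        have k2 : aa form e' (u - form e u • e') ∈ L := by
          have k3 : aa form e' (u - form e u • e') = aa form e' u - form e u • aa form e' e' := by
            rw [sub_eq_add_neg, ← neg_smul, aa_add, aa_smul, neg_smul, ← sub_eq_add_neg]
          rw [k3]
          exact L.sub_mem hu.2 (L.smul_mem _ hself)
        have k4 : form e (u - form e u • e') = 0 := by
          rw [map_sub, map_smul, he.pair, smul_eq_mul, mul_one, sub_self]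
        have k5 := hW' _ (step3 h he hM g1 g2 g3 k2 k4)
        have k6 := Y.sub_mem k5 (Y.smul_mem (form w' (u - form e u • e')) heY)
        rwa [add_sub_cancel_right] at k6
    exact fun z hz => hle hz
  have htop : ∀ z, z ∈ Y := by
    intro z
    have g1 : z ∈ Rm R e := by rw [h1]; trivial
    obtain ⟨M, hM, g2⟩ := g1
    change M e = z at g2
    rw [← g2]
    exact h.gen Y hY M hM e heY
  -- a(e, e') lies in L
  have hbr : ∀ u u', aa form e u ∈ L → aa form e' u ∈ L → aa form e u' ∈ L → aa form e' u' ∈ L →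
      aa form u u' - form u' u • aa form e e' ∈ L := by
    intro u u' g1 g2 g3 g4
    have g5 := brk h he g2 g3
    have g6 : aa form u u' - form u' u • aa form e e' =
        (aa form u u' - form e u • aa form e' u' + form u' e' • aa form e u -
        form u' u • aa form e e') + form e u • aa form e' u' - form u' e' • aa form e u := by module
    rw [g6]
    exact L.sub_mem (L.add_mem g5 (L.smul_mem _ g4)) (L.smul_mem _ g1)
  have hep : aa form e e' ∈ L := by
    obtain ⟨w, g1, g2, g3⟩ := step4 h he h1
    have g4 := b5 w g1 (by rw [h.symm]; exact g2)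
    have g5 := hbr w w g4 g1 g4 g1
    rw [aa_self, zero_sub] at g5
    have g6 : aa form e e' = -(form w w)⁻¹ • -(form w w • aa form e e') := by
      rw [smul_neg, neg_smul, neg_neg, smul_smul, inv_mul_cancel₀ g3, one_smul]
    rw [g6]
    exact L.smul_mem _ g5
  have hDD : ∀ u ∈ D, ∀ u' ∈ D, aa form u u' ∈ L := by
    intro u hu u' hu'
    have g1 := hbr u u' hu.1 hu.2 hu'.1 hu'.2
    have g2 : aa form u u' = (aa form u u' - form u' u • aa form e e') +
        form u' u • aa form e e' := by module
    rw [g2]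
    exact L.add_mem g1 (L.smul_mem _ hep)
  -- all of it
  have hall : ∀ a : V, aa form a e ∈ L → aa form a e' ∈ L → (∀ u ∈ D, aa form a u ∈ L) →
      ∀ z, aa form a z ∈ L := by
    intro a g1 g2 g3 z
    have hle : Y ≤ WA form L a := by
      refine sup_le ?_ fun u hu => g3 u hu
      rw [Submodule.span_le]
      rintro z (rfl | hz)
      · exact g1
      · rw [Set.mem_singleton_iff] at hz
        rw [hz]
        exact g2
    exact hle (htop z)
  have hanti : ∀ a b : V, aa form a b ∈ L → aa form b a ∈ L := by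
    intro a b g
    rw [aa_anti]
    exact L.neg_mem g
  have c1 : ∀ z, aa form e z ∈ L :=
    hall e (by rw [aa_self]; exact L.zero_mem) hep fun u hu => hu.1
  have c2 : ∀ z, aa form e' z ∈ L :=
    hall e' (hanti _ _ hep) hself fun u hu => hu.2
  have c3 : ∀ u ∈ D, ∀ z, aa form u z ∈ L := fun u hu =>
    hall u (hanti _ _ (c1 u)) (hanti _ _ (c2 u)) fun u' hu' => hDD u hu u' hu'
  exact hall x (hanti _ _ (c1 x)) (hanti _ _ (c2 x)) (fun u hu => hanti _ _ (c3 u hu x)) y

end Pool.Agent.Lib.MP_640417_ag.Orth
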