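import Pool.Agent.Lib.MP_640417_ag.Orth.Rank
import Pool.Agent.Lib.MP_640417_ag.Orth.StructO
import Pool.Agent.Lib.MP_640417_ag.Four.Iso

/-!
# MP_640417_ag, Orth, module PairO (150 lines): the isolated pair

As `exists_pair` in `Four/Iso.lean` (copy it), `q = 1`, symmetric form. `hskew`: `skew_of_basis`. For `u₀`: choose `d v` with `form (e v) (e (d v)) ≠ 0`, so
`lam v * lam (d v) = 1`, `t (d v) = - t v`. `d u₀ ≠ u₀` since `lam u₀ ^ 2 ≠ 1`. `t u₀ ≠ 0`: otherwise `t u₀ + t u₀ + t u₀ + t u₀ = 0`, so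
`(lam u₀ ^ 4)^N = 1` and `hiso` gives `lam u₀ ^ 2 = 1`. `t v = t u₀` implies `v = u₀`: `t u₀ + t (d v) + t u₀ + t (d v) = 0`, so by `hiso`
`lam u₀ lam (d v) = 1` (then `lam v = lam u₀`, `v = u₀`) or `lam u₀ ^ 2 = 1`, excluded. The rest as in `exists_pair`; `e' = k₀⁻¹ • e (d u₀)`.
Then `img'`, `img` by `rankTwo` for `(e, e', t u₀)` and for `(e', e, - t u₀)` (`form e' e = 1` by symmetry).
-/

set_option autoImplicit false

namespace Pool.Agent.Lib.MP_640417_ag.Orth

open Module Pool.Agent.Lib.MP_640417_ag.Four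

theorem exists_pairO {K V : Type} [Field K] [CharZero K] [AddCommGroup V] [Module K V]
    [FiniteDimensional K V] {form : LinearMap.BilinForm K V} (hsymm : ∀ x y, form x y = form y x)
    (hnd : ∀ x, (∀ y, form x y = 0) → x = 0) {I : Type} [Fintype I] [DecidableEq I]
    (e : Basis I K V) (lam : I → K) (hlam : ∀ v, lam v ≠ 0)
    (hpair : ∀ u v, form (e u) (e v) ≠ 0 → lam u * lam v = 1) (t : I → K)
    (h2 : ∀ u v, lam u * lam v = 1 → t u + t v = 0)
    (h4 : ∀ a b u v, t a + t b + t u + t v = 0 →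
      ∃ N : ℕ, 0 < N ∧ (lam a * lam b * lam u * lam v) ^ N = 1)
    (tt : Module.End K V) (htt : ∀ v, tt (e v) = t v • e v)
    (u₀ : I) (hsimple : ∀ v, lam v = lam u₀ → v = u₀) (hz : lam u₀ ^ 2 ≠ 1)
    (hiso : ∀ a b c, ∀ N : ℕ, 0 < N → (lam u₀ * lam a * lam b * lam c) ^ N = 1 →
      lam u₀ * lam a = 1 ∨ lam u₀ * lam b = 1 ∨ lam u₀ * lam c = 1)
    (L : Submodule K (Module.End K V)) (hL : ∀ M ∈ L, Skew form M)
    (hLt : ∀ M ∈ L, tt * M - M * tt ∈ L) :
    ∃ e' : V, IsoPairO form L tt (t u₀) (e u₀) e' ∧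
      (∀ y, tt y = t u₀ • y → ∃ k : K, y = k • e u₀) ∧
      (∀ y, tt y = - t u₀ • y → ∃ k : K, y = k • e') := by
  have hdual : ∀ u, ∃ v, form (e u) (e v) ≠ 0 := by
    intro u
    by_contra hcon
    push Not at hcon
    apply e.ne_zero u
    apply hnd
    intro y
    rw [← e.sum_repr y, map_sum]
    refine Finset.sum_eq_zero fun v _ => ?_
    rw [map_smul, hcon v, smul_zero]
  choose d hd using hdual
  have hdq : ∀ u, lam u * lam (d u) = 1 := fun u => hpair u (d u) (hd u)
  have hdt : ∀ u, t (d u) = - t u := fun u => eq_neg_of_add_eq_zero_right (h2 u (d u) (hdq u))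
  have hsq : lam u₀ * lam u₀ ≠ 1 := by
    rw [← sq]
    exact hz
  have ht0 : t u₀ ≠ 0 := by
    intro h0
    obtain ⟨N, hN, hrel⟩ := h4 u₀ u₀ u₀ u₀ (by rw [h0]; ring)
    rcases hiso _ _ _ N hN hrel with h | h | h
    · exact hsq h
    · exact hsq h
    · exact hsq h
  have hcancel : ∀ v, lam u₀ * lam (d v) = 1 → v = u₀ := by
    intro v hv
    apply hsimple
    exact (mul_right_cancel₀ (hlam (d v)) ((hdq v).trans hv.symm))
  have hskew : Skew form tt := skew_of_basis e t tt htt fun u v h => h2 u v (hpair u v h)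
  have hline : ∀ v, t v = t u₀ → v = u₀ := by
    intro v hv
    obtain ⟨N, hN, hrel⟩ := h4 u₀ (d v) u₀ (d v) (by rw [hdt, hv]; ring)
    rcases hiso _ _ _ N hN hrel with h | h | h
    · exact hcancel v h
    · exact absurd h hsq
    · exact hcancel v h
  have hneg : ∀ ν, tt.HasEigenvalue ν → tt.HasEigenvalue (-ν) := by
    intro ν hν
    obtain ⟨v, rfl⟩ := exists_of_hasEigenvalue e t tt htt ν hν
    rw [← hdt]
    exact Module.End.hasEigenvalue_of_hasEigenvector (x := e (d v))
      ⟨by rw [Module.End.mem_eigenspace_iff]; exact htt _, e.ne_zero _⟩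
  have hmain : ∀ ν α β : K, tt.HasEigenvalue ν → tt.HasEigenvalue α → tt.HasEigenvalue β →
      ν ≠ t u₀ → t u₀ - ν = α - β → (α = t u₀ ∧ β = ν) ∨ (α = -ν ∧ β = -t u₀) := by
    intro ν α β hν hα hβ hne heq
    obtain ⟨v, rfl⟩ := exists_of_hasEigenvalue e t tt htt ν hν
    obtain ⟨a, rfl⟩ := exists_of_hasEigenvalue e t tt htt α hα
    obtain ⟨b, rfl⟩ := exists_of_hasEigenvalue e t tt htt β hβ
    obtain ⟨N, hN, hrel⟩ := h4 u₀ (d v) b (d a) (by rw [hdt, hdt]; linear_combination heq)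
    rcases hiso _ _ _ N hN hrel with h | h | h
    · exact absurd (by rw [hcancel v h]) hne
    · right
      have h5 := h2 _ _ h
      have h6 : t b = - t u₀ := eq_neg_of_add_eq_zero_right h5
      refine ⟨?_, h6⟩
      rw [h6] at heq
      linear_combination -heq
    · left
      have h5 : t a = t u₀ := by rw [hcancel a h]
      refine ⟨h5, ?_⟩
      rw [h5] at heq
      linear_combination heq
  have hmain' : ∀ ν α β : K, tt.HasEigenvalue ν → tt.HasEigenvalue α → tt.HasEigenvalue β →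
      ν ≠ - t u₀ → - t u₀ - ν = α - β → (α = - t u₀ ∧ β = ν) ∨ (α = -ν ∧ β = - - t u₀) := by
    intro ν α β hν hα hβ hne heq
    rcases hmain (-ν) (-α) (-β) (hneg ν hν) (hneg α hα) (hneg β hβ) (by
      intro h
      apply hne
      rw [← h, neg_neg]) (by linear_combination -heq) with ⟨h5, h6⟩ | ⟨h5, h6⟩
    · left
      exact ⟨by rw [← h5, neg_neg], neg_injective h6⟩
    · right
      exact ⟨by linear_combination -h5, by linear_combination -h6⟩
  have htop : ⨆ μ, tt.eigenspace μ = ⊤ := by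
    rw [eq_top_iff, ← e.span_eq, Submodule.span_le]
    rintro _ ⟨v, rfl⟩
    refine (le_iSup (fun μ => tt.eigenspace μ) (t v)) ?_
    rw [Module.End.mem_eigenspace_iff]
    exact htt v
  set k₀ : K := form (e u₀) (e (d u₀)) with hk₀
  have hk₀0 : k₀ ≠ 0 := hd u₀
  set e' := k₀⁻¹ • e (d u₀) with he'
  have hp : form (e u₀) e' = 1 := by
    rw [he', map_smul, smul_eq_mul, ← hk₀, inv_mul_cancel₀ hk₀0]
  have hp' : form e' (e u₀) = 1 := by rw [hsymm, hp]
  have hte' : tt e' = - t u₀ • e' := by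
    rw [he', map_smul, htt, hdt, smul_comm]
  have hL1 : ∀ y, tt y = t u₀ • y → ∃ k : K, y = k • e u₀ := by
    intro y hy
    refine ⟨e.repr y u₀, ?_⟩
    conv_lhs => rw [← e.sum_repr y]
    rw [Finset.sum_eq_single u₀]
    · intro v _ hv
      by_contra hcon
      have h5 : e.repr y v ≠ 0 := by
        intro h6
        apply hcon
        rw [h6, zero_smul]
      exact hv (hline v (repr_eigen e t tt htt y _ hy v h5))
    · intro h; exact absurd (Finset.mem_univ _) h
  have hL2 : ∀ y, tt y = - t u₀ • y → ∃ k : K, y = k • e' := by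
    intro y hy
    refine ⟨form (e u₀) y, ?_⟩
    rw [← sub_eq_zero]
    set z := y - form (e u₀) y • e' with hz
    have h7 : tt z = - t u₀ • z := by
      rw [hz, map_sub, map_smul, hy, hte', smul_sub, smul_comm]
    have h8 : form (e u₀) z = 0 := by
      rw [hz, map_sub, map_smul, hp, smul_eq_mul, mul_one, sub_self]
    have h9 : ∀ s, form (e s) z = 0 := by
      intro s
      by_cases hs : s = u₀
      · rw [hs, h8]
      · have h10 := hskew (e s) z
        rw [htt, h7, map_smul, LinearMap.smul_apply, map_smul, smul_eq_mul, smul_eq_mul,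
          ← add_mul] at h10
        refine (mul_eq_zero.mp h10).resolve_left ?_
        intro h11
        apply hs
        apply hline
        linear_combination h11
    apply hnd
    intro x
    rw [hsymm, ← e.sum_repr x, map_sum, LinearMap.sum_apply]
    refine Finset.sum_eq_zero fun s _ => ?_
    rw [map_smul, LinearMap.smul_apply, h9, smul_zero]
  refine ⟨e', ⟨ht0, htt u₀, hte', hp, ?_, ?_⟩, hL1, hL2⟩
  · exact rankTwo hsymm hnd hskew htop (htt u₀) hte' hp hL1 hL2 hmain L hL hLt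
  · refine rankTwo hsymm hnd hskew htop hte' (by rw [neg_neg]; exact htt u₀) hp' hL2
      (fun y hy => hL1 y (by rw [neg_neg] at hy; exact hy)) hmain' L hL hLt

end Pool.Agent.Lib.MP_640417_ag.Orth
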