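import Pool.Agent.Lib.MP_640417_ag.Orth.Aa
import Pool.Agent.Lib.MP_640417_ag.Four.RankTwo

/-!
# MP_640417_ag, Orth, module Rank: rank two elements from an isolated eigenvalue

The same argument as for `pRankTwo` (`Four/RankTwo.lean`), with a symmetric form and `aa` instead of `ss`.
It is enough to treat `M` in `L` which is an eigenvector of the commutator with `t`, `[t, M] = a M`. If
`a = 0`, `M e'` is a multiple of `e'`. If `a ≠ 0`, put `w = M e'`, `ν = τ - a`; then `M = aa form e w`.
-/

set_option autoImplicit false

namespace Pool.Agent.Lib.MP_640417_ag.Orth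

open Module Pool.Agent.Lib.MP_640417_ag.Four

open RankTwo in
theorem rankTwo {K V : Type} [Field K] [CharZero K] [AddCommGroup V] [Module K V]
    [FiniteDimensional K V] {form : LinearMap.BilinForm K V} (hsymm : ∀ x y, form x y = form y x)
    (hnd : ∀ x, (∀ y, form x y = 0) → x = 0) {t : Module.End K V} (ht : Skew form t)
    (htop : ⨆ μ, t.eigenspace μ = ⊤) {τ : K} {e e' : V} (he : t e = τ • e) (he' : t e' = -τ • e')
    (hee : form e e' = 1) (hline : ∀ y, t y = τ • y → ∃ k : K, y = k • e)
    (hline' : ∀ y, t y = -τ • y → ∃ k : K, y = k • e')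
    (hiso : ∀ ν α β : K, t.HasEigenvalue ν → t.HasEigenvalue α → t.HasEigenvalue β → ν ≠ τ →
      τ - ν = α - β → (α = τ ∧ β = ν) ∨ (α = -ν ∧ β = -τ))
    (L : Submodule K (Module.End K V)) (hL : ∀ M ∈ L, Skew form M)
    (hLt : ∀ M ∈ L, t * M - M * t ∈ L) :
    ∀ M ∈ L, ∃ (k : K) (w : V), M e' = k • e' + w ∧ aa form e w ∈ L := by
  obtain ⟨ι, b, μ, hb⟩ := exists_eigenbasis htop
  -- orthogonality of the eigenspaces
  have horth : ∀ {β γ : K} {x y : V}, t x = β • x → t y = γ • y → β + γ ≠ 0 → form x y = 0 := by
    intro β γ x y hx hy hβγ
    have h := ht x y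
    rw [hx, hy, map_smul, LinearMap.smul_apply, map_smul, ← add_smul] at h
    exact (smul_eq_zero.1 h).resolve_left hβγ
  have hee' : form e' e = 1 := by rw [hsymm, hee]
  have haa0 : aa form e (0 : V) = 0 := by
    ext x
    simp [aa_apply]
  have heig : ∀ {β : K} {x : V}, t x = β • x → x ≠ 0 → t.HasEigenvalue β := fun hx h0 =>
    Module.End.hasEigenvalue_of_hasEigenvector (x := _) ⟨Module.End.mem_eigenspace_iff.2 hx, h0⟩
  -- the conclusion for an eigenvector of the commutator
  have main : ∀ (a : K) (M : Module.End K V), M ∈ L → t * M - M * t = a • M →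
      ∃ (k : K) (w : V), M e' = k • e' + w ∧ aa form e w ∈ L := by
    intro a M hM ha
    have htM : ∀ x, t (M x) = M (t x) + a • M x := by
      intro x
      have h := congrArg (fun f : Module.End K V => f x) ha
      simp only [LinearMap.sub_apply, Module.End.mul_apply, LinearMap.smul_apply] at h
      rw [← h]
      abel
    have hMe : ∀ {β : K} {x : V}, t x = β • x → t (M x) = (β + a) • M x := by
      intro β x hx
      rw [htM, hx, map_smul, add_smul]
    have hw := hMe he'
    by_cases ha0 : a = 0
    · rw [ha0, add_zero] at hw
      obtain ⟨k, hk⟩ := hline' _ hw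
      exact ⟨k, 0, by rw [hk, add_zero], by rw [haa0]; exact L.zero_mem⟩
    · by_cases hw0 : M e' = 0
      · exact ⟨0, 0, by rw [hw0, zero_smul, add_zero], by rw [haa0]; exact L.zero_mem⟩
      · set w := M e' with hwdef
        set ν := τ - a with hν
        have hντ : ν ≠ τ := fun h => ha0 (by rw [hν] at h; simpa using h)
        have hw' : t w = -ν • w := by rw [hw, hν]; congr 1; ring
        have haν : τ - ν = a := by rw [hν]; ring
        -- `w` is orthogonal to `e'`
        have hwe : form e' w = 0 := by
          have h := hL M hM e' e'
          rw [← hwdef, hsymm w e'] at h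
          have h2 : (2 : K) * form e' w = 0 := by rw [two_mul]; exact h
          exact (mul_eq_zero.1 h2).resolve_left two_ne_zero
        -- `ν` is an eigenvalue
        have hνeig : t.HasEigenvalue ν := by
          obtain ⟨i, hi⟩ : ∃ i, form w (b i) ≠ 0 := by
            by_contra hcon
            push Not at hcon
            apply hw0
            apply hnd
            have h0 : form w = 0 := b.ext fun i => by rw [hcon i]; rfl
            intro y
            rw [h0]
            rfl
          have h1 : -ν + μ i = 0 := by
            by_contra h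
            exact hi (horth hw' (hb i) h)
          have h2 : μ i = ν := by
            have := eq_neg_of_add_eq_zero_right h1
            rw [this, neg_neg]
          rw [← h2]
          exact heig (hb i) (b.ne_zero i)
        -- the effect of `M` on an eigenvector
        have hzero : ∀ {β : K} {x : V}, t x = β • x → β ≠ ν → β ≠ -τ → M x = 0 := by
          intro β x hx h1 h2
          by_contra hMx
          have hx0 : x ≠ 0 := by
            rintro rfl
            exact hMx (map_zero M)
          have h3 := hiso ν (β + a) β hνeig (heig (hMe hx) hMx) (heig hx hx0) hντ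
            (by rw [haν]; ring)
          rcases h3 with h3 | h3
          · exact h1 h3.2
          · exact h2 h3.2
        have hfin : aa form e w = M := by
          refine b.ext fun i => ?_
          rw [aa_apply]
          by_cases hi : μ i = -τ
          · have h1 := hb i
            rw [hi] at h1
            obtain ⟨k, hk⟩ := hline' _ h1
            have hM1 : M (b i) = k • w := by rw [hk, map_smul]
            rw [hM1, hk]
            simp only [map_smul, LinearMap.smul_apply, hee', hwe, smul_eq_mul, mul_one, mul_zero,
              zero_smul, sub_zero]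
          · by_cases hi2 : μ i = ν
            · have h1 := hb i
              have h4 : form (b i) e = 0 := horth h1 he (fun h => hi (eq_neg_of_add_eq_zero_left h))
              rw [hi2] at h1
              have h2 := hMe h1
              have h3 : ν + a = τ := by rw [hν]; ring
              rw [h3] at h2
              obtain ⟨c, hc⟩ := hline _ h2
              have h5 : form (M (b i)) e' + form (b i) (M e') = 0 := hL M hM (b i) e'
              rw [← hwdef, hc, map_smul, LinearMap.smul_apply, hee, smul_eq_mul, mul_one] at h5
              have h6 : form (b i) w = -c := eq_neg_of_add_eq_zero_right h5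
              rw [h4, h6, hc]
              simp
            · have h1 : M (b i) = 0 := hzero (hb i) hi2 hi
              have h2 : form (b i) e = 0 := horth (hb i) he
                (fun h => hi (eq_neg_of_add_eq_zero_left h))
              have h3 : form (b i) w = 0 := horth (hb i) hw'
                (fun h => hi2 (by rw [eq_neg_of_add_eq_zero_left h, neg_neg]))
              rw [h1, h2, h3]
              simp
        exact ⟨0, w, by rw [zero_smul, zero_add], by rw [hfin]; exact hM⟩
  -- decomposition of `L`
  intro M hM
  have hstable : ∀ x ∈ L, comm t x ∈ L := fun x hx => hLt x hx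
  have htop2 : ⨆ a, (comm t).genEigenspace a 1 = ⊤ := comm_top htop
  have hdec := Submodule.eq_iSup_inf_genEigenspace (p := L) (f := comm t) 1 hstable htop2
  have hM' : M ∈ ⨆ a, L ⊓ (comm t).genEigenspace a 1 := by rw [← hdec]; exact hM
  refine Submodule.iSup_induction _ (motive := fun M => ∃ (k : K) (w : V),
    M e' = k • e' + w ∧ aa form e w ∈ L) hM' ?_ ?_ ?_
  · intro a M hMa
    obtain ⟨h1, h2⟩ := Submodule.mem_inf.1 hMa
    exact main a M h1 (Module.End.mem_eigenspace_iff.1 h2)
  · exact ⟨0, 0, by simp, by rw [haa0]; exact L.zero_mem⟩
  · rintro M1 M2 ⟨k1, w1, h1, h1'⟩ ⟨k2, w2, h2, h2'⟩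
    refine ⟨k1 + k2, w1 + w2, ?_, ?_⟩
    · rw [LinearMap.add_apply, h1, h2, add_smul]
      abel
    · rw [aa_add]
      exact L.add_mem h1' h2'

end Pool.Agent.Lib.MP_640417_ag.Orth
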